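import Mathlib

set_option autoImplicit false
set_option linter.unusedVariables false
set_option linter.unusedSimpArgs false

/-!
Quadratic words over an arbitrary group: reduction to the abelianisation.
-/

namespace Pool.Agent.K9h94.ThF

section defs

variable {G K : Type}

/-- `g` or its inverse -/
def sg [Group G] (s : Bool) (g : G) : G := if s then g else g⁻¹

/-- value of a letter: a constant `κ c` or a variable `σ n`, possibly inverted -/
def letter [Group G] (κ : K → G) (σ : ℕ → G) (p : Bool × (K ⊕ ℕ)) : G :=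
  if p.1 then Sum.elim κ σ p.2 else (Sum.elim κ σ p.2)⁻¹

/-- value of a word -/
def value [Group G] (κ : K → G) (σ : ℕ → G) (w : List (Bool × (K ⊕ ℕ))) : G :=
  (w.map (letter κ σ)).prod

/-- the variable of a letter, with its sign -/
def varOf (p : Bool × (K ⊕ ℕ)) : Option (Bool × ℕ) :=
  Sum.elim (fun _ => none) (fun n => some (p.1, n)) p.2

/-- the sequence of the variable letters of a word -/
def vars (w : List (Bool × (K ⊕ ℕ))) : List (Bool × ℕ) := w.filterMap varOf

/-- every variable occurs twice or not at all -/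
def Quad (v : List (Bool × ℕ)) : Prop :=
  ∀ n, v.countP (fun q => q.2 = n) = 0 ∨ v.countP (fun q => q.2 = n) = 2

/-- the letters of the variables `X` and `Y`, in the order of the word -/
def restr (v : List (Bool × ℕ)) (X Y : ℕ) : List (Bool × ℕ) :=
  v.filter (fun q => q.2 = X ∨ q.2 = Y)

/-- some variable occurs twice with the same sign -/
def SameSign (v : List (Bool × ℕ)) : Prop := ∃ s n, v.count (s, n) = 2

/-- two variables which are interleaved, not both with equal signs, or both with equal signs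
and not interleaved -/
def Handle (v : List (Bool × ℕ)) : Prop :=
  ∃ X Y, X ≠ Y ∧ ∃ a b c d : Bool,
    (restr v X Y = [(a, X), (b, Y), (c, X), (d, Y)] ∧ (a ≠ c ∨ b ≠ d)) ∨
    restr v X Y = [(a, X), (a, X), (b, Y), (b, Y)] ∨
    restr v X Y = [(a, X), (b, Y), (b, Y), (a, X)]

end defs

/-- what we need about a group and its abelianisation -/
structure Good {G A : Type} [Group G] [CommGroup A] (ab : G →* A) : Prop where
  surj : Function.Surjective ab
  comm : ∀ g, ab g = 1 → ∃ X Y, X * Y * X⁻¹ * Y⁻¹ = g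
  sq : ∀ g a, ab g = a * a → ∃ X Y, X * X * (Y * Y) = g

section solve

variable {G A : Type} [Group G] [CommGroup A] {ab : G →* A}

theorem sg_sg_self (a : Bool) (g : G) : sg a (sg a g) = g := by
  cases a <;> simp [sg]

theorem sg_not (a : Bool) (g : G) : sg (!a) g = (sg a g)⁻¹ := by
  cases a <;> simp [sg]

theorem map_sg (f : G →* A) (a : Bool) (g : G) : f (sg a g) = sg a (f g) := by
  cases a <;> simp [sg]

theorem solve_torus (h : Good ab) (g0 g1 g2 g3 g4 : G)
    (hab : ab g0 * ab g1 * ab g2 * ab g3 * ab g4 = 1) :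
    ∃ X Y, g0 * X * g1 * Y * g2 * X⁻¹ * g3 * Y⁻¹ * g4 = 1 := by
  obtain ⟨P, Q, hPQ⟩ := h.comm ((g0 * g3 * g2)⁻¹ * (g1 * g4)⁻¹) (by
    simp only [map_mul, map_inv]
    rw [← mul_inv, inv_eq_one, ← hab]
    simp only [mul_comm, mul_left_comm])
  refine ⟨g3 * g2 * P, g1⁻¹ * Q * g2⁻¹, ?_⟩
  calc g0 * (g3 * g2 * P) * g1 * (g1⁻¹ * Q * g2⁻¹) * g2 * (g3 * g2 * P)⁻¹ * g3 *
        (g1⁻¹ * Q * g2⁻¹)⁻¹ * g4
      = (g0 * g3 * g2) * (P * Q * P⁻¹ * Q⁻¹) * (g1 * g4) := by group
    _ = 1 := by rw [hPQ]; group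

theorem solve_xxyy (h : Good ab) (g0 g1 g2 g3 g4 : G) (r : A)
    (hab : ab g0 * ab g1 * ab g2 * ab g3 * ab g4 = r * r) :
    ∃ X Y, g0 * X * g1 * X * g2 * Y * g3 * Y * g4 = 1 := by
  obtain ⟨P, Q, hPQ⟩ := h.sq (g0⁻¹ * g4⁻¹ * g3 * g2⁻¹ * g1) (r⁻¹ * ab g1 * ab g3) (by
    simp only [map_mul, map_inv]
    have e : ab g0 = r * r * (ab g1 * ab g2 * ab g3 * ab g4)⁻¹ :=
      eq_mul_inv_of_mul_eq (by rw [← hab]; simp only [mul_assoc])
    rw [e]
    simp only [mul_inv, inv_inv]
    have : ∀ r a b c d : A, r⁻¹ * r⁻¹ * (a * b * c * d) * d⁻¹ * c * b⁻¹ * a =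
        r⁻¹ * a * c * (r⁻¹ * a * c) := by
      intro r a b c d
      have : r⁻¹ * r⁻¹ * (a * b * c * d) * d⁻¹ * c * b⁻¹ * a =
        (r⁻¹ * r⁻¹ * a * a * c * c) * ((b * b⁻¹) * (d * d⁻¹)) := by
        simp only [mul_comm, mul_left_comm, mul_assoc]
      rw [this]
      simp only [mul_inv_cancel, mul_one]
      simp only [mul_comm, mul_left_comm, mul_assoc]
    exact this _ _ _ _ _)
  refine ⟨P * g1⁻¹, (g1⁻¹ * g2)⁻¹ * Q * (g1⁻¹ * g2) * g3⁻¹, ?_⟩
  calc g0 * (P * g1⁻¹) * g1 * (P * g1⁻¹) * g2 * ((g1⁻¹ * g2)⁻¹ * Q * (g1⁻¹ * g2) * g3⁻¹) * g3 *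
        ((g1⁻¹ * g2)⁻¹ * Q * (g1⁻¹ * g2) * g3⁻¹) * g4
      = g0 * (P * P * (Q * Q)) * (g1⁻¹ * g2 * g3⁻¹ * g4) := by group
    _ = 1 := by rw [hPQ]; group

theorem solve_xyyx (h : Good ab) (g0 g1 g2 g3 g4 : G) (r : A)
    (hab : ab g0 * ab g1 * ab g2 * ab g3 * ab g4 = r * r) :
    ∃ X Y, g0 * X * g1 * Y * g2 * Y * g3 * X * g4 = 1 := by
  -- g0 X g1 Y g2 Y g3 X g4 with Y = Q g2⁻¹
  obtain ⟨Q', P, hPQ⟩ := h.sq (g0⁻¹ * g4⁻¹ * g1 * g2⁻¹ * g3) (r⁻¹ * ab g1 * ab g3) (by
    simp only [map_mul, map_inv]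
    have e : ab g0 = r * r * (ab g1 * ab g2 * ab g3 * ab g4)⁻¹ :=
      eq_mul_inv_of_mul_eq (by rw [← hab]; simp only [mul_assoc])
    rw [e]
    simp only [mul_inv, inv_inv]
    have : ∀ r a b c d : A, r⁻¹ * r⁻¹ * (a * b * c * d) * d⁻¹ * a * b⁻¹ * c =
        r⁻¹ * a * c * (r⁻¹ * a * c) := by
      intro r a b c d
      have : r⁻¹ * r⁻¹ * (a * b * c * d) * d⁻¹ * a * b⁻¹ * c =
        (r⁻¹ * r⁻¹ * a * a * c * c) * ((b * b⁻¹) * (d * d⁻¹)) := by
        simp only [mul_comm, mul_left_comm, mul_assoc]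
      rw [this]
      simp only [mul_inv_cancel, mul_one]
      simp only [mul_comm, mul_left_comm, mul_assoc]
    exact this _ _ _ _ _)
  refine ⟨P * (g1 * g2⁻¹ * g3)⁻¹, (P * (g1 * g2⁻¹ * g3)⁻¹ * g1)⁻¹ * Q' *
    (P * (g1 * g2⁻¹ * g3)⁻¹ * g1) * g2⁻¹, ?_⟩
  calc g0 * (P * (g1 * g2⁻¹ * g3)⁻¹) * g1 * ((P * (g1 * g2⁻¹ * g3)⁻¹ * g1)⁻¹ * Q' *
        (P * (g1 * g2⁻¹ * g3)⁻¹ * g1) * g2⁻¹) * g2 * ((P * (g1 * g2⁻¹ * g3)⁻¹ * g1)⁻¹ * Q' *
        (P * (g1 * g2⁻¹ * g3)⁻¹ * g1) * g2⁻¹) * g3 * (P * (g1 * g2⁻¹ * g3)⁻¹) * g4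
      = g0 * (Q' * Q' * (P * P)) * ((g1 * g2⁻¹ * g3)⁻¹ * g4) := by group
    _ = 1 := by rw [hPQ]; group

/-- `X Y X Y⁻¹` -/
theorem solve_xyxY (h : Good ab) (g0 g1 g2 g3 g4 : G) (r : A)
    (hab : ab g0 * ab g1 * ab g2 * ab g3 * ab g4 = r * r) :
    ∃ X Y, g0 * X * g1 * Y * g2 * X * g3 * Y⁻¹ * g4 = 1 := by
  obtain ⟨U, V, hUV⟩ := solve_xxyy h g0 1 g2⁻¹ (g1⁻¹ * g3) g4 (r * (ab g1)⁻¹ * (ab g2)⁻¹) (by
    simp only [map_mul, map_inv, map_one, mul_one]
    have : r * (ab g1)⁻¹ * (ab g2)⁻¹ * (r * (ab g1)⁻¹ * (ab g2)⁻¹) =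
      (r * r) * ((ab g1)⁻¹ * (ab g1)⁻¹ * ((ab g2)⁻¹ * (ab g2)⁻¹)) := by
        simp only [mul_comm, mul_left_comm, mul_assoc]
    rw [this, ← hab]
    have e : ∀ a b c d e : A, a * b⁻¹ * (c⁻¹ * d) * e = a * c * b * d * e * (c⁻¹ * c⁻¹ * (b⁻¹ * b⁻¹)) := by
      intro a b c d e
      have : a * c * b * d * e * (c⁻¹ * c⁻¹ * (b⁻¹ * b⁻¹)) =
        (a * b⁻¹ * (c⁻¹ * d) * e) * ((c * c⁻¹) * (b * b⁻¹)) := by
        simp only [mul_comm, mul_left_comm, mul_assoc]
      rw [this]; simp only [mul_inv_cancel, mul_one]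
    exact e _ _ _ _ _)
  refine ⟨U * g2⁻¹ * V * g1⁻¹, V⁻¹, ?_⟩
  calc g0 * (U * g2⁻¹ * V * g1⁻¹) * g1 * V⁻¹ * g2 * (U * g2⁻¹ * V * g1⁻¹) * g3 * (V⁻¹)⁻¹ * g4
      = g0 * U * 1 * U * g2⁻¹ * V * (g1⁻¹ * g3) * V * g4 := by group
    _ = 1 := hUV

/-- `X Y X⁻¹ Y` -/
theorem solve_xyXy (h : Good ab) (g0 g1 g2 g3 g4 : G) (r : A)
    (hab : ab g0 * ab g1 * ab g2 * ab g3 * ab g4 = r * r) :
    ∃ X Y, g0 * X * g1 * Y * g2 * X⁻¹ * g3 * Y * g4 = 1 := by
  obtain ⟨U, V, hUV⟩ := solve_xyxY h 1 g2 g3 (g4 * g0) g1 r (by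
    simp only [map_mul, map_one, one_mul]
    rw [← hab]
    simp only [mul_comm, mul_left_comm, mul_assoc])
  refine ⟨V⁻¹, U, ?_⟩
  have e : 1 * U * g2 * V * g3 * U * (g4 * g0) * V⁻¹ * g1 =
      (g0 * V⁻¹ * g1)⁻¹ * (g0 * V⁻¹ * g1 * U * g2 * (V⁻¹)⁻¹ * g3 * U * g4) * (g0 * V⁻¹ * g1) := by
    group
  rw [e] at hUV
  have h2 : g0 * V⁻¹ * g1 * U * g2 * (V⁻¹)⁻¹ * g3 * U * g4 =
      (g0 * V⁻¹ * g1) * ((g0 * V⁻¹ * g1)⁻¹ *
        (g0 * V⁻¹ * g1 * U * g2 * (V⁻¹)⁻¹ * g3 * U * g4) * (g0 * V⁻¹ * g1)) *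
        (g0 * V⁻¹ * g1)⁻¹ := by group
  rw [h2, hUV]; group

end solve

section words

variable {G A K : Type} [Group G] [CommGroup A] {ab : G →* A}

theorem value_append (κ : K → G) (σ : ℕ → G) (w w' : List (Bool × (K ⊕ ℕ))) :
    value κ σ (w ++ w') = value κ σ w * value κ σ w' := by
  simp [value]

theorem value_cons (κ : K → G) (σ : ℕ → G) (p : Bool × (K ⊕ ℕ)) (w : List (Bool × (K ⊕ ℕ))) :
    value κ σ (p :: w) = letter κ σ p * value κ σ w := by
  simp [value]

theorem map_value (f : G →* A) (κ : K → G) (σ : ℕ → G) (w : List (Bool × (K ⊕ ℕ))) :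
    f (value κ σ w) = value (fun c => f (κ c)) (fun n => f (σ n)) w := by
  induction w with
  | nil => simp [value]
  | cons p w ih =>
    rw [value_cons, value_cons, map_mul, ih]
    congr 1
    obtain ⟨s, x | n⟩ := p <;> cases s <;> simp [letter]

theorem letter_var (κ : K → G) (σ : ℕ → G) (s : Bool) (n : ℕ) :
    letter κ σ (s, Sum.inr n) = sg s (σ n) := rfl

theorem value_congr (κ : K → G) (σ σ' : ℕ → G) (w : List (Bool × (K ⊕ ℕ)))
    (h : ∀ p ∈ w, ∀ n, p.2 = Sum.inr n → σ n = σ' n) : value κ σ w = value κ σ' w := by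
  unfold value
  congr 1
  apply List.map_congr_left
  intro p hp
  obtain ⟨s, x | n⟩ := p
  · rfl
  · rw [letter_var, letter_var, h _ hp n rfl]

/-- letters of `X`, `Y` as a partial function -/
def fXY (X Y : ℕ) (p : Bool × (K ⊕ ℕ)) : Option (Bool × ℕ) :=
  (varOf p).filter (fun q => q.2 = X ∨ q.2 = Y)

theorem restr_vars (w : List (Bool × (K ⊕ ℕ))) (X Y : ℕ) :
    restr (vars w) X Y = w.filterMap (fXY X Y) := by
  unfold restr vars
  rw [List.filter_filterMap]
  rfl

theorem fXY_none {X Y : ℕ} {p : Bool × (K ⊕ ℕ)} (h : fXY X Y p = none) (n : ℕ)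
    (hp : p.2 = Sum.inr n) : n ≠ X ∧ n ≠ Y := by
  obtain ⟨s, x⟩ := p
  simp only at hp
  subst hp
  simp only [fXY, varOf, Sum.elim_inr, Option.filter_eq_none_iff, Option.some.injEq] at h
  have := h (s, n) rfl
  simpa using this

theorem fXY_some {X Y : ℕ} {p : Bool × (K ⊕ ℕ)} {q : Bool × ℕ} (h : fXY X Y p = some q) :
    p = (q.1, Sum.inr q.2) := by
  obtain ⟨s, x | n⟩ := p
  · simp [fXY, varOf] at h
  · simp only [fXY, varOf, Sum.elim_inr, Option.filter_eq_some_iff, Option.some.injEq] at h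
    rw [← h.1]

theorem decomp {w : List (Bool × (K ⊕ ℕ))} {X Y : ℕ} {q1 q2 q3 q4 : Bool × ℕ}
    (h : restr (vars w) X Y = [q1, q2, q3, q4]) :
    ∃ l0 l1 l2 l3 l4 : List (Bool × (K ⊕ ℕ)),
      w = l0 ++ (q1.1, Sum.inr q1.2) :: (l1 ++ (q2.1, Sum.inr q2.2) ::
        (l2 ++ (q3.1, Sum.inr q3.2) :: (l3 ++ (q4.1, Sum.inr q4.2) :: l4))) ∧
      (∀ l ∈ [l0, l1, l2, l3, l4], ∀ p ∈ l, ∀ n, p.2 = Sum.inr n → n ≠ X ∧ n ≠ Y) := by
  rw [restr_vars, List.filterMap_eq_cons_iff] at h
  obtain ⟨l0, p1, w1, rfl, h0, h1, h⟩ := h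
  rw [List.filterMap_eq_cons_iff] at h
  obtain ⟨l1, p2, w2, rfl, h2, h3, h⟩ := h
  rw [List.filterMap_eq_cons_iff] at h
  obtain ⟨l2, p3, w3, rfl, h4, h5, h⟩ := h
  rw [List.filterMap_eq_cons_iff] at h
  obtain ⟨l3, p4, l4, rfl, h6, h7, h8⟩ := h
  rw [List.filterMap_eq_nil_iff] at h8
  refine ⟨l0, l1, l2, l3, l4, ?_, ?_⟩
  · rw [fXY_some h1, fXY_some h3, fXY_some h5, fXY_some h7]
  · intro l hl p hp n hn
    simp only [List.mem_cons, List.not_mem_nil, or_false] at hl
    rcases hl with rfl | rfl | rfl | rfl | rfl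
    · exact fXY_none (h0 p hp) n hn
    · exact fXY_none (h2 p hp) n hn
    · exact fXY_none (h4 p hp) n hn
    · exact fXY_none (h6 p hp) n hn
    · exact fXY_none (h8 p hp) n hn

/-- words with a handle: solvable as soon as the abelianised equation is -/
theorem handle_solvable (h : Good ab) (κ : K → G) {w : List (Bool × (K ⊕ ℕ))}
    (hh : Handle (vars w)) (α : ℕ → A) (hα : value (fun c => ab (κ c)) α w = 1) :
    ∃ σ : ℕ → G, value κ σ w = 1 := by
  obtain ⟨X, Y, hXY, a, b, c, d, hc⟩ := hh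
  choose τ hτ using fun n => h.surj (α n)
  have hab : ∀ l : List (Bool × (K ⊕ ℕ)), ab (value κ τ l) = value (fun c => ab (κ c)) α l := by
    intro l
    rw [map_value]
    congr 1
    funext n
    exact hτ n
  have hcongr : ∀ (P Q : G) (l : List (Bool × (K ⊕ ℕ))),
      (∀ p ∈ l, ∀ n, p.2 = Sum.inr n → n ≠ X ∧ n ≠ Y) →
      value κ (Function.update (Function.update τ X P) Y Q) l = value κ τ l := by
    intro P Q l hl
    apply value_congr
    intro p hp n hn
    obtain ⟨h1, h2⟩ := hl p hp n hn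
    rw [Function.update_of_ne h2, Function.update_of_ne h1]
  have hX : ∀ P Q : G, Function.update (Function.update τ X P) Y Q X = P := by
    intro P Q; rw [Function.update_of_ne hXY, Function.update_self]
  have hY : ∀ P Q : G, Function.update (Function.update τ X P) Y Q Y = Q := by
    intro P Q; rw [Function.update_self]
  rcases hc with ⟨hc, hne⟩ | hc | hc
  · obtain ⟨l0, l1, l2, l3, l4, hw, hl⟩ := decomp hc
    have H0 := hl l0 (by simp)
    have H1 := hl l1 (by simp)
    have H2 := hl l2 (by simp)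
    have H3 := hl l3 (by simp)
    have H4 := hl l4 (by simp)
    rw [hw] at hα
    simp only [value_append, value_cons, letter_var] at hα
    simp only [← hab] at hα
    rcases Bool.eq_or_eq_not c a with hca | hca
    · -- `X` with equal signs
      rcases Bool.eq_or_eq_not d b with hdb | hdb
      · exfalso; rcases hne with h | h
        · exact h hca.symm
        · exact h hdb.symm
      · obtain ⟨P, Q, hPQ⟩ := solve_xyxY h (value κ τ l0) (value κ τ l1) (value κ τ l2)
          (value κ τ l3) (value κ τ l4) ((sg a (α X))⁻¹) (by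
            rw [hca, hdb, sg_not] at hα
            rw [← mul_one ((sg a (α X))⁻¹ * (sg a (α X))⁻¹), ← hα]
            have e : ∀ x y u0 u1 u2 u3 u4 : A, u0 * u1 * u2 * u3 * u4 =
              x⁻¹ * x⁻¹ * (u0 * (x * (u1 * (y * (u2 * (x * (u3 * (y⁻¹ * u4)))))))) := by
              intro x y u0 u1 u2 u3 u4
              have : x⁻¹ * x⁻¹ * (u0 * (x * (u1 * (y * (u2 * (x * (u3 * (y⁻¹ * u4)))))))) =
                (u0 * u1 * u2 * u3 * u4) * ((x * x⁻¹) * (x * x⁻¹) * (y * y⁻¹)) := by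
                simp only [mul_comm, mul_left_comm, mul_assoc]
              rw [this]; simp only [mul_inv_cancel, mul_one]
            exact e _ _ _ _ _ _ _)
        refine ⟨Function.update (Function.update τ X (sg a P)) Y (sg b Q), ?_⟩
        rw [hw]
        simp only [value_append, value_cons, letter_var, hX, hY]
        rw [hcongr _ _ l0 H0, hcongr _ _ l1 H1, hcongr _ _ l2 H2, hcongr _ _ l3 H3,
          hcongr _ _ l4 H4, hca, hdb, sg_not, sg_sg_self, sg_sg_self, ← hPQ]
        group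
    · rcases Bool.eq_or_eq_not d b with hdb | hdb
      · obtain ⟨P, Q, hPQ⟩ := solve_xyXy h (value κ τ l0) (value κ τ l1) (value κ τ l2)
          (value κ τ l3) (value κ τ l4) ((sg b (α Y))⁻¹) (by
            rw [hca, hdb, sg_not] at hα
            rw [← mul_one ((sg b (α Y))⁻¹ * (sg b (α Y))⁻¹), ← hα]
            have e : ∀ x y u0 u1 u2 u3 u4 : A, u0 * u1 * u2 * u3 * u4 =
              y⁻¹ * y⁻¹ * (u0 * (x * (u1 * (y * (u2 * (x⁻¹ * (u3 * (y * u4)))))))) := by
              intro x y u0 u1 u2 u3 u4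
              have : y⁻¹ * y⁻¹ * (u0 * (x * (u1 * (y * (u2 * (x⁻¹ * (u3 * (y * u4)))))))) =
                (u0 * u1 * u2 * u3 * u4) * ((x * x⁻¹) * (y * y⁻¹) * (y * y⁻¹)) := by
                simp only [mul_comm, mul_left_comm, mul_assoc]
              rw [this]; simp only [mul_inv_cancel, mul_one]
            exact e _ _ _ _ _ _ _)
        refine ⟨Function.update (Function.update τ X (sg a P)) Y (sg b Q), ?_⟩
        rw [hw]
        simp only [value_append, value_cons, letter_var, hX, hY]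
        rw [hcongr _ _ l0 H0, hcongr _ _ l1 H1, hcongr _ _ l2 H2, hcongr _ _ l3 H3,
          hcongr _ _ l4 H4, hca, hdb, sg_not, sg_sg_self, sg_sg_self, ← hPQ]
        group
      · obtain ⟨P, Q, hPQ⟩ := solve_torus h (value κ τ l0) (value κ τ l1) (value κ τ l2)
          (value κ τ l3) (value κ τ l4) (by
            rw [hca, hdb, sg_not, sg_not] at hα
            rw [← hα]
            have e : ∀ x y u0 u1 u2 u3 u4 : A, u0 * u1 * u2 * u3 * u4 =
              (u0 * (x * (u1 * (y * (u2 * (x⁻¹ * (u3 * (y⁻¹ * u4)))))))) := by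
              intro x y u0 u1 u2 u3 u4
              have : (u0 * (x * (u1 * (y * (u2 * (x⁻¹ * (u3 * (y⁻¹ * u4)))))))) =
                (u0 * u1 * u2 * u3 * u4) * ((x * x⁻¹) * (y * y⁻¹)) := by
                simp only [mul_comm, mul_left_comm, mul_assoc]
              rw [this]; simp only [mul_inv_cancel, mul_one]
            exact e _ _ _ _ _ _ _)
        refine ⟨Function.update (Function.update τ X (sg a P)) Y (sg b Q), ?_⟩
        rw [hw]
        simp only [value_append, value_cons, letter_var, hX, hY]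
        rw [hcongr _ _ l0 H0, hcongr _ _ l1 H1, hcongr _ _ l2 H2, hcongr _ _ l3 H3,
          hcongr _ _ l4 H4, hca, hdb, sg_not, sg_not, sg_sg_self, sg_sg_self, ← hPQ]
        group
  · obtain ⟨l0, l1, l2, l3, l4, hw, hl⟩ := decomp hc
    have H0 := hl l0 (by simp)
    have H1 := hl l1 (by simp)
    have H2 := hl l2 (by simp)
    have H3 := hl l3 (by simp)
    have H4 := hl l4 (by simp)
    rw [hw] at hα
    simp only [value_append, value_cons, letter_var] at hα
    simp only [← hab] at hα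
    obtain ⟨P, Q, hPQ⟩ := solve_xxyy h (value κ τ l0) (value κ τ l1) (value κ τ l2)
      (value κ τ l3) (value κ τ l4) ((sg a (α X))⁻¹ * (sg b (α Y))⁻¹) (by
        rw [← mul_one ((sg a (α X))⁻¹ * (sg b (α Y))⁻¹ * ((sg a (α X))⁻¹ * (sg b (α Y))⁻¹)), ← hα]
        have e : ∀ x y u0 u1 u2 u3 u4 : A, u0 * u1 * u2 * u3 * u4 =
          x⁻¹ * y⁻¹ * (x⁻¹ * y⁻¹) * (u0 * (x * (u1 * (x * (u2 * (y * (u3 * (y * u4)))))))) := by
          intro x y u0 u1 u2 u3 u4
          have : x⁻¹ * y⁻¹ * (x⁻¹ * y⁻¹) * (u0 * (x * (u1 * (x * (u2 * (y * (u3 * (y * u4)))))))) =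
            (u0 * u1 * u2 * u3 * u4) * ((x * x⁻¹) * (x * x⁻¹) * (y * y⁻¹) * (y * y⁻¹)) := by
            simp only [mul_comm, mul_left_comm, mul_assoc]
          rw [this]; simp only [mul_inv_cancel, mul_one]
        exact e _ _ _ _ _ _ _)
    refine ⟨Function.update (Function.update τ X (sg a P)) Y (sg b Q), ?_⟩
    rw [hw]
    simp only [value_append, value_cons, letter_var, hX, hY]
    rw [hcongr _ _ l0 H0, hcongr _ _ l1 H1, hcongr _ _ l2 H2, hcongr _ _ l3 H3,
      hcongr _ _ l4 H4, sg_sg_self, sg_sg_self, ← hPQ]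
    group
  · obtain ⟨l0, l1, l2, l3, l4, hw, hl⟩ := decomp hc
    have H0 := hl l0 (by simp)
    have H1 := hl l1 (by simp)
    have H2 := hl l2 (by simp)
    have H3 := hl l3 (by simp)
    have H4 := hl l4 (by simp)
    rw [hw] at hα
    simp only [value_append, value_cons, letter_var] at hα
    simp only [← hab] at hα
    obtain ⟨P, Q, hPQ⟩ := solve_xyyx h (value κ τ l0) (value κ τ l1) (value κ τ l2)
      (value κ τ l3) (value κ τ l4) ((sg a (α X))⁻¹ * (sg b (α Y))⁻¹) (by
        rw [← mul_one ((sg a (α X))⁻¹ * (sg b (α Y))⁻¹ * ((sg a (α X))⁻¹ * (sg b (α Y))⁻¹)), ← hα]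
        have e : ∀ x y u0 u1 u2 u3 u4 : A, u0 * u1 * u2 * u3 * u4 =
          x⁻¹ * y⁻¹ * (x⁻¹ * y⁻¹) * (u0 * (x * (u1 * (y * (u2 * (y * (u3 * (x * u4)))))))) := by
          intro x y u0 u1 u2 u3 u4
          have : x⁻¹ * y⁻¹ * (x⁻¹ * y⁻¹) * (u0 * (x * (u1 * (y * (u2 * (y * (u3 * (x * u4)))))))) =
            (u0 * u1 * u2 * u3 * u4) * ((x * x⁻¹) * (x * x⁻¹) * (y * y⁻¹) * (y * y⁻¹)) := by
            simp only [mul_comm, mul_left_comm, mul_assoc]
          rw [this]; simp only [mul_inv_cancel, mul_one]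
        exact e _ _ _ _ _ _ _)
    refine ⟨Function.update (Function.update τ X (sg a P)) Y (sg b Q), ?_⟩
    rw [hw]
    simp only [value_append, value_cons, letter_var, hX, hY]
    rw [hcongr _ _ l0 H0, hcongr _ _ l1 H1, hcongr _ _ l2 H2, hcongr _ _ l3 H3,
      hcongr _ _ l4 H4, sg_sg_self, sg_sg_self, ← hPQ]
    group

end words

section crit

variable {A K : Type} [CommGroup A]

theorem value_comm (κ : K → A) (α : ℕ → A) (w : List (Bool × (K ⊕ ℕ))) :
    value κ α w = value κ (fun _ => 1) w * ((vars w).map (fun q => sg q.1 (α q.2))).prod := by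
  induction w with
  | nil => simp [value, vars]
  | cons p w ih =>
    rw [value_cons, value_cons, ih]
    obtain ⟨s, x | n⟩ := p
    · have e : vars ((s, Sum.inl x) :: w) = vars w := List.filterMap_cons_none rfl
      rw [e, mul_assoc]; rfl
    · have e : vars ((s, (Sum.inr n : K ⊕ ℕ)) :: w) = (s, n) :: vars w := by
        simp [vars, varOf]
      rw [e, List.map_cons, List.prod_cons, letter_var, letter_var]
      have e2 : sg s (1 : A) = 1 := by cases s <;> simp [sg]
      rw [e2, one_mul]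
      exact mul_left_comm _ _ _

theorem quad_split {s : Bool} {n : ℕ} {v : List (Bool × ℕ)} (h : Quad ((s, n) :: v)) :
    ∃ s' a b, v = a ++ (s', n) :: b ∧ Quad (a ++ b) ∧ (a ++ b).countP (fun q => q.2 = n) = 0 := by
  have h1 := h n
  rw [List.countP_cons_of_pos (by simp)] at h1
  have h2 : v.countP (fun q => q.2 = n) = 1 := by omega
  obtain ⟨q, hq, hqn⟩ := List.countP_pos_iff.1 (by omega : 0 < v.countP (fun q => q.2 = n))
  obtain ⟨s', m⟩ := q
  have hm : m = n := by simpa using hqn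
  subst hm
  obtain ⟨a, b, rfl⟩ := List.append_of_mem hq
  have h3 : (a ++ b).countP (fun q => q.2 = m) = 0 := by
    rw [List.countP_append, List.countP_cons_of_pos (by simp)] at h2
    rw [List.countP_append]; omega
  refine ⟨s', a, b, rfl, fun k => ?_, h3⟩
  by_cases hk : k = m
  · left; rw [hk]; exact h3
  · have h4 := h k
    rw [List.countP_cons_of_neg (by simpa using fun h => hk h.symm), List.countP_append,
      List.countP_cons_of_neg (by simpa using fun h => hk h.symm)] at h4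
    rw [List.countP_append]; exact h4

theorem quad_prod (α : ℕ → A) : ∀ (N : ℕ) (v : List (Bool × ℕ)), v.length ≤ N → Quad v →
    (∃ r, (v.map (fun q => sg q.1 (α q.2))).prod = r * r) ∧
    (¬ SameSign v → (v.map (fun q => sg q.1 (α q.2))).prod = 1) := by
  intro N
  induction N with
  | zero =>
    intro v hv _
    have : v = [] := List.length_eq_zero_iff.1 (by omega)
    subst this
    exact ⟨⟨1, by simp⟩, fun _ => by simp⟩
  | succ N ih =>
    intro v hv hq
    rcases v with _ | ⟨⟨s, n⟩, v⟩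
    · exact ⟨⟨1, by simp⟩, fun _ => by simp⟩
    obtain ⟨s', a, b, rfl, hab, h0⟩ := quad_split hq
    obtain ⟨⟨r, hr⟩, h1⟩ := ih (a ++ b) (by
      simp only [List.length_cons, List.length_append] at hv ⊢; omega) hab
    have hP : ((((s, n) :: (a ++ (s', n) :: b)).map (fun q => sg q.1 (α q.2))).prod) =
        (sg s (α n) * sg s' (α n)) * ((a ++ b).map (fun q => sg q.1 (α q.2))).prod := by
      simp only [List.map_cons, List.map_append, List.prod_cons, List.prod_append]
      simp only [mul_comm, mul_left_comm, mul_assoc]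
    rcases Bool.eq_or_eq_not s' s with hs | hs
    · subst hs
      constructor
      · refine ⟨sg s' (α n) * r, ?_⟩
        rw [hP, hr]
        simp only [mul_comm, mul_left_comm, mul_assoc]
      · intro hn
        exfalso
        apply hn
        refine ⟨s', n, ?_⟩
        have h2 : (a ++ b).count (s', n) = 0 := by
          rw [List.count_eq_zero]
          intro hm
          rw [List.countP_eq_zero] at h0
          exact h0 _ hm (by simp)
        rw [List.count_append] at h2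
        rw [List.count_cons_self, List.count_append, List.count_cons_self]
        omega
    · constructor
      · refine ⟨r, ?_⟩
        rw [hP, hr, hs, sg_not, mul_inv_cancel, one_mul]
      · intro hn
        rw [hP, hs, sg_not, mul_inv_cancel, one_mul]
        apply h1
        rintro ⟨t, m, htm⟩
        apply hn
        refine ⟨t, m, ?_⟩
        have hmn : m ≠ n := by
          rintro rfl
          have : (t, m) ∈ a ++ b := by
            rw [← List.count_pos_iff]; omega
          rw [List.countP_eq_zero] at h0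
          exact h0 _ this (by simp)
        have e1 : (s, n) ≠ (t, m) := fun h => hmn (by simpa using (congrArg Prod.snd h).symm)
        have e2 : (s', n) ≠ (t, m) := fun h => hmn (by simpa using (congrArg Prod.snd h).symm)
        rw [List.count_cons_of_ne e1, List.count_append, List.count_cons_of_ne e2,
          ← List.count_append, htm]

theorem prod_single (s : Bool) (n : ℕ) (c : A) (v : List (Bool × ℕ))
    (h : ∀ q ∈ v, q.2 = n → q.1 = s) :
    (v.map (fun q => sg q.1 ((fun m => if m = n then sg s c else 1) q.2))).prod =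
      c ^ v.count (s, n) := by
  induction v with
  | nil => simp
  | cons q v ih =>
    rw [List.map_cons, List.prod_cons, ih (fun q hq => h q (List.mem_cons_of_mem _ hq))]
    obtain ⟨t, m⟩ := q
    by_cases hm : m = n
    · have ht : t = s := h (t, m) (by simp) hm
      subst hm; subst ht
      simp only [if_true]
      rw [sg_sg_self, List.count_cons_self, pow_succ']
    · have e2 : sg t (1 : A) = 1 := by cases t <;> simp [sg]
      simp only [if_neg hm]
      rw [e2, one_mul, List.count_cons_of_ne]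
      intro h
      exact hm (congrArg Prod.snd h)

theorem sameSign_mem {v : List (Bool × ℕ)} (hq : Quad v) {s : Bool} {n : ℕ}
    (h : v.count (s, n) = 2) : ∀ q ∈ v, q.2 = n → q.1 = s := by
  rintro ⟨t, m⟩ hm hmn
  simp only at hmn
  subst hmn
  by_contra hts
  have hts' : ¬ t = s := hts
  have h1 : v.count (s, m) + v.count (t, m) ≤ v.countP (fun q => q.2 = m) := by
    clear hm h hq
    induction v with
    | nil => simp
    | cons q v ih =>
      rw [List.countP_cons, List.count_cons, List.count_cons]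
      obtain ⟨u, k⟩ := q
      by_cases hk : k = m
      · subst hk
        have : (if ((u, k) == (s, k)) = true then 1 else 0) +
            (if ((u, k) == (t, k)) = true then 1 else 0) ≤ 1 := by
          by_cases h1 : u = s
          · subst h1
            have : ¬ ((u, k) == (t, k)) = true := by
              simp only [beq_iff_eq, Prod.mk.injEq, and_true]; exact fun h => hts' h.symm
            rw [if_neg this]; split_ifs <;> omega
          · have : ¬ ((u, k) == (s, k)) = true := by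
              simp only [beq_iff_eq, Prod.mk.injEq, and_true]; exact h1
            rw [if_neg this]; split_ifs <;> omega
        simp only [decide_true, if_true]
        omega
      · have e1 : ¬ ((u, k) == (s, m)) = true := by
          simp only [beq_iff_eq, Prod.mk.injEq, not_and]; exact fun _ => hk
        have e2 : ¬ ((u, k) == (t, m)) = true := by
          simp only [beq_iff_eq, Prod.mk.injEq, not_and]; exact fun _ => hk
        rw [if_neg e1, if_neg e2]
        omega
  have h2 : 0 < v.count (t, m) := List.count_pos_iff.2 hm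
  rcases hq m with h3 | h3 <;> omega

/-- solvability in a commutative group -/
theorem crit (κ : K → A) {w : List (Bool × (K ⊕ ℕ))} (hq : Quad (vars w)) :
    (∃ α, value κ α w = 1) ↔
      ((SameSign (vars w) → ∃ r, value κ (fun _ => 1) w = r * r) ∧
        (¬ SameSign (vars w) → value κ (fun _ => 1) w = 1)) := by
  constructor
  · rintro ⟨α, hα⟩
    rw [value_comm] at hα
    obtain ⟨⟨r, hr⟩, h1⟩ := quad_prod α _ (vars w) le_rfl hq
    constructor
    · intro _
      rw [hr] at hα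
      exact ⟨r⁻¹, by rw [eq_inv_of_mul_eq_one_left hα, mul_inv]⟩
    · intro h
      rwa [h1 h, mul_one] at hα
  · rintro ⟨h1, h2⟩
    by_cases hs : SameSign (vars w)
    · obtain ⟨r, hr⟩ := h1 hs
      obtain ⟨s, n, hsn⟩ := hs
      refine ⟨fun m => if m = n then sg s r⁻¹ else 1, ?_⟩
      rw [value_comm, prod_single s n r⁻¹ _ (sameSign_mem hq hsn), hsn, hr, pow_two]
      rw [← mul_inv, mul_inv_cancel]
    · refine ⟨fun _ => 1, ?_⟩
      exact h2 hs

/-- **criterion for words with a handle** -/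
theorem handle_iff {G : Type} [Group G] {ab : G →* A} (h : Good ab) (κ : K → G)
    {w : List (Bool × (K ⊕ ℕ))} (hq : Quad (vars w)) (hh : Handle (vars w)) :
    (∃ σ : ℕ → G, value κ σ w = 1) ↔
      ((SameSign (vars w) → ∃ r, ab (value κ (fun _ => 1) w) = r * r) ∧
        (¬ SameSign (vars w) → ab (value κ (fun _ => 1) w) = 1)) := by
  have e : ab (value κ (fun _ => 1) w) = value (fun c => ab (κ c)) (fun _ => 1) w := by
    rw [map_value]; simp only [map_one]
  rw [e, ← crit (fun c => ab (κ c)) hq]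
  constructor
  · rintro ⟨σ, hσ⟩
    refine ⟨fun n => ab (σ n), ?_⟩
    rw [← map_value, hσ, map_one]
  · rintro ⟨α, hα⟩
    exact handle_solvable h κ hh α hα

end crit

end Pool.Agent.K9h94.ThF
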