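import Mathlib
import Pool.Agent.K9h94.ThF.Words

set_option autoImplicit false
set_option linter.unusedVariables false

/-!
Computability of the combinatorial conditions.
-/

namespace Pool.Agent.K9h94.ThF

open Primrec

theorem prim_vars : Primrec (vars : List (Bool × (Bool ⊕ ℕ)) → List (Bool × ℕ)) := by
  have h : Primrec (varOf : Bool × (Bool ⊕ ℕ) → Option (Bool × ℕ)) := by
    have : Primrec fun p : Bool × (Bool ⊕ ℕ) =>
        (Sum.casesOn p.2 (fun _ => (none : Option (Bool × ℕ))) (fun n => some (p.1, n)) :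
          Option (Bool × ℕ)) :=
      Primrec.sumCasesOn Primrec.snd (Primrec.const none).to₂
        ((Primrec.option_some.comp ((Primrec.fst.comp Primrec.fst).pair Primrec.snd)).to₂)
    refine this.of_eq ?_
    rintro ⟨s, x | n⟩ <;> rfl
  exact Primrec.listFilterMap Primrec.id (h.comp Primrec.snd).to₂

theorem count_filter {α : Type} [BEq α] [LawfulBEq α] [DecidableEq α] (c : α) (w : List α) :
    w.count c = (w.filter (fun a => a = c)).length := by
  rw [List.count, List.countP_eq_length_filter]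
  have h : w.filter (fun x => x == c) = w.filter (fun a => decide (a = c)) :=
    List.filter_congr fun a _ => Bool.eq_iff_iff.2 (by simp)
  rw [h]

theorem sameSign_iff (v : List (Bool × ℕ)) :
    SameSign v ↔ ∃ q ∈ v, (v.filter (fun a => a = q)).length = 2 := by
  constructor
  · rintro ⟨s, n, h⟩
    refine ⟨(s, n), List.count_pos_iff.1 (by omega), ?_⟩
    rw [← h, count_filter]
  · rintro ⟨⟨s, n⟩, -, h⟩
    refine ⟨s, n, ?_⟩
    rw [← h, count_filter]

theorem prim_sameSign : PrimrecPred (SameSign) := by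
  have h1 : PrimrecRel fun (q : Bool × ℕ) (v : List (Bool × ℕ)) =>
      (v.filter (fun a => a = q)).length = 2 := by
    have h2 : PrimrecRel fun (a q : Bool × ℕ) => a = q := Primrec.eq
    exact Primrec.eq.comp₂ (Primrec.list_length.comp₂ (h2.listFilter.swap)) (Primrec.const 2).to₂
  have h3 := h1.exists_mem_list.comp Primrec.id Primrec.id
  exact h3.of_eq fun v => (sameSign_iff v).symm

/-- number of occurrences of a letter -/
def cnt (c : Bool × (Bool ⊕ ℕ)) (w : List (Bool × (Bool ⊕ ℕ))) : ℕ :=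
  w.countP (fun a => decide (a = c))

theorem prim_count (c : Bool × (Bool ⊕ ℕ)) : Primrec (cnt c) := by
  have h : PrimrecPred fun a : Bool × (Bool ⊕ ℕ) => a = c := Primrec.eq.comp Primrec.id
    (Primrec.const c)
  refine (Primrec.list_length.comp (Primrec.listFilter h)).of_eq fun w => ?_
  unfold cnt
  rw [List.countP_eq_length_filter]

/-- the combinatorial condition on the pattern of two variables -/
def Pat (L : List (Bool × ℕ)) (X Y : ℕ) : Prop :=
  X ≠ Y ∧ ((L.map Prod.snd = [X, Y, X, Y] ∧ ¬ (L.map Prod.fst = [true, true, true, true] ∨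
      L.map Prod.fst = [true, false, true, false] ∨ L.map Prod.fst = [false, true, false, true] ∨
      L.map Prod.fst = [false, false, false, false])) ∨
    (L.map Prod.snd = [X, X, Y, Y] ∧ (L.map Prod.fst = [true, true, true, true] ∨
      L.map Prod.fst = [true, true, false, false] ∨ L.map Prod.fst = [false, false, true, true] ∨
      L.map Prod.fst = [false, false, false, false])) ∨
    (L.map Prod.snd = [X, Y, Y, X] ∧ (L.map Prod.fst = [true, true, true, true] ∨
      L.map Prod.fst = [true, false, false, true] ∨ L.map Prod.fst = [false, true, true, false] ∨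
      L.map Prod.fst = [false, false, false, false])))

theorem zip_four {L : List (Bool × ℕ)} {a b c d : Bool} {x y z w : ℕ}
    (h1 : L.map Prod.fst = [a, b, c, d]) (h2 : L.map Prod.snd = [x, y, z, w]) :
    L = [(a, x), (b, y), (c, z), (d, w)] := by
  rcases L with _ | ⟨⟨a1, b1⟩, _ | ⟨⟨a2, b2⟩, _ | ⟨⟨a3, b3⟩, _ | ⟨⟨a4, b4⟩, _ | ⟨e, L⟩⟩⟩⟩⟩ <;>
    simp_all

theorem handle_iff_pat (v : List (Bool × ℕ)) :
    Handle v ↔ ∃ q ∈ v, ∃ q' ∈ v, Pat (restr v q.2 q'.2) q.2 q'.2 := by
  constructor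
  · rintro ⟨X, Y, hXY, a, b, c, d, h⟩
    have key : ∀ L : List (Bool × ℕ), restr v X Y = L → (∃ s, (s, X) ∈ L) → (∃ s, (s, Y) ∈ L) →
        Pat L X Y → ∃ q ∈ v, ∃ q' ∈ v, Pat (restr v q.2 q'.2) q.2 q'.2 := by
      rintro L hL ⟨s, hs⟩ ⟨t, ht⟩ hp
      refine ⟨(s, X), ?_, (t, Y), ?_, ?_⟩
      · rw [← hL] at hs; exact List.mem_of_mem_filter hs
      · rw [← hL] at ht; exact List.mem_of_mem_filter ht
      · simp only; rw [hL]; exact hp
    rcases h with ⟨h, hne⟩ | h | h
    · refine key _ h ⟨a, by simp⟩ ⟨b, by simp⟩ ⟨hXY, Or.inl ⟨by simp, ?_⟩⟩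
      cases a <;> cases b <;> cases c <;> cases d <;> simp_all
    · refine key _ h ⟨a, by simp⟩ ⟨b, by simp⟩ ⟨hXY, Or.inr (Or.inl ⟨by simp, ?_⟩)⟩
      cases a <;> cases b <;> simp
    · refine key _ h ⟨a, by simp⟩ ⟨b, by simp⟩ ⟨hXY, Or.inr (Or.inr ⟨by simp, ?_⟩)⟩
      cases a <;> cases b <;> simp
  · rintro ⟨⟨s, X⟩, -, ⟨t, Y⟩, -, hXY, h⟩
    simp only at hXY h
    refine ⟨X, Y, hXY, ?_⟩
    rcases h with ⟨h, hne⟩ | ⟨h, h1⟩ | ⟨h, h1⟩
    · generalize hL : restr v X Y = L at *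
      rcases L with _ | ⟨⟨a1, b1⟩, _ | ⟨⟨a2, b2⟩, _ | ⟨⟨a3, b3⟩, _ | ⟨⟨a4, b4⟩, _ | ⟨e, L⟩⟩⟩⟩⟩ <;>
        simp at h
      obtain ⟨rfl, rfl, h3, h4⟩ := h
      refine ⟨a1, a2, a3, a4, Or.inl ⟨by rw [h3, h4], ?_⟩⟩
      cases a1 <;> cases a2 <;> cases a3 <;> cases a4 <;> simp_all
    · rcases h1 with h1 | h1 | h1 | h1 <;> have h2 := zip_four h1 h
      · exact ⟨true, true, true, true, Or.inr (Or.inl h2)⟩
      · exact ⟨true, false, true, true, Or.inr (Or.inl h2)⟩
      · exact ⟨false, true, true, true, Or.inr (Or.inl h2)⟩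
      · exact ⟨false, false, true, true, Or.inr (Or.inl h2)⟩
    · rcases h1 with h1 | h1 | h1 | h1 <;> have h2 := zip_four h1 h
      · exact ⟨true, true, true, true, Or.inr (Or.inr h2)⟩
      · exact ⟨true, false, true, true, Or.inr (Or.inr h2)⟩
      · exact ⟨false, true, true, true, Or.inr (Or.inr h2)⟩
      · exact ⟨false, false, true, true, Or.inr (Or.inr h2)⟩

theorem prim_restr : Primrec₂ fun (v : List (Bool × ℕ)) (b : ℕ × ℕ) => restr v b.1 b.2 := by
  have h : PrimrecRel fun (a : Bool × ℕ) (b : ℕ × ℕ) => a.2 = b.1 ∨ a.2 = b.2 :=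
    PrimrecPred.or (Primrec.eq.comp (Primrec.snd.comp Primrec.fst) (Primrec.fst.comp Primrec.snd))
      (Primrec.eq.comp (Primrec.snd.comp Primrec.fst) (Primrec.snd.comp Primrec.snd))
  exact h.listFilter

theorem prim_pat : PrimrecPred fun x : List (Bool × ℕ) × (ℕ × ℕ) => Pat x.1 x.2.1 x.2.2 := by
  have hX : Primrec fun x : List (Bool × ℕ) × (ℕ × ℕ) => x.2.1 := Primrec.fst.comp Primrec.snd
  have hY : Primrec fun x : List (Bool × ℕ) × (ℕ × ℕ) => x.2.2 := Primrec.snd.comp Primrec.snd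
  have hs : Primrec fun x : List (Bool × ℕ) × (ℕ × ℕ) => x.1.map Prod.snd :=
    Primrec.list_map Primrec.fst (Primrec.snd.comp Primrec.snd).to₂
  have hf : Primrec fun x : List (Bool × ℕ) × (ℕ × ℕ) => x.1.map Prod.fst :=
    Primrec.list_map Primrec.fst (Primrec.fst.comp Primrec.snd).to₂
  have hc : ∀ l : List Bool, PrimrecPred fun x : List (Bool × ℕ) × (ℕ × ℕ) =>
      x.1.map Prod.fst = l := fun l => Primrec.eq.comp hf (Primrec.const l)
  have hl : ∀ {f g h k : List (Bool × ℕ) × (ℕ × ℕ) → ℕ}, Primrec f → Primrec g → Primrec h →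
      Primrec k → PrimrecPred fun x : List (Bool × ℕ) × (ℕ × ℕ) =>
        x.1.map Prod.snd = [f x, g x, h x, k x] := by
    intro f g h k h1 h2 h3 h4
    exact Primrec.eq.comp hs (Primrec.list_cons.comp h1 (Primrec.list_cons.comp h2
      (Primrec.list_cons.comp h3 (Primrec.list_cons.comp h4 (Primrec.const [])))))
  refine PrimrecPred.and (PrimrecPred.not (Primrec.eq.comp hX hY)) (PrimrecPred.or
    (PrimrecPred.and (hl hX hY hX hY) (PrimrecPred.not ?_))
    (PrimrecPred.or (PrimrecPred.and (hl hX hX hY hY) ?_)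
      (PrimrecPred.and (hl hX hY hY hX) ?_)))
  · exact (hc _).or ((hc _).or ((hc _).or (hc _)))
  · exact (hc _).or ((hc _).or ((hc _).or (hc _)))
  · exact (hc _).or ((hc _).or ((hc _).or (hc _)))

theorem prim_handle : PrimrecPred Handle := by
  have h1 : PrimrecRel fun (q' : Bool × ℕ) (b : (Bool × ℕ) × List (Bool × ℕ)) =>
      Pat (restr b.2 b.1.2 q'.2) b.1.2 q'.2 := by
    have hq' : Primrec fun x : (Bool × ℕ) × ((Bool × ℕ) × List (Bool × ℕ)) => x.1.2 :=
      Primrec.snd.comp Primrec.fst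
    have hq : Primrec fun x : (Bool × ℕ) × ((Bool × ℕ) × List (Bool × ℕ)) => x.2.1.2 :=
      Primrec.snd.comp (Primrec.fst.comp Primrec.snd)
    have hv : Primrec fun x : (Bool × ℕ) × ((Bool × ℕ) × List (Bool × ℕ)) => x.2.2 :=
      Primrec.snd.comp Primrec.snd
    exact prim_pat.comp ((prim_restr.comp hv (hq.pair hq')).pair (hq.pair hq'))
  have h2 : PrimrecRel fun (q : Bool × ℕ) (v : List (Bool × ℕ)) =>
      ∃ q' ∈ v, Pat (restr v q.2 q'.2) q.2 q'.2 :=
    h1.exists_mem_list.comp₂ (f := fun (q : Bool × ℕ) (v : List (Bool × ℕ)) => v)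
      (g := fun q v => (q, v)) Primrec₂.right (Primrec₂.pair)
  have h3 := h2.exists_mem_list.comp Primrec.id Primrec.id
  exact h3.of_eq fun v => (handle_iff_pat v).symm

/-- the decision predicate -/
def Dec (w : List (Bool × (Bool ⊕ ℕ))) : Prop :=
  (SameSign (vars w) ∧
    (cnt (true, Sum.inl false) w + cnt (false, Sum.inl false) w) % 2 = 0 ∧
    (cnt (true, Sum.inl true) w + cnt (false, Sum.inl true) w) % 2 = 0) ∨
  (¬ SameSign (vars w) ∧ cnt (true, Sum.inl false) w = cnt (false, Sum.inl false) w ∧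
    cnt (true, Sum.inl true) w = cnt (false, Sum.inl true) w)

theorem prim_dec : PrimrecPred Dec := by
  have hs : PrimrecPred fun w : List (Bool × (Bool ⊕ ℕ)) => SameSign (vars w) :=
    prim_sameSign.comp prim_vars
  have hm : ∀ a b : Bool × (Bool ⊕ ℕ), PrimrecPred fun w : List (Bool × (Bool ⊕ ℕ)) =>
      (cnt a w + cnt b w) % 2 = 0 := fun a b =>
    Primrec.eq.comp (Primrec.nat_mod.comp (Primrec.nat_add.comp (prim_count a) (prim_count b))
      (Primrec.const 2)) (Primrec.const 0)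
  have he : ∀ a b : Bool × (Bool ⊕ ℕ), PrimrecPred fun w : List (Bool × (Bool ⊕ ℕ)) =>
      cnt a w = cnt b w := fun a b => Primrec.eq.comp (prim_count a) (prim_count b)
  exact PrimrecPred.or (hs.and ((hm _ _).and (hm _ _))) (hs.not.and ((he _ _).and (he _ _)))

end Pool.Agent.K9h94.ThF
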