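import Mathlib
import Pool.Agent.Helper283.ThV.PLF

set_option autoImplicit false
set_option linter.unusedVariables false
set_option linter.deprecated false

/-!
Generalises the core of the commutator theorem of `Pool.Agent.Helper283.ThV.PLF`.
-/

namespace Pool.Agent.K9h94.ThF

open Pool.Agent.Helper283.PL

theorem zpow_succ_apply (a : Equiv.Perm ℝ) (n : ℤ) (x : ℝ) : (a ^ (n + 1)) x = a ((a ^ n) x) := by
  rw [← mul_self_zpow, Equiv.Perm.mul_apply]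

theorem zpow_succ_apply' (a : Equiv.Perm ℝ) (n : ℤ) (x : ℝ) : (a ^ (n + 1)) x = (a ^ n) (a x) := by
  rw [← mul_zpow_self, Equiv.Perm.mul_apply]

theorem zpow_neg_cancel (a : Equiv.Perm ℝ) (n : ℤ) (x : ℝ) : (a ^ (-n)) ((a ^ n) x) = x := by
  rw [← Equiv.Perm.mul_apply, ← zpow_add, neg_add_cancel, zpow_zero, Equiv.Perm.one_apply]

theorem zpow_neg_cancel' (a : Equiv.Perm ℝ) (n : ℤ) (x : ℝ) : (a ^ n) ((a ^ (-n)) x) = x := by
  rw [← Equiv.Perm.mul_apply, ← zpow_add, add_neg_cancel, zpow_zero, Equiv.Perm.one_apply]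

/-- every fixed point free upward element is conjugate (in `PLH`) to the translation by one -/
theorem exists_W_gen {a : Equiv.Perm ℝ} (ha : a ∈ PLH) (h3 : ∀ y, y < a y) :
    ∃ W ∈ PLH, ∀ x, W (a x) = W x + 1 := by
  have ha0 : Dy (a 0) := (ha.2 0).dy.2 Dy.zero
  obtain ⟨P, hP, hP0, hP1⟩ := PLH_interp Dy.zero ha0 Dy.zero Dy.one (h3 0) (zero_lt_one' ℝ)
  have hstep : StrictMono (fun n : ℤ => (a ^ n) 0) :=
    strictMono_int_of_lt_succ fun n => by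
      show (a ^ n) 0 < (a ^ (n + 1)) 0
      rw [zpow_succ_apply]; exact h3 _
  have hz : ∀ n : ℤ, a ^ n ∈ PLH := fun n => PLH.zpow_mem ha n
  have hlow : ∀ x, ∃ n : ℤ, (a ^ n) 0 ≤ x := by
    intro x
    obtain ⟨k, hk⟩ := reach_down_10065 ha h3 x 0
    refine ⟨-(k : ℤ), ?_⟩
    rw [zpow_neg, zpow_natCast, ← inv_pow]; exact hk
  have hhigh : ∀ x, ∃ n : ℤ, x < (a ^ n) 0 := by
    intro x
    obtain ⟨k, hk⟩ := reach_up_10065 ha h3 x 0
    refine ⟨(k : ℤ) + 1, ?_⟩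
    rw [zpow_succ_apply, zpow_natCast]
    exact hk.trans_lt (h3 _)
  have hN : ∀ x, ∃ n : ℤ, (a ^ n) 0 ≤ x ∧ x < (a ^ (n + 1)) 0 := by
    intro x
    obtain ⟨b, hb⟩ := hhigh x
    obtain ⟨n, hn, hn2⟩ := Int.exists_greatest_of_bdd (P := fun n : ℤ => (a ^ n) 0 ≤ x)
      ⟨b, fun z hz1 => (hstep.lt_iff_lt.1 (lt_of_le_of_lt hz1 hb)).le⟩ (hlow x)
    refine ⟨n, hn, ?_⟩
    by_contra hc
    have := hn2 (n + 1) (not_lt.1 hc)
    omega
  choose N hN1 hN2 using hN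
  have hNu : ∀ x (n : ℤ), (a ^ n) 0 ≤ x → x < (a ^ (n + 1)) 0 → N x = n := by
    intro x n h1 h2
    have h4 := hstep.lt_iff_lt.1 (lt_of_le_of_lt (hN1 x) h2)
    have h5 := hstep.lt_iff_lt.1 (lt_of_le_of_lt h1 (hN2 x))
    omega
  have hinv : ∀ (n : ℤ) x, (a ^ n) 0 ≤ x → 0 ≤ (a ^ (-n)) x := by
    intro n x h
    have := (hz (-n)).1.monotone h
    rwa [zpow_neg_cancel] at this
  have hinv2 : ∀ (n : ℤ) x, x < (a ^ (n + 1)) 0 → (a ^ (-n)) x < a 0 := by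
    intro n x h
    have := (hz (-n)).1 h
    rwa [zpow_succ_apply', zpow_neg_cancel] at this
  have hval : ∀ x (n : ℤ), (a ^ n) 0 ≤ x → x ≤ (a ^ (n + 1)) 0 →
      P ((a ^ (-N x)) x) + N x = P ((a ^ (-n)) x) + n := by
    intro x n h1 h2
    rcases h2.lt_or_eq with h | h
    · rw [hNu x n h1 h]
    · have h5 : N x = n + 1 := by
        apply hNu x (n + 1) h.ge
        rw [h]
        exact hstep (by omega)
      rw [h5, h, zpow_neg_cancel, hP0]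
      conv_rhs => rw [zpow_succ_apply', zpow_neg_cancel, hP1]
      push_cast; ring
  have hrange : ∀ x, 0 ≤ P ((a ^ (-N x)) x) ∧ P ((a ^ (-N x)) x) < 1 := by
    intro x
    constructor
    · rw [← hP0]; exact hP.1.monotone (hinv _ _ (hN1 x))
    · rw [← hP1]; exact hP.1 (hinv2 _ _ (hN2 x))
  have hmono : StrictMono (fun x => P ((a ^ (-N x)) x) + (N x : ℝ)) := by
    intro x y hxy
    have hle : N x ≤ N y := by
      have h4 := hstep.lt_iff_lt.1 (lt_of_le_of_lt (hN1 x) (hxy.trans (hN2 y)))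
      omega
    show P ((a ^ (-N x)) x) + (N x : ℝ) < P ((a ^ (-N y)) y) + (N y : ℝ)
    rcases hle.lt_or_eq with h | h
    · have h6 : (N x : ℝ) + 1 ≤ N y := by exact_mod_cast h
      linarith [(hrange x).2, (hrange y).1]
    · rw [h]
      have := hP.1 ((hz (-N y)).1 hxy)
      linarith
  have hsurj : Function.Surjective (fun x => P ((a ^ (-N x)) x) + (N x : ℝ)) := by
    intro y
    have h1 : (0 : ℝ) ≤ P⁻¹ (y - ⌊y⌋) := by
      apply hP.1.le_iff_le.1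
      rw [inv_right, hP0]; linarith [Int.floor_le y]
    have h2 : P⁻¹ (y - ⌊y⌋) < a 0 := by
      apply hP.1.lt_iff_lt.1
      rw [inv_right, hP1]; linarith [Int.lt_floor_add_one y]
    refine ⟨(a ^ ⌊y⌋) (P⁻¹ (y - ⌊y⌋)), ?_⟩
    have h3' : N ((a ^ ⌊y⌋) (P⁻¹ (y - ⌊y⌋))) = ⌊y⌋ := by
      apply hNu
      · exact (hz _).1.monotone h1
      · rw [zpow_succ_apply']; exact (hz _).1 h2
    show P ((a ^ (-N ((a ^ ⌊y⌋) (P⁻¹ (y - ⌊y⌋))))) ((a ^ ⌊y⌋) (P⁻¹ (y - ⌊y⌋)))) +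
      (N ((a ^ ⌊y⌋) (P⁻¹ (y - ⌊y⌋))) : ℝ) = y
    rw [h3', zpow_neg_cancel, inv_right]; ring
  let W : Equiv.Perm ℝ := Equiv.ofBijective _ ⟨hmono.injective, hsurj⟩
  have hW : ∀ x (n : ℤ), (a ^ n) 0 ≤ x → x ≤ (a ^ (n + 1)) 0 → W x = P ((a ^ (-n)) x) + n := hval
  have hpiece : ∀ n : ℤ, tr (n : ℝ) * P * a ^ (-n) ∈ PLH := fun n =>
    PLH.mul_mem (PLH.mul_mem (tr_mem (Dy.int n)) hP) (hz _)
  have hpapp : ∀ (n : ℤ) x, (tr (n : ℝ) * P * a ^ (-n)) x = P ((a ^ (-n)) x) + n := fun n x => rfl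
  refine ⟨W, ⟨hmono, fun x => ?_⟩, fun x => ?_⟩
  · rcases (hN1 x).lt_or_eq with h | h
    · set n := N x with hn
      obtain ⟨δ, hδ, hd1, hd2⟩ : ∃ δ > 0, (a ^ n) 0 ≤ x - δ ∧ x + δ ≤ (a ^ (n + 1)) 0 := by
        refine ⟨min (x - (a ^ n) 0) ((a ^ (n + 1)) 0 - x), lt_min (by linarith)
          (by linarith [hN2 x]), ?_, ?_⟩
        · linarith [min_le_left (x - (a ^ n) 0) ((a ^ (n + 1)) 0 - x)]
        · linarith [min_le_right (x - (a ^ n) 0) ((a ^ (n + 1)) 0 - x)]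
      refine PLat_congr_10065 hδ (fun y h1 h2 => ?_) ((hpiece n).2 x)
      rw [hW y n (by linarith) (by linarith), hpapp]
    · have hxd : Dy x := by rw [← h]; exact ((hz _).2 0).dy.2 Dy.zero
      set n := N x with hn
      obtain ⟨⟨k, c, hR⟩, -, -⟩ := (hpiece n).2 x
      obtain ⟨-, ⟨k', c', hL⟩, -⟩ := (hpiece (n - 1)).2 x
      have e1 : x < (a ^ (n + 1)) 0 := hN2 x
      have e2 : (a ^ (n - 1)) 0 < x := by rw [← h]; exact hstep (by omega)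
      refine ⟨⟨k, c, ?_⟩, ⟨k', c', ?_⟩, fun hD => absurd hxd hD⟩
      · refine RG_congr10071 hR (η := (a ^ (n + 1)) 0 - x) (by linarith) fun y h1 h2 => ?_
        rw [hW y n (by linarith) (by linarith), hpapp]
      · refine LG_congr10071 hL (η := x - (a ^ (n - 1)) 0) (by linarith) fun y h1 h2 => ?_
        rw [hW y (n - 1) (by linarith) (by rw [sub_add_cancel]; linarith), hpapp]
  · have e1 : (a ^ (N x + 1)) 0 ≤ a x := by
      rw [zpow_succ_apply]; exact ha.1.monotone (hN1 x)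
    have e2 : a x ≤ (a ^ (N x + 1 + 1)) 0 := by
      rw [zpow_succ_apply]; exact ha.1.monotone (hN2 x).le
    rw [hW (a x) (N x + 1) e1 e2, hW x (N x) (hN1 x) (hN2 x).le]
    have e3 : (a ^ (-(N x + 1))) (a x) = (a ^ (-N x)) x := by
      have h5 : (a ^ (-(N x + 1) + 1)) x = (a ^ (-(N x + 1))) (a x) := zpow_succ_apply' a _ x
      rw [← h5]; congr 2; ring
    rw [e3]; push_cast; ring

theorem W_zpow {a W : Equiv.Perm ℝ} (h : ∀ x, W (a x) = W x + 1) (n : ℤ) (x : ℝ) :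
    W ((a ^ n) x) = W x + n := by
  induction n using Int.induction_on with
  | zero => simp
  | succ k ih => rw [zpow_succ_apply, h, ih]; push_cast; ring
  | pred k ih =>
    have h1 : a ((a ^ (-(k : ℤ) - 1)) x) = (a ^ (-(k : ℤ))) x := by
      rw [← zpow_succ_apply, sub_add_cancel]
    have h2 := h ((a ^ (-(k : ℤ) - 1)) x)
    rw [h1, ih] at h2
    push_cast
    push_cast at h2
    linarith

theorem W_inv {a W : Equiv.Perm ℝ} (h : ∀ x, W (a x) = W x + 1) (n : ℤ) (x : ℝ) :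
    W⁻¹ (W x + n) = (a ^ n) x := by
  rw [← W_zpow h, inv_left]

/-- conjugating back by `W` keeps the line model of `F` -/
theorem W_conj_mem {a W C : Equiv.Perm ℝ} (ha : a ∈ FZ) (hW : W ∈ PLH)
    (h : ∀ x, W (a x) = W x + 1) (hC : C ∈ FZ) : W⁻¹ * C * W ∈ FZ := by
  have hmono : StrictMono W := hW.1
  obtain ⟨hCP, ⟨i, M, hi⟩, ⟨j, M', hj⟩⟩ := hC
  obtain ⟨-, ⟨i', K, hi'⟩, -⟩ := FZ.zpow_mem ha i
  obtain ⟨-, -, ⟨j', K', hj'⟩⟩ := FZ.zpow_mem ha j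
  refine ⟨PLH.mul_mem (PLH.mul_mem (PLH.inv_mem hW) hCP) hW, ⟨i', min (W⁻¹ M) K, fun x hx => ?_⟩,
    ⟨j', max (W⁻¹ M') K', fun x hx => ?_⟩⟩
  · have h1 : W x ≤ M := by
      have := hmono.monotone (hx.trans (min_le_left _ _))
      rwa [inv_right] at this
    rw [Equiv.Perm.mul_apply, Equiv.Perm.mul_apply, hi _ h1, W_inv h,
      hi' x (hx.trans (min_le_right _ _))]
  · have h1 : M' ≤ W x := by
      have := hmono.monotone ((le_max_left _ _).trans hx)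
      rwa [inv_right] at this
    rw [Equiv.Perm.mul_apply, Equiv.Perm.mul_apply, hj _ h1, W_inv h,
      hj' x ((le_max_right _ _).trans hx)]

/-- the conjugate of an upward element with the same germs is a one-bump element -/
theorem W_conj_OB {a W f : Equiv.Perm ℝ} (hW : W ∈ PLH) (h : ∀ x, W (a x) = W x + 1)
    (hf : f ∈ PLH) (fup : ∀ x, x < f x) {L : ℝ} (h1 : ∀ x, x ≤ -L → f x = a x)
    (h2 : ∀ x, L ≤ x → f x = a x) : ∃ L', OB (W * f * W⁻¹) L' := by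
  have hmono : StrictMono W := hW.1
  have hmi : StrictMono (W⁻¹ : Equiv.Perm ℝ) := (PLH.inv_mem hW).1
  refine ⟨max (-W (-L)) (W L), PLH.mul_mem (PLH.mul_mem hW hf) (PLH.inv_mem hW), fun x hx => ?_,
    fun x hx => ?_, fun x => ?_⟩
  · have h3 : W⁻¹ x ≤ -L := by
      have : x ≤ W (-L) := by linarith [le_max_left (-W (-L)) (W L)]
      have := hmi.monotone this
      rwa [inv_left] at this
    rw [Equiv.Perm.mul_apply, Equiv.Perm.mul_apply, h1 _ h3, h, inv_right]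
  · have h3 : L ≤ W⁻¹ x := by
      have : W L ≤ x := (le_max_right _ _).trans hx
      have := hmi.monotone this
      rwa [inv_left] at this
    rw [Equiv.Perm.mul_apply, Equiv.Perm.mul_apply, h2 _ h3, h, inv_right]
  · rw [Equiv.Perm.mul_apply, Equiv.Perm.mul_apply]
    have := hmono (fup (W⁻¹ x))
    rwa [inv_right] at this

/-- the core: on a long stretch where `b` is the translation by two -/
theorem core' {b f2 : Equiv.Perm ℝ} {x0 L : ℝ} (hbP : b ∈ PLH) (hx0 : Dy x0)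
    (hb2 : ∀ y, x0 ≤ y → y ≤ x0 + 25 → b y = y + 2) (hOB : OB f2 L) :
    ∃ C1 ∈ FZ, ∃ C2 ∈ FZ, (tr 1)⁻¹ * b = (C1 * f2 * C1⁻¹)⁻¹ * (C2 * b * C2⁻¹) := by
  obtain ⟨M, hM⟩ := exists_scat hOB
  obtain ⟨m, M1, M2, t1, t2, hM1, hM2, ht1, ht2, hi1, hi2, hm⟩ := exists_fact hM.1
  obtain ⟨s1, hs1, hj1, h1a, h1b⟩ := norm_s_j10084 hM1 ht1 hi1 x0
  obtain ⟨s2, hs2, hj2, h2a, h2b⟩ := norm_s_j10084 hM2 ht2 hi2 (x0 + 11)
  obtain ⟨u1, c1, d1, v1, hu1, hc1, hd1, hv1, hca, hda, hMv1⟩ := family_j10084 hM1 hs1 hj1 hbP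
    (fun y h1 h2 => hb2 y (by linarith) (by linarith))
  obtain ⟨u2, c2, d2, v2, hu2, hc2, hd2, hv2, hcb, hdb, hMv2⟩ := family_j10084 hM2 hs2 hj2 hbP
    (fun y h1 h2 => hb2 y (by linarith) (by linarith))
  have hle : s1 + 10 ≤ s2 + 1 := by linarith
  have k1 : c1 * u2 = u2 * c1 := Sup.comm hle hc1 hu2
  have k2 : d1 * u2 = u2 * d1 := Sup.comm hle hd1 hu2
  have k3 : v1 * u2 = u2 * v1 := Sup.comm hle hv1 hu2
  have k4 : v1 * c2 = c2 * v1 := Sup.comm hle hv1 hc2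
  have k5 : v1 * v2 = v2 * v1 := Sup.comm (by linarith : s1 + 10 ≤ s2 + 9) hv1 hv2
  obtain ⟨τ, hτ⟩ : ∃ τ, τ = tr 1 := ⟨_, rfl⟩
  have hscat : Scat (v2 * v1 * tr 1) (M2 * M1) := by
    have e1 : s1 + 10 = s1 + 9 + 1 := by ring
    have e2 : s2 + 10 = s2 + 9 + 1 := by ring
    rw [e1] at hv1
    rw [e2] at hv2
    have d9 : Dy 9 := by
      have := Dy.nat 9
      norm_num at this
      exact this
    refine scat_mul (hs1.add d9) (hs2.add d9) (by linarith) hv1 hv2 hM1 hM2 ?_ ?_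
    · intro x h1 h2
      exact hMv1 x h1 (by linarith)
    · intro x h1 h2
      exact hMv2 x h1 (by linarith)
  obtain ⟨e, he, hconj⟩ := scat_conj hscat hM m (fun x => hm x)
  rw [← hτ] at hca hcb hconj
  have hc1' := Sup_FZ_j10084 hc1
  have hc2' := Sup_FZ_j10084 hc2
  have hd1' := Sup_FZ_j10084 hd1
  have hd2' := Sup_FZ_j10084 hd2
  have A1 : (c2 * c1) * (u2 * u1 * τ) * (c2 * c1)⁻¹ = v2 * v1 * τ := by
    have q1 : c1 * (u2 * u1 * τ) * c1⁻¹ = v1 * (u2 * τ) := by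
      calc c1 * (u2 * u1 * τ) * c1⁻¹ = (c1 * u2) * u1 * τ * c1⁻¹ := by group
        _ = u2 * (c1 * (u1 * τ) * c1⁻¹) := by rw [k1]; group
        _ = u2 * v1 * τ := by rw [hca]; group
        _ = v1 * (u2 * τ) := by rw [← k3]; group
    calc (c2 * c1) * (u2 * u1 * τ) * (c2 * c1)⁻¹ = c2 * (c1 * (u2 * u1 * τ) * c1⁻¹) * c2⁻¹ := by group
      _ = (c2 * v1) * (u2 * τ) * c2⁻¹ := by rw [q1]; group
      _ = v1 * (c2 * (u2 * τ) * c2⁻¹) := by rw [← k4]; group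
      _ = v1 * v2 * τ := by rw [hcb]; group
      _ = v2 * v1 * τ := by rw [k5]
  have A2 : (d2 * d1) * (u2 * u1 * b) * (d2 * d1)⁻¹ = b := by
    have q1 : d1 * (u2 * u1 * b) * d1⁻¹ = u2 * b := by
      calc d1 * (u2 * u1 * b) * d1⁻¹ = (d1 * u2) * u1 * b * d1⁻¹ := by group
        _ = u2 * (d1 * (u1 * b) * d1⁻¹) := by rw [k2]; group
        _ = u2 * b := by rw [hda]
    calc (d2 * d1) * (u2 * u1 * b) * (d2 * d1)⁻¹ = d2 * (d1 * (u2 * u1 * b) * d1⁻¹) * d2⁻¹ := by group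
      _ = d2 * (u2 * b) * d2⁻¹ := by rw [q1]
      _ = b := hdb
  refine ⟨(c2 * c1)⁻¹ * e⁻¹, FZ.mul_mem (FZ.inv_mem (FZ.mul_mem hc2' hc1')) (FZ.inv_mem he),
    (d2 * d1)⁻¹, FZ.inv_mem (FZ.mul_mem hd2' hd1'), ?_⟩
  have B1 : (c2 * c1)⁻¹ * e⁻¹ * f2 * ((c2 * c1)⁻¹ * e⁻¹)⁻¹ = u2 * u1 * τ := by
    rw [← hconj, ← A1]; group
  have B2 : (d2 * d1)⁻¹ * b * ((d2 * d1)⁻¹)⁻¹ = u2 * u1 * b := by
    calc (d2 * d1)⁻¹ * b * ((d2 * d1)⁻¹)⁻¹
        = (d2 * d1)⁻¹ * ((d2 * d1) * (u2 * u1 * b) * (d2 * d1)⁻¹) * ((d2 * d1)⁻¹)⁻¹ := by rw [A2]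
      _ = u2 * u1 * b := by group
  rw [B1, B2, ← hτ]
  group

end Pool.Agent.K9h94.ThF
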