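import Mathlib
import Pool.Agent.K9h94.ThF.Core

set_option autoImplicit false
set_option linter.unusedVariables false
set_option linter.deprecated false

namespace Pool.Agent.K9h94.ThF

open Pool.Agent.Helper283.PL

theorem pow_succ_app (f : Equiv.Perm ℝ) (n : ℕ) (x : ℝ) : (f ^ (n + 1)) x = f ((f ^ n) x) := by
  rw [pow_succ', Equiv.Perm.mul_apply]

/-- an upward element which agrees with `g` on a long stretch -/
theorem exists_ghat {g : Equiv.Perm ℝ} (hg : g ∈ PLH) {x0 : ℝ} (hx0 : Dy x0) (gx0 : x0 < g x0)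
    (M : ℕ) : ∃ e ∈ PLH, (∀ y, y < e y) ∧ ∀ y, x0 ≤ y → y ≤ (g ^ M) x0 → e y = g y := by
  have hmono : StrictMono g := hg.1
  have hxM : Dy ((g ^ M) x0) := ((PLH.pow_mem hg M).2 x0).dy.2 hx0
  have h1 : x0 ≤ (g ^ M) x0 := ge_10051 hmono gx0 M
  have h2 : ∀ z, x0 ≤ z → z ≤ (g ^ M) x0 → z < g z := up_10051 hmono gx0 M
  obtain ⟨e1, he1, e1a, e1b⟩ := PLH_glue (f := tr (g x0 - x0)) (g := g)
    (tr_mem (((hg.2 x0).dy.2 hx0).sub hx0)) hg hx0 (by rw [tr_apply]; ring)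
  obtain ⟨e, he, ea, eb⟩ := PLH_glue (f := e1) (g := tr (g ((g ^ M) x0) - (g ^ M) x0)) he1
    (tr_mem (((hg.2 _).dy.2 hxM).sub hxM)) hxM (by rw [e1b _ h1, tr_apply]; ring)
  refine ⟨e, he, fun y => ?_, fun y hy1 hy2 => ?_⟩
  · rcases le_total y x0 with h | h
    · rw [ea y (h.trans h1), e1a y h, tr_apply]; linarith
    · rcases le_total y ((g ^ M) x0) with h' | h'
      · rw [ea y h', e1b y h]; exact h2 y h h'
      · rw [eb y h', tr_apply]; linarith [h2 _ h1 le_rfl]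
  · rw [ea y hy2, e1b y hy1]

theorem exists_D {h g : Equiv.Perm ℝ} (hh : h ∈ PLH) (hup : ∀ x, x < h x) (hg : g ∈ PLH)
    {A B i j : ℤ} {L : ℝ} (hA : ∀ x, x ≤ -L → h x = x + A) (hB : ∀ x, L ≤ x → h x = x + B)
    (hi : ∀ x, x ≤ -L → g x = x + i) (hj : ∀ x, L ≤ x → g x = x + j) (hAi : i < A) (hBj : j < B)
    {x0 : ℝ} (hx0 : Dy x0) (gx0 : x0 < g x0) (N : ℕ) :
    ∃ D ∈ FZ, (∀ y, g y < (D * h * D⁻¹) y) ∧
      ∀ y, x0 ≤ y → y ≤ (g ^ N) x0 → (D * h * D⁻¹) y = g (g y) := by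
  have hmono : StrictMono h := hh.1
  have gmono : StrictMono g := hg.1
  have hA1 : (1 : ℝ) ≤ A := by
    have h1 := hup (-L)
    rw [hA _ le_rfl] at h1
    have h2 : (0 : ℝ) < A := by linarith
    exact_mod_cast (by exact_mod_cast h2 : (0 : ℤ) < A)
  have hB1 : (1 : ℝ) ≤ B := by
    have h1 := hup L
    rw [hB _ le_rfl] at h1
    have h2 : (0 : ℝ) < B := by linarith
    exact_mod_cast (by exact_mod_cast h2 : (0 : ℤ) < B)
  have hAi' : (i : ℝ) + 1 ≤ A := by exact_mod_cast hAi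
  have hBj' : (j : ℝ) + 1 ≤ B := by exact_mod_cast hBj
  -- the left point
  obtain ⟨p, hpd, hp1, hp2⟩ := Dy.exists_between (show -L - 1 < -L by linarith)
  obtain ⟨n0, hn0⟩ := reach_up_10065 hh hup L p
  obtain ⟨K, hK⟩ : ∃ K, K = n0 + N := ⟨_, rfl⟩
  obtain ⟨p1, hp1d⟩ : ∃ p1, p1 = (h ^ K) p := ⟨_, rfl⟩
  obtain ⟨p2, hp2d⟩ : ∃ p2, p2 = (h ^ (K + 1)) p := ⟨_, rfl⟩
  have hp12 : h p1 = p2 := by rw [hp1d, hp2d, pow_succ_app]
  have hp1L : L ≤ p1 := by
    rw [hp1d]; exact hn0.trans (pow_le_pow_10065 hup (by omega) p)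
  have hp2L : L < p2 := by rw [← hp12]; exact hp1L.trans_lt (hup _)
  have hpp1 : p ≤ p1 := by rw [hp1d]; exact le_pow_10065 hup K p
  have hpp2 : h p ≤ p2 := by
    rw [← hp12]; exact hmono.monotone hpp1
  have hp2D : Dy p2 := by rw [hp2d]; exact ((PLH.pow_mem hh _).2 p).dy.2 hpd
  -- the upward extension of `g`
  obtain ⟨G, hG, Gup, hGg⟩ := exists_ghat hg hx0 gx0 (2 * K + 4)
  have gstep : ∀ k : ℕ, (g ^ k) x0 < (g ^ (k + 1)) x0 := step_10051 gmono gx0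
  have gmon : StrictMono (fun k : ℕ => (g ^ k) x0) := strictMono_nat_of_lt_succ gstep
  have gge : ∀ k : ℕ, x0 ≤ (g ^ k) x0 := ge_10051 gmono gx0
  have hGpow : ∀ k : ℕ, k ≤ 2 * K + 5 → (G ^ k) x0 = (g ^ k) x0 := by
    intro k
    induction k with
    | zero => intro _; rfl
    | succ k ih =>
      intro hk
      rw [pow_succ_app, pow_succ_app, ih (by omega)]
      exact hGg _ (gge k) (gmon.monotone (by omega : k ≤ 2 * K + 4))
  -- conjugating `h` to `G ^ 2`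
  obtain ⟨W1, hW1, hW1e⟩ := exists_W_gen hh hup
  obtain ⟨W2, hW2, hW2e⟩ := exists_W_gen (a := G * G) (PLH.mul_mem hG hG)
    (fun y => (Gup y).trans (Gup (G y)))
  have hcd : Dy (W2 x0 - W1 p) := ((hW2.2 x0).dy.2 hx0).sub ((hW1.2 p).dy.2 hpd)
  obtain ⟨D0, hD0⟩ : ∃ D0, D0 = W2⁻¹ * tr (W2 x0 - W1 p) * W1 := ⟨_, rfl⟩
  have hD0P : D0 ∈ PLH := by
    rw [hD0]; exact PLH.mul_mem (PLH.mul_mem (PLH.inv_mem hW2) (tr_mem hcd)) hW1
  have hD0x : ∀ z, D0 z = W2⁻¹ (W1 z + (W2 x0 - W1 p)) := by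
    intro z; rw [hD0]; rfl
  have hD0p : D0 p = x0 := by
    rw [hD0x]
    have : W1 p + (W2 x0 - W1 p) = W2 x0 := by ring
    rw [this, inv_left]
  have hD0h : ∀ z, D0 (h z) = G (G (D0 z)) := by
    intro z
    apply W2.injective
    have h1 := hW2e (D0 z)
    rw [Equiv.Perm.mul_apply] at h1
    rw [h1, hD0x, inv_right, hD0x, inv_right, hW1e]; ring
  have hD0pow : ∀ k : ℕ, D0 ((h ^ k) p) = (G ^ (2 * k)) x0 := by
    intro k
    induction k with
    | zero => simpa using hD0p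
    | succ k ih =>
      rw [pow_succ_app, hD0h, ih, show 2 * (k + 1) = 2 * k + 1 + 1 by ring, pow_succ_app,
        pow_succ_app]
  have hD0m : StrictMono D0 := hD0P.1
  have hD0p1 : D0 p1 = (g ^ (2 * K)) x0 := by rw [hp1d, hD0pow, hGpow _ (by omega)]
  have hD0p2 : D0 p2 = (g ^ (2 * K + 2)) x0 := by
    rw [hp2d, hD0pow, hGpow _ (by omega)]; ring_nf
  have hD0p2D : Dy (D0 p2) := (hD0P.2 p2).dy.2 hp2D
  -- the points `q` and `q2`
  have hhmi : StrictMono (h⁻¹ : Equiv.Perm ℝ) := (PLH.inv_mem hh).1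
  have hgmi : StrictMono (g⁻¹ : Equiv.Perm ℝ) := (PLH.inv_mem hg).1
  have hDmi : StrictMono (D0⁻¹ : Equiv.Perm ℝ) := (PLH.inv_mem hD0P).1
  have c1 : h⁻¹ (D0⁻¹ (g x0)) < p := by
    rw [← hmono.lt_iff_lt, inv_right, ← hD0m.lt_iff_lt, inv_right, hD0h, hD0p]
    have e1 : G x0 = g x0 := hGg _ le_rfl (gge _)
    rw [e1]; exact Gup _
  obtain ⟨q, hqd, hq1, hq2⟩ := Dy.exists_between (max_lt c1 (show p - 1 < p by linarith))
  have hq3 : p - 1 < q := (le_max_right _ _).trans_lt hq1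
  have hq4 : g x0 < D0 (h q) := by
    have h1 : h⁻¹ (D0⁻¹ (g x0)) < q := (le_max_left _ _).trans_lt hq1
    rwa [← hmono.lt_iff_lt, inv_right, ← hD0m.lt_iff_lt, inv_right] at h1
  have c2 : p2 < h (D0⁻¹ (g⁻¹ (D0 p2))) := by
    rw [← hp12, hmono.lt_iff_lt, ← hD0m.lt_iff_lt, inv_right, ← gmono.lt_iff_lt, inv_right, hp12,
      hD0p1, hD0p2, ← pow_succ_app]
    exact gmon (by omega : 2 * K + 1 < 2 * K + 2)
  obtain ⟨q2, hq2d, hq21, hq22⟩ := Dy.exists_between (lt_min c2 (show p2 < p2 + 1 by linarith))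
  have hq23 : q2 < p2 + 1 := hq22.trans_le (min_le_right _ _)
  have hq24 : g (D0 (h⁻¹ q2)) < D0 p2 := by
    have h1 : q2 < h (D0⁻¹ (g⁻¹ (D0 p2))) := hq22.trans_le (min_le_left _ _)
    rwa [← hhmi.lt_iff_lt, inv_left, ← hD0m.lt_iff_lt, inv_right, ← gmono.lt_iff_lt,
      inv_right] at h1
  -- the integers
  obtain ⟨m, hm⟩ := exists_int_lt (min (-L - q) (min (x0 - q - i) (x0 - q)))
  have hm1 : q + m ≤ -L := by
    have := hm.trans_le (min_le_left _ _); linarith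
  have hm2 : q + m + i < x0 := by
    have := hm.trans_le ((min_le_right _ _).trans (min_le_left _ _)); linarith
  have hm3 : q + m < x0 := by
    have := hm.trans_le ((min_le_right _ _).trans (min_le_right _ _)); linarith
  obtain ⟨m2, hmm⟩ := exists_int_gt (max (L - q2) (max (D0 p2 - q2) (g (D0 p2) - q2)))
  have hmm1 : L ≤ q2 + m2 := by
    have := (le_max_left _ _).trans_lt hmm; linarith
  have hmm2 : D0 p2 < q2 + m2 := by
    have := ((le_max_left _ _).trans (le_max_right _ _)).trans_lt hmm; linarith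
  have hmm3 : g (D0 p2) < q2 + m2 := by
    have := ((le_max_right _ _).trans (le_max_right _ _)).trans_lt hmm; linarith
  have hpp2' : p < p2 := (hup p).trans_le hpp2
  obtain ⟨P1, hP1, hP1a, hP1b⟩ := PLH_interp hqd hpd (hqd.add (Dy.int m)) hx0 hq2 hm3
  obtain ⟨P2, hP2, hP2a, hP2b⟩ := PLH_interp hp2D hq2d hD0p2D (hq2d.add (Dy.int m2)) hq21 hmm2
  obtain ⟨e1, he1, e1a, e1b⟩ := PLH_glue (tr_mem (Dy.int m)) hP1 hqd (by rw [tr_apply, hP1a])
  obtain ⟨e2, he2, e2a, e2b⟩ := PLH_glue he1 hD0P hpd (by rw [e1b p hq2.le, hP1b, hD0p])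
  obtain ⟨e3, he3, e3a, e3b⟩ := PLH_glue he2 hP2 hp2D (by rw [e2b p2 hpp2'.le, hP2a])
  obtain ⟨D, hD, Da, Db⟩ := PLH_glue he3 (tr_mem (Dy.int m2)) hq2d
    (by rw [e3b q2 hq21.le, hP2b, tr_apply])
  have r1 : ∀ z, z ≤ q → D z = z + m := by
    intro z hz
    rw [Da z (by linarith), e3a z (by linarith), e2a z (by linarith), e1a z hz, tr_apply]
  have r3 : ∀ z, p ≤ z → z ≤ p2 → D z = D0 z := by
    intro z hz hz'
    rw [Da z (by linarith), e3a z (by linarith), e2b z hz]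
  have r5 : ∀ z, q2 ≤ z → D z = z + m2 := by
    intro z hz
    rw [Db z hz, tr_apply]
  have Dm : StrictMono D := hD.1
  have key : ∀ z, g (D z) < D (h z) := by
    intro z
    rcases le_or_gt z q with c1 | c1
    · -- left region
      have hz1 : h z = z + A := hA z (by linarith)
      have hDz : D z = z + m := r1 z c1
      have hgz : g (D z) = z + m + i := by
        rw [hDz]; exact hi _ (by linarith)
      rw [hgz]
      rcases le_or_gt (h z) q with c2 | c2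
      · rw [r1 _ c2, hz1]; linarith
      · rcases le_or_gt (h z) p with c3 | c3
        · have h1 := Dm.monotone c2.le
          rw [r1 q le_rfl] at h1
          rw [hz1] at c3
          linarith
        · have h1 := Dm c3
          rw [r3 p le_rfl hpp2'.le, hD0p] at h1
          linarith
    rcases le_or_gt z p with c2 | c2
    · have h1 : D z ≤ x0 := by
        have := Dm.monotone c2
        rwa [r3 p le_rfl hpp2'.le, hD0p] at this
      have h2 := gmono.monotone h1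
      have hhq : h q = q + A := hA q (by linarith)
      have h3 : D (h q) = D0 (h q) := by
        apply r3
        · rw [hhq]; linarith
        · exact (hmono.monotone hq2.le).trans hpp2
      have h4 := Dm.monotone (hmono.monotone c1.le)
      rw [h3] at h4
      linarith
    rcases le_or_gt (h z) p2 with c3 | c3
    · have hz2 : z ≤ p2 := (hup z).le.trans c3
      rw [r3 z c2.le hz2, r3 (h z) (c2.le.trans (hup z).le) c3, hD0h]
      have hzp1 : z ≤ p1 := by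
        rw [← hmono.le_iff_le, hp12]; exact c3
      have h1 : D0 z ≤ (g ^ (2 * K)) x0 := by rw [← hD0p1]; exact hD0m.monotone hzp1
      have h2 : x0 ≤ D0 z := by rw [← hD0p]; exact hD0m.monotone c2.le
      rw [hGg (D0 z) h2 (h1.trans (gmon.monotone (by omega : 2 * K ≤ 2 * K + 4)))]
      exact Gup _
    rcases le_or_gt (h z) q2 with c4 | c4
    · have hz1 : z ≤ h⁻¹ q2 := by rw [← hmono.le_iff_le, inv_right]; exact c4
      have hz2 : h⁻¹ q2 ≤ p2 := by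
        rw [← hmono.le_iff_le, inv_right, hB p2 hp2L.le]; linarith
      have hz3 : p ≤ h⁻¹ q2 := c2.le.trans hz1
      have h1 : D z ≤ D0 (h⁻¹ q2) := by
        rw [← r3 _ hz3 hz2]; exact Dm.monotone hz1
      have h2 := gmono.monotone h1
      have h3 : D0 p2 < D (h z) := by
        rw [← r3 p2 hpp2'.le le_rfl]; exact Dm c3
      linarith
    rcases le_or_gt z p2 with c5 | c5
    · have h1 : D z ≤ D0 p2 := by
        rw [← r3 p2 hpp2'.le le_rfl]; exact Dm.monotone c5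
      have h2 := gmono.monotone h1
      have h3 := Dm c4
      rw [r5 q2 le_rfl] at h3
      linarith
    have hhz : h z = z + B := hB z (by linarith)
    rcases le_or_gt z q2 with c6 | c6
    · have h1 : D z ≤ q2 + m2 := by
        rw [← r5 q2 le_rfl]; exact Dm.monotone c6
      have h2 := gmono.monotone h1
      rw [hj _ hmm1] at h2
      rw [r5 (h z) c4.le, hhz]
      linarith
    · rw [r5 z c6.le, r5 (h z) c4.le, hhz, hj _ (by linarith)]
      linarith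
  refine ⟨D, ⟨hD, ⟨m, q, r1⟩, ⟨m2, q2, r5⟩⟩, fun y => ?_, fun y hy1 hy2 => ?_⟩
  · have := key (D⁻¹ y)
    rw [inv_right] at this
    exact this
  · show D (h (D⁻¹ y)) = g (g y)
    have h1 : p ≤ D⁻¹ y := by
      rw [← Dm.le_iff_le, inv_right, r3 p le_rfl hpp2'.le, hD0p]; exact hy1
    have h2 : D⁻¹ y ≤ p1 := by
      rw [← Dm.le_iff_le, inv_right, r3 p1 hpp1 (by rw [← hp12]; exact (hup _).le), hD0p1]
      exact hy2.trans (gmon.monotone (by omega : N ≤ 2 * K))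
    have h3 : h (D⁻¹ y) ≤ p2 := by rw [← hp12]; exact hmono.monotone h2
    have h4 : D⁻¹ y ≤ p2 := (hup _).le.trans h3
    have h5 : D0 (D⁻¹ y) = y := by rw [← r3 _ h1 h4, inv_right]
    rw [r3 _ (h1.trans (hup _).le) h3, hD0h, h5]
    have h6 : y ≤ (g ^ (2 * K)) x0 := hy2.trans (gmon.monotone (by omega : N ≤ 2 * K))
    rw [hGg y hy1 (h6.trans (gmon.monotone (by omega : 2 * K ≤ 2 * K + 4)))]
    apply hGg
    · exact gx0.le.trans (gmono.monotone hy1)
    · have := gmono.monotone h6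
      rw [← pow_succ_app] at this
      exact this.trans (gmon.monotone (by omega : 2 * K + 1 ≤ 2 * K + 4))

/-- the translation amounts near the ends -/
def EndsAt (e : ℝ → ℝ) (i j : ℤ) : Prop :=
  (∃ M : ℝ, ∀ x, x ≤ M → e x = x + i) ∧ (∃ M : ℝ, ∀ x, M ≤ x → e x = x + j)

theorem EndsAt.common {h g : ℝ → ℝ} {A B i j : ℤ} (h1 : EndsAt h A B) (h2 : EndsAt g i j) :
    ∃ L : ℝ, (∀ x, x ≤ -L → h x = x + A) ∧ (∀ x, L ≤ x → h x = x + B) ∧
      (∀ x, x ≤ -L → g x = x + i) ∧ (∀ x, L ≤ x → g x = x + j) := by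
  obtain ⟨⟨M1, hM1⟩, ⟨M2, hM2⟩⟩ := h1
  obtain ⟨⟨M3, hM3⟩, ⟨M4, hM4⟩⟩ := h2
  refine ⟨max (max (-M1) M2) (max (-M3) M4), fun x hx => hM1 x ?_, fun x hx => hM2 x ?_,
    fun x hx => hM3 x ?_, fun x hx => hM4 x ?_⟩
  · have := (le_max_left (-M1) M2).trans (le_max_left _ (max (-M3) M4)); linarith
  · exact ((le_max_right (-M1) M2).trans (le_max_left _ (max (-M3) M4))).trans hx
  · have := (le_max_left (-M3) M4).trans (le_max_right (max (-M1) M2) _); linarith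
  · exact ((le_max_right (-M3) M4).trans (le_max_right (max (-M1) M2) _)).trans hx

theorem EndsAt.mul {a b : Equiv.Perm ℝ} {i j i' j' : ℤ} (ha : EndsAt a i j)
    (hb : EndsAt b i' j') : EndsAt (a * b : Equiv.Perm ℝ) (i + i') (j + j') := by
  obtain ⟨⟨M, hi⟩, ⟨N, hj⟩⟩ := ha
  obtain ⟨⟨M', hi'⟩, ⟨N', hj'⟩⟩ := hb
  refine ⟨⟨min M' (M - i'), fun x hx => ?_⟩, ⟨max N' (N - j'), fun x hx => ?_⟩⟩
  · have h1 := hx.trans (min_le_left _ _)
    have h2 := hx.trans (min_le_right _ _)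
    rw [Equiv.Perm.mul_apply, hi' x h1, hi _ (by linarith)]
    push_cast; ring
  · have h1 := (le_max_left _ _).trans hx
    have h2 := (le_max_right _ _).trans hx
    rw [Equiv.Perm.mul_apply, hj' x h1, hj _ (by linarith)]
    push_cast; ring

theorem EndsAt.inv {a : Equiv.Perm ℝ} {i j : ℤ} (ha : EndsAt a i j) :
    EndsAt (a⁻¹ : Equiv.Perm ℝ) (-i) (-j) := by
  obtain ⟨⟨M, hi⟩, ⟨N, hj⟩⟩ := ha
  refine ⟨⟨M + i, fun x hx => ?_⟩, ⟨N + j, fun x hx => ?_⟩⟩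
  · rw [Equiv.Perm.inv_eq_iff_eq, hi _ (by push_cast; linarith)]
    push_cast; ring
  · rw [Equiv.Perm.inv_eq_iff_eq, hj _ (by push_cast; linarith)]
    push_cast; ring

theorem EndsAt.one : EndsAt (1 : Equiv.Perm ℝ) 0 0 :=
  ⟨⟨0, fun x _ => by simp⟩, ⟨0, fun x _ => by simp⟩⟩

theorem EndsAt.unique {a : ℝ → ℝ} {i j i' j' : ℤ} (h : EndsAt a i j) (h' : EndsAt a i' j') :
    i = i' ∧ j = j' := by
  obtain ⟨⟨M, hi⟩, ⟨N, hj⟩⟩ := h
  obtain ⟨⟨M', hi'⟩, ⟨N', hj'⟩⟩ := h'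
  constructor
  · have h1 := hi (min M M') (min_le_left _ _)
    rw [hi' _ (min_le_right _ _)] at h1
    have : (i : ℝ) = i' := by linarith
    exact_mod_cast this
  · have h1 := hj (max N N') (le_max_left _ _)
    rw [hj' _ (le_max_right _ _)] at h1
    have : (j : ℝ) = j' := by linarith
    exact_mod_cast this

theorem FZ_endsAt {a : Equiv.Perm ℝ} (h : a ∈ FZ) : ∃ i j, EndsAt a i j := by
  obtain ⟨-, ⟨i, M, hi⟩, ⟨j, N, hj⟩⟩ := h
  exact ⟨i, j, ⟨M, hi⟩, ⟨N, hj⟩⟩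

theorem EndsAt.conj {D h : Equiv.Perm ℝ} (hD : D ∈ FZ) {A B : ℤ} (hh : EndsAt h A B) :
    EndsAt (D * h * D⁻¹ : Equiv.Perm ℝ) A B := by
  obtain ⟨a, b, hab⟩ := FZ_endsAt hD
  have := (hab.mul hh).mul hab.inv
  rwa [show a + A + -a = A by ring, show b + B + -b = B by ring] at this

theorem tri_up {f h g : Equiv.Perm ℝ} (hf : f ∈ FZ) (hh : h ∈ FZ) (hg : g ∈ FZ)
    (fup : ∀ x, x < f x) (hup : ∀ x, x < h x) {A B i j k l : ℤ} (fe : EndsAt f k l)
    (he : EndsAt h A B) (ge : EndsAt g i j) (hA : A = k + i) (hB : B = l + j)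
    {x0 : ℝ} (hx0 : Dy x0) (gx0 : x0 < g x0) :
    ∃ C1 ∈ FZ, ∃ C2 ∈ FZ, g = (C1 * f * C1⁻¹)⁻¹ * (C2 * h * C2⁻¹) := by
  have hgm : StrictMono g := hg.1.1
  have hkl : 0 < k ∧ 0 < l := by
    obtain ⟨L, h1, h2, -, -⟩ := fe.common fe
    constructor
    · have h3 := fup (-L)
      rw [h1 _ le_rfl] at h3
      have : (0 : ℝ) < k := by linarith
      exact_mod_cast this
    · have h3 := fup L
      rw [h2 _ le_rfl] at h3
      have : (0 : ℝ) < l := by linarith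
      exact_mod_cast this
  obtain ⟨L, l1, l2, l3, l4⟩ := he.common ge
  obtain ⟨D, hD, D1, D2⟩ := exists_D hh.1 hup hg.1 l1 l2 l3 l4 (by omega) (by omega) hx0 gx0 27
  set h' : Equiv.Perm ℝ := D * h * D⁻¹ with hh'
  have hh'F : h' ∈ FZ := FZ.mul_mem (FZ.mul_mem hD hh) (FZ.inv_mem hD)
  have hh'E : EndsAt h' A B := he.conj hD
  obtain ⟨a, ha⟩ : ∃ a, a = h' * g⁻¹ := ⟨_, rfl⟩
  have haF : a ∈ FZ := by rw [ha]; exact FZ.mul_mem hh'F (FZ.inv_mem hg)
  have haE : EndsAt a k l := by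
    have h1 := hh'E.mul ge.inv
    rw [← ha] at h1
    rwa [show A + -i = k by omega, show B + -j = l by omega] at h1
  have aup : ∀ y, y < a y := by
    intro y
    have h1 := D1 (g⁻¹ y)
    rw [inv_right] at h1
    rw [ha]; exact h1
  have gpow : StrictMono (fun n : ℕ => (g ^ n) x0) :=
    strictMono_nat_of_lt_succ (step_10051 hgm gx0)
  have hag : ∀ y, g x0 ≤ y → y ≤ (g ^ 28) x0 → a y = g y := by
    intro y h1 h2
    have h3 : x0 ≤ g⁻¹ y := by rw [← hgm.le_iff_le, inv_right]; exact h1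
    have h4 : g⁻¹ y ≤ (g ^ 27) x0 := by
      rw [← hgm.le_iff_le, inv_right, ← pow_succ_app]; exact h2
    have h5 := D2 (g⁻¹ y) h3 h4
    rw [inv_right] at h5
    rw [ha]; exact h5
  obtain ⟨W, hW, hWa⟩ := exists_W_gen haF.1 aup
  have hWm : StrictMono W := hW.1
  obtain ⟨b, hb⟩ : ∃ b, b = W * h' * W⁻¹ := ⟨_, rfl⟩
  have hbP : b ∈ PLH := by
    rw [hb]; exact PLH.mul_mem (PLH.mul_mem hW hh'F.1) (PLH.inv_mem hW)
  have hX0 : Dy (W (g x0)) := (hW.2 _).dy.2 ((hg.1.2 _).dy.2 hx0)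
  have hpow : ∀ n : ℕ, n ≤ 26 → W ((g ^ (n + 1)) x0) = W (g x0) + n := by
    intro n
    induction n with
    | zero => intro _; simp
    | succ n ih =>
      intro hn
      have e1 : (g ^ (n + 1 + 1)) x0 = a ((g ^ (n + 1)) x0) := by
        rw [pow_succ_app]
        symm
        apply hag
        · have := gpow.monotone (show 1 ≤ n + 1 by omega)
          simpa using this
        · exact gpow.monotone (show n + 1 ≤ 28 by omega)
      rw [e1, hWa, ih (by omega)]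
      push_cast; ring
  have hb2 : ∀ Y, W (g x0) ≤ Y → Y ≤ W (g x0) + 25 → b Y = Y + 2 := by
    intro Y h1 h2
    have h3 : g x0 ≤ W⁻¹ Y := by rw [← hWm.le_iff_le, inv_right]; exact h1
    have h4 : W⁻¹ Y ≤ (g ^ 26) x0 := by
      rw [← hWm.le_iff_le, inv_right, hpow 25 (by omega)]
      push_cast; linarith
    have h5 : h' (W⁻¹ Y) = g (g (W⁻¹ Y)) :=
      D2 _ (gx0.le.trans h3) (h4.trans (gpow.monotone (by omega : 26 ≤ 27)))
    have h6 : a (W⁻¹ Y) = g (W⁻¹ Y) := hag _ h3 (h4.trans (gpow.monotone (by omega : 26 ≤ 28)))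
    have h7 : a (g (W⁻¹ Y)) = g (g (W⁻¹ Y)) := by
      apply hag
      · exact hgm.monotone (gx0.le.trans h3)
      · have := hgm.monotone h4
        rw [← pow_succ_app] at this
        exact this.trans (gpow.monotone (by omega : 27 ≤ 28))
    rw [hb]
    show W (h' (W⁻¹ Y)) = Y + 2
    rw [h5, ← h7, hWa, ← h6, hWa, inv_right]; ring
  obtain ⟨L2, q1, q2, q3, q4⟩ := fe.common haE
  obtain ⟨L', hOB⟩ := W_conj_OB hW hWa hf.1 fup (L := L2)
    (fun x hx => by rw [q1 x hx, q3 x hx]) (fun x hx => by rw [q2 x hx, q4 x hx])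
  obtain ⟨C1, hC1, C2, hC2, hC⟩ := core' hbP hX0 hb2 hOB
  have hE1 := W_conj_mem haF hW hWa hC1
  have hE2 := W_conj_mem haF hW hWa hC2
  have hWτ : W⁻¹ * (tr 1) * W = a := by
    ext x
    show W⁻¹ (W x + 1) = a x
    rw [← hWa, inv_left]
  refine ⟨W⁻¹ * C1 * W, hE1, W⁻¹ * C2 * W * D, FZ.mul_mem hE2 hD, ?_⟩
  calc g = a⁻¹ * h' := by rw [ha]; group
    _ = W⁻¹ * ((tr 1)⁻¹ * b) * W := by rw [← hWτ, hb]; group
    _ = W⁻¹ * ((C1 * (W * f * W⁻¹) * C1⁻¹)⁻¹ * (C2 * b * C2⁻¹)) * W := by rw [hC]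
    _ = _ := by rw [hb, hh']; group

/-- **the triangle theorem in the line model of `F`** -/
theorem tri_FZ {f h g : Equiv.Perm ℝ} (hf : f ∈ FZ) (hh : h ∈ FZ) (hg : g ∈ FZ)
    (fup : ∀ x, x < f x) (hup : ∀ x, x < h x) (hne : g ≠ 1) {A B i j k l : ℤ}
    (fe : EndsAt f k l) (he : EndsAt h A B) (ge : EndsAt g i j) (hA : A = k + i)
    (hB : B = l + j) :
    ∃ C1 ∈ FZ, ∃ C2 ∈ FZ, g = (C1 * f * C1⁻¹)⁻¹ * (C2 * h * C2⁻¹) := by
  have hgm : StrictMono g := hg.1.1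
  have hcont : Continuous g := PLf.cont hg.1.2
  obtain ⟨x, hx⟩ : ∃ x, g x ≠ x := by
    by_contra hc
    push Not at hc
    exact hne (Equiv.ext hc)
  have hopen : IsOpen {x | g x ≠ x} := isOpen_ne_fun hcont continuous_id
  obtain ⟨ε, hε, hball⟩ := Metric.isOpen_iff.1 hopen x hx
  obtain ⟨z, hz, hz1, hz2⟩ := Dy.exists_between (show x < x + ε by linarith)
  have hzne : g z ≠ z := by
    apply hball
    rw [Metric.mem_ball, Real.dist_eq, abs_of_pos (by linarith)]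
    linarith
  rcases lt_or_gt_of_ne hzne with hlt | hgt
  · have h0 : z < g⁻¹ z := by
      apply hgm.lt_iff_lt.1
      rwa [inv_right]
    obtain ⟨C1, hC1, C2, hC2, hC⟩ := tri_up hh hf (FZ.inv_mem hg) hup fup he fe ge.inv
      (by omega) (by omega) hz h0
    refine ⟨C2, hC2, C1, hC1, ?_⟩
    rw [← inv_inv g, hC]; group
  · exact tri_up hf hh hg fup hup fe he ge hA hB hz hgt

end Pool.Agent.K9h94.ThF
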