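import Mathlib
import Pool.Agent.Helper283.ThV.PLR
import Pool.Agent.K9h94.ThF.TriFZ

set_option autoImplicit false
set_option linter.unusedVariables false
set_option linter.deprecated false

/-!
Transport of the results on the line model to Thompson's group `F` on `[0, 1]`.
-/

namespace Pool.Agent.K9h94.ThF

open Pool.Agent.Helper283.PL

/-- germs at the two ends of `[0, 1]` -/
def GermsAt (g : ℝ → ℝ) (k l : ℤ) : Prop :=
  (∃ ε > 0, ∀ x, 0 ≤ x → x ≤ ε → g x = (2 : ℝ) ^ k * x) ∧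
  (∃ ε > 0, ∀ x, 1 - ε ≤ x → x ≤ 1 → g x = 1 - (2 : ℝ) ^ l * (1 - x))

theorem GermsAt.unique {a : ℝ → ℝ} {i j i' j' : ℤ} (h : GermsAt a i j) (h' : GermsAt a i' j') :
    i = i' ∧ j = j' := by
  obtain ⟨⟨M, hM, hi⟩, ⟨N, hN, hj⟩⟩ := h
  obtain ⟨⟨M', hM', hi'⟩, ⟨N', hN', hj'⟩⟩ := h'
  have hinj : ∀ a b : ℤ, (2 : ℝ) ^ a = (2 : ℝ) ^ b → a = b := fun a b h =>
    zpow_right_injective₀ (by norm_num) (by norm_num) h
  constructor
  · have hm : 0 < min M M' := lt_min hM hM'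
    have h1 := hi (min M M') hm.le (min_le_left _ _)
    rw [hi' _ hm.le (min_le_right _ _)] at h1
    exact (hinj _ _ (mul_right_cancel₀ hm.ne' h1)).symm
  · have hm : 0 < min N N' := lt_min hN hN'
    have h1 := hj (1 - min N N') (by linarith [min_le_left N N']) (by linarith)
    rw [hj' _ (by linarith [min_le_right N N']) (by linarith)] at h1
    have h2 : (2 : ℝ) ^ j' * min N N' = (2 : ℝ) ^ j * min N N' := by
      have e : (1 : ℝ) - (1 - min N N') = min N N' := by ring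
      rw [e] at h1; linarith
    exact (hinj _ _ (mul_right_cancel₀ hm.ne' h2)).symm

/-- the germs of a transported element -/
theorem T_germs {e : Equiv.Perm ℝ} {i j : ℤ} (he : EndsAt e i j) :
    GermsAt (T10622 e) i (-j) := by
  obtain ⟨⟨M, hM⟩, ⟨N, hN⟩⟩ := he
  constructor
  · refine ⟨Lam10622 (min M (-|(i : ℝ)| - 1)), Lam_pos10622 _, fun z h1 h2 => ?_⟩
    rcases h1.eq_or_lt with h3 | h3
    · rw [← h3, T_apply10622, Tf_out10622 _ (Or.inl le_rfl)]; ring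
    · have h4 : z < 1 := by linarith [Lam_lt10622 (min M (-|(i : ℝ)| - 1))]
      have h5 : hh10622 z ≤ min M (-|(i : ℝ)| - 1) := by
        rw [← Lam_strict10622.le_iff_le, Lam_hh10622 h3 h4]; linarith
      rw [le_min_iff] at h5
      rw [T_apply10622, Tf_in10622 _ h3 h4, hM _ h5.1, Lam_shiftL10622 _ _
        (by linarith [abs_nonneg (i : ℝ)]) (by linarith [le_abs_self (i : ℝ)]),
        Lam_hh10622 h3 h4]
  · refine ⟨1 - Lam10622 (max N (|(j : ℝ)| + 1)),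
      by linarith [Lam_lt10622 (max N (|(j : ℝ)| + 1))], fun z h1 h2 => ?_⟩
    rcases h2.eq_or_lt with h3 | h3
    · rw [h3, T_apply10622, Tf_out10622 _ (Or.inr le_rfl)]; ring
    · have h4 : 0 < z := by linarith [Lam_pos10622 (max N (|(j : ℝ)| + 1))]
      have h5 : max N (|(j : ℝ)| + 1) ≤ hh10622 z := by
        rw [← Lam_strict10622.le_iff_le, Lam_hh10622 h4 h3]; linarith
      rw [max_le_iff] at h5
      rw [T_apply10622, Tf_in10622 _ h4 h3, hN _ h5.1, Lam_shiftR10622 _ _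
        (by linarith [abs_nonneg (j : ℝ)]) (by linarith [neg_abs_le (j : ℝ)]),
        Lam_hh10622 h4 h3]
      ring

/-- every element of `F` is transported from the line model -/
theorem T_surj {g : Equiv.Perm ℝ} (hg : g ∈ Sup 0 1) : ∃ e ∈ FZ, T10622 e = g := by
  have hg01 : ∀ {f : Equiv.Perm ℝ}, f ∈ Sup 0 1 → ∀ y, 0 < y → y < 1 → 0 < f y ∧ f y < 1 := by
    intro f hf y h0 h1
    have e0 : f 0 = 0 := hf.2 0 (Or.inl le_rfl)
    have e1 : f 1 = 1 := hf.2 1 (Or.inr le_rfl)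
    constructor
    · conv_lhs => rw [← e0]
      exact hf.1.1 h0
    · conv_rhs => rw [← e1]
      exact hf.1.1 h1
  have hgi : g⁻¹ ∈ Sup 0 1 := (Sup 0 1).inv_mem hg
  let g0 : Equiv.Perm ℝ :=
    { toFun := fun x => hh10622 (g (Lam10622 x))
      invFun := fun x => hh10622 (g⁻¹ (Lam10622 x))
      left_inv := fun x => by
        have h := hg01 hg _ (Lam_pos10622 x) (Lam_lt10622 x)
        simp only
        rw [Lam_hh10622 h.1 h.2, inv_left, hh_Lam10622]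
      right_inv := fun x => by
        have h := hg01 hgi _ (Lam_pos10622 x) (Lam_lt10622 x)
        simp only
        rw [Lam_hh10622 h.1 h.2, inv_right, hh_Lam10622] }
  have hg0 : ∀ x, g0 x = hh10622 (g (Lam10622 x)) := fun x => rfl
  have hT : T10622 g0 = g := by
    ext y
    rw [T_apply10622]
    by_cases h : 0 < y ∧ y < 1
    · rw [Tf_in10622 _ h.1 h.2, hg0, Lam_hh10622 h.1 h.2]
      have h1 := hg01 hg _ h.1 h.2
      rw [Lam_hh10622 h1.1 h1.2]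
    · have h' : y ≤ 0 ∨ 1 ≤ y := by
        by_contra hc
        push Not at hc
        exact h hc
      rw [Tf_out10622 _ h', hg.2]
      exact h'
  refine ⟨g0, ⟨⟨fun x y hxy => ?_, fun x => ?_⟩, ?_, ?_⟩, hT⟩
  · rw [hg0, hg0, ← Lam_strict10622.lt_iff_lt]
    have h1 := hg01 hg _ (Lam_pos10622 x) (Lam_lt10622 x)
    have h2 := hg01 hg _ (Lam_pos10622 y) (Lam_lt10622 y)
    rw [Lam_hh10622 h1.1 h1.2, Lam_hh10622 h2.1 h2.2]
    exact hg.1.1 (Lam_strict10622 hxy)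
  · have h1 := hg01 hg _ (Lam_pos10622 x) (Lam_lt10622 x)
    exact PLat.comp (g := fun z => g (Lam10622 z)) (f := hh10622)
      (PLat.comp (g := Lam10622) (f := g) (Lam_PLf10622 x) (hg.1.2 _)) (hh_PLat10622 h1.1 h1.2)
  · -- left end
    obtain ⟨k, c, hc, ε, hε, h⟩ := (hg.1.2 0).1
    have h0 := h 0 le_rfl (by linarith)
    rw [hg.2 0 (Or.inl le_rfl)] at h0
    have hc0 : c = 0 := by linarith
    subst hc0
    have hm : 0 < min (ε / 2) (1 / 2) := lt_min (by linarith) (by norm_num)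
    have hm1 : min (ε / 2) (1 / 2) < 1 := by linarith [min_le_right (ε / 2) (1 / 2)]
    refine ⟨k, min (hh10622 (min (ε / 2) (1 / 2))) (-|(k : ℝ)| - 1), fun x hx => ?_⟩
    have h1 := hx.trans (min_le_left _ _)
    have h2 := hx.trans (min_le_right _ _)
    have h3 : Lam10622 x ≤ min (ε / 2) (1 / 2) := by
      have := Lam_strict10622.monotone h1
      rwa [Lam_hh10622 hm hm1] at this
    have h4 : Lam10622 x < ε := by linarith [min_le_left (ε / 2) (1 / 2)]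
    rw [hg0, h _ (Lam_pos10622 x).le (by linarith), add_zero, ← Lam_shiftL10622 _ _
      (by linarith [abs_nonneg (k : ℝ)]) (by linarith [le_abs_self (k : ℝ)]), hh_Lam10622]
  · -- right end
    obtain ⟨k, c, hc, ε, hε, h⟩ := (hg.1.2 1).2.1
    have h0 := h 1 (by linarith) le_rfl
    rw [hg.2 1 (Or.inr le_rfl)] at h0
    have hc0 : c = 1 - (2 : ℝ) ^ k := by linarith
    subst hc0
    have hm : 0 < min (ε / 2) (1 / 2) := lt_min (by linarith) (by norm_num)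
    have hm1 : 0 < 1 - min (ε / 2) (1 / 2) := by linarith [min_le_right (ε / 2) (1 / 2)]
    refine ⟨-k, max (hh10622 (1 - min (ε / 2) (1 / 2))) (|(k : ℝ)| + 1), fun x hx => ?_⟩
    have h1 := (le_max_left _ _).trans hx
    have h2 := (le_max_right _ _).trans hx
    have h3 : 1 - min (ε / 2) (1 / 2) ≤ Lam10622 x := by
      have := Lam_strict10622.monotone h1
      rwa [Lam_hh10622 hm1 (by linarith)] at this
    have h4 : 1 - ε < Lam10622 x := by linarith [min_le_left (ε / 2) (1 / 2)]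
    have h5 : Lam10622 (x + ((-k : ℤ) : ℝ)) = (2 : ℝ) ^ k * Lam10622 x + (1 - (2 : ℝ) ^ k) := by
      rw [Lam_shiftR10622 x (-k) (by linarith [abs_nonneg (k : ℝ)])
        (by push_cast; linarith [le_abs_self (k : ℝ)]), neg_neg]
    rw [hg0, h _ h4 (Lam_lt10622 x).le, ← h5, hh_Lam10622]

theorem T_one : T10622 1 = 1 := by
  ext y
  rw [T_apply10622]
  exact Tf_id10622 y

theorem T_inj {e e' : Equiv.Perm ℝ} (h : T10622 e = T10622 e') : e = e' := by
  ext x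
  have h1 : T10622 e (Lam10622 x) = T10622 e' (Lam10622 x) := by rw [h]
  rw [T_apply10622, T_apply10622, Tf_in10622 _ (Lam_pos10622 x) (Lam_lt10622 x),
    Tf_in10622 _ (Lam_pos10622 x) (Lam_lt10622 x), hh_Lam10622] at h1
  exact Lam_strict10622.injective h1

theorem T_up {e : Equiv.Perm ℝ} :
    (∀ x, x < e x) ↔ ∀ y, 0 < y → y < 1 → y < T10622 e y := by
  constructor
  · intro h y h0 h1
    rw [T_apply10622, Tf_in10622 _ h0 h1]
    conv_lhs => rw [← Lam_hh10622 h0 h1]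
    exact Lam_strict10622 (h _)
  · intro h x
    have h1 := h _ (Lam_pos10622 x) (Lam_lt10622 x)
    rw [T_apply10622, Tf_in10622 _ (Lam_pos10622 x) (Lam_lt10622 x), hh_Lam10622] at h1
    exact Lam_strict10622.lt_iff_lt.1 h1

theorem F_germs {g : Equiv.Perm ℝ} (hg : g ∈ Sup 0 1) : ∃ k l, GermsAt g k l := by
  obtain ⟨e, he, rfl⟩ := T_surj hg
  obtain ⟨i, j, hij⟩ := FZ_endsAt he
  exact ⟨i, -j, T_germs hij⟩

theorem EndsAt_of_germs {e : Equiv.Perm ℝ} (he : e ∈ FZ) {k l : ℤ}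
    (h : GermsAt (T10622 e) k l) : EndsAt e k (-l) := by
  obtain ⟨i, j, hij⟩ := FZ_endsAt he
  obtain ⟨h1, h2⟩ := (T_germs hij).unique h
  rw [← h1, ← h2, neg_neg]; exact hij

theorem GermsAt_mul {a b : Equiv.Perm ℝ} (ha : a ∈ Sup 0 1) (hb : b ∈ Sup 0 1) {k l k' l' : ℤ}
    (h : GermsAt a k l) (h' : GermsAt b k' l') : GermsAt (a * b : Equiv.Perm ℝ) (k + k') (l + l') := by
  obtain ⟨e, he, rfl⟩ := T_surj ha
  obtain ⟨e', he', rfl⟩ := T_surj hb
  have h1 := (EndsAt_of_germs he h).mul (EndsAt_of_germs he' h')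
  have h2 := T_germs h1
  rw [T_mul10622] at h2
  convert h2 using 1
  ring

theorem GermsAt_inv {a : Equiv.Perm ℝ} (ha : a ∈ Sup 0 1) {k l : ℤ}
    (h : GermsAt a k l) : GermsAt (a⁻¹ : Equiv.Perm ℝ) (-k) (-l) := by
  obtain ⟨e, he, rfl⟩ := T_surj ha
  have h1 := (EndsAt_of_germs he h).inv
  have h2 := T_germs h1
  rw [T_inv10622] at h2
  convert h2 using 1
  ring

theorem GermsAt_one : GermsAt (1 : Equiv.Perm ℝ) 0 0 :=
  ⟨⟨1, one_pos, fun x _ _ => by simp⟩, ⟨1, one_pos, fun x _ _ => by simp⟩⟩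

/-- **the triangle theorem for `F`** -/
theorem tri_F {f h g : Equiv.Perm ℝ} (hf : f ∈ Sup 0 1) (hh : h ∈ Sup 0 1) (hg : g ∈ Sup 0 1)
    (fup : ∀ x, 0 < x → x < 1 → x < f x) (hup : ∀ x, 0 < x → x < 1 → x < h x) (hne : g ≠ 1)
    {A B i j k l : ℤ} (fe : GermsAt f k l) (he : GermsAt h A B) (ge : GermsAt g i j)
    (hA : A = k + i) (hB : B = l + j) :
    ∃ C1 ∈ Sup 0 1, ∃ C2 ∈ Sup 0 1, g = (C1 * f * C1⁻¹)⁻¹ * (C2 * h * C2⁻¹) := by
  obtain ⟨f', hf', rfl⟩ := T_surj hf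
  obtain ⟨h', hh', rfl⟩ := T_surj hh
  obtain ⟨g', hg', rfl⟩ := T_surj hg
  have hne' : g' ≠ 1 := by
    rintro rfl
    exact hne T_one
  obtain ⟨C1, hC1, C2, hC2, hC⟩ := tri_FZ hf' hh' hg' (T_up.2 fup) (T_up.2 hup) hne'
    (EndsAt_of_germs hf' fe) (EndsAt_of_germs hh' he) (EndsAt_of_germs hg' ge) hA (by omega)
  refine ⟨T10622 C1, T_mem10622 hC1, T10622 C2, T_mem10622 hC2, ?_⟩
  conv_lhs => rw [hC]
  simp only [T_mul10622, T_inv10622]

/-! ### special elements of the line model -/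

/-- translation by one on the left, identity on the right -/
theorem exists_sg : ∃ σ ∈ FZ, EndsAt σ 1 0 ∧ (∀ x, x ≤ σ x) ∧ (∀ x, x ≤ 1 → x < σ x) ∧
    σ 1 = 3 / 2 ∧ σ 2 = 2 := by
  obtain ⟨e1, he1, e1a, e1b⟩ := PLH_glue (f := tr 1) (g := aff_10050 (-1) 1) (tr_mem Dy.one)
    (aff_mem_10050 (-1) Dy.one) Dy.zero (by
      show (0 : ℝ) + 1 = (2 : ℝ) ^ (-1 : ℤ) * 0 + 1
      ring)
  have hd2 : Dy 2 := by simpa using Dy.nat 2
  obtain ⟨e, he, ea, eb⟩ := PLH_glue (f := e1) (g := 1) he1 PLH.one_mem hd2 (by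
    rw [e1b 2 (by norm_num)]
    show (2 : ℝ) ^ (-1 : ℤ) * 2 + 1 = 2
    norm_num)
  have r1 : ∀ x, x ≤ 0 → e x = x + 1 := fun x hx => by
    rw [ea x (by linarith), e1a x hx, tr_apply]
  have r2 : ∀ x, 0 ≤ x → x ≤ 2 → e x = x / 2 + 1 := fun x hx hx' => by
    rw [ea x hx', e1b x hx]
    show (2 : ℝ) ^ (-1 : ℤ) * x + 1 = x / 2 + 1
    rw [zpow_neg_one]; ring
  have r3 : ∀ x, 2 ≤ x → e x = x := fun x hx => by rw [eb x hx]; rfl
  refine ⟨e, ⟨he, ⟨1, 0, fun x hx => by rw [r1 x hx]; norm_num⟩,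
    ⟨0, 2, fun x hx => by rw [r3 x hx]; norm_num⟩⟩,
    ⟨⟨0, fun x hx => by rw [r1 x hx]; norm_num⟩, ⟨2, fun x hx => by rw [r3 x hx]; norm_num⟩⟩,
    fun x => ?_, fun x hx => ?_, ?_, ?_⟩
  · rcases le_total x 0 with h | h
    · rw [r1 x h]; linarith
    · rcases le_total x 2 with h' | h'
      · rw [r2 x h h']; linarith
      · rw [r3 x h']
  · rcases le_total x 0 with h | h
    · rw [r1 x h]; linarith
    · rw [r2 x h (by linarith)]; linarith
  · rw [r2 1 (by norm_num) (by norm_num)]; norm_num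
  · rw [r3 2 le_rfl]

/-- identity on the left, translation by one on the right -/
theorem exists_rho : ∃ ρ ∈ FZ, EndsAt ρ 0 1 ∧ (∀ x, x ≤ ρ x) ∧ (∀ x, 0 < x → x < ρ x) := by
  obtain ⟨e1, he1, e1a, e1b⟩ := PLH_glue (f := 1) (g := aff_10050 1 0) PLH.one_mem
    (aff_mem_10050 1 Dy.zero) Dy.zero (by
      show (0 : ℝ) = (2 : ℝ) ^ (1 : ℤ) * 0 + 0
      ring)
  obtain ⟨e, he, ea, eb⟩ := PLH_glue (f := e1) (g := tr 1) he1 (tr_mem Dy.one) Dy.one (by
    rw [e1b 1 (by norm_num)]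
    show (2 : ℝ) ^ (1 : ℤ) * 1 + 0 = 1 + 1
    norm_num)
  have r1 : ∀ x, x ≤ 0 → e x = x := fun x hx => by
    rw [ea x (by linarith), e1a x hx]; rfl
  have r2 : ∀ x, 0 ≤ x → x ≤ 1 → e x = 2 * x := fun x hx hx' => by
    rw [ea x hx', e1b x hx]
    show (2 : ℝ) ^ (1 : ℤ) * x + 0 = 2 * x
    rw [zpow_one]; ring
  have r3 : ∀ x, 1 ≤ x → e x = x + 1 := fun x hx => by rw [eb x hx, tr_apply]
  refine ⟨e, ⟨he, ⟨0, 0, fun x hx => by rw [r1 x hx]; norm_num⟩,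
    ⟨1, 1, fun x hx => by rw [r3 x hx]; norm_num⟩⟩,
    ⟨⟨0, fun x hx => by rw [r1 x hx]; norm_num⟩, ⟨1, fun x hx => by rw [r3 x hx]; norm_num⟩⟩,
    fun x => ?_, fun x hx => ?_⟩
  · rcases le_total x 0 with h | h
    · rw [r1 x h]
    · rcases le_total x 1 with h' | h'
      · rw [r2 x h h']; linarith
      · rw [r3 x h']; linarith
  · rcases le_total x 1 with h' | h'
    · rw [r2 x hx.le h']; linarith
    · rw [r3 x h']; linarith

theorem EndsAt.zpow {a : Equiv.Perm ℝ} {i j : ℤ} (ha : EndsAt a i j) (n : ℤ) :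
    EndsAt (a ^ n : Equiv.Perm ℝ) (n * i) (n * j) := by
  induction n using Int.induction_on with
  | zero => simpa using EndsAt.one
  | succ k ih =>
    have := ih.mul ha
    rw [← zpow_add_one] at this
    convert this using 1 <;> ring
  | pred k ih =>
    have := ih.mul ha.inv
    rw [← zpow_sub_one] at this
    convert this using 1 <;> ring

theorem exists_ends (i j : ℤ) : ∃ s ∈ FZ, EndsAt s i j := by
  obtain ⟨σ, hσ, h1, -⟩ := exists_sg
  obtain ⟨ρ, hρ, h2, -⟩ := exists_rho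
  refine ⟨σ ^ i * ρ ^ j, FZ.mul_mem (FZ.zpow_mem hσ i) (FZ.zpow_mem hρ j), ?_⟩
  have := (h1.zpow i).mul (h2.zpow j)
  convert this using 1 <;> ring

theorem pow_ge {f : Equiv.Perm ℝ} (hf : ∀ x, x ≤ f x) (n : ℕ) (x : ℝ) : x ≤ (f ^ n) x := by
  induction n with
  | zero => simp
  | succ n ih => rw [pow_succ_app]; exact ih.trans (hf _)

theorem pow_gt {f : Equiv.Perm ℝ} (hf : ∀ x, x ≤ f x) {n : ℕ} (hn : 1 ≤ n) {x : ℝ}
    (hx : x < f x) : x < (f ^ n) x := by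
  obtain ⟨m, rfl⟩ : ∃ m, n = m + 1 := ⟨n - 1, by omega⟩
  rw [pow_succ, Equiv.Perm.mul_apply]
  exact hx.trans_le (pow_ge hf m _)

theorem exists_up_ends {i j : ℤ} (hi : 1 ≤ i) (hj : 1 ≤ j) :
    ∃ s ∈ FZ, EndsAt s i j ∧ ∀ x, x < s x := by
  obtain ⟨σ, hσ, h1, h1a, h1b, -⟩ := exists_sg
  obtain ⟨ρ, hρ, h2, h2a, h2b⟩ := exists_rho
  obtain ⟨m, rfl⟩ := Int.eq_ofNat_of_zero_le (by omega : 0 ≤ i)
  obtain ⟨n, rfl⟩ := Int.eq_ofNat_of_zero_le (by omega : 0 ≤ j)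
  refine ⟨σ ^ m * ρ ^ n, FZ.mul_mem (FZ.pow_mem hσ m) (FZ.pow_mem hρ n), ?_, fun x => ?_⟩
  · have := (h1.zpow m).mul (h2.zpow n)
    rw [zpow_natCast, zpow_natCast] at this
    convert this using 1 <;> ring
  · rw [Equiv.Perm.mul_apply]
    rcases le_or_gt x 0 with h | h
    · have e1 : (σ ^ m) x ≤ (σ ^ m) ((ρ ^ n) x) :=
        (PLH.pow_mem hσ.1 m).1.monotone (pow_ge h2a n x)
      exact (pow_gt h1a (by omega) (h1b x (by linarith))).trans_le e1
    · exact (pow_gt h2a (by omega) (h2b x h)).trans_le (pow_ge h1a m _)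

theorem tr_FZ (m : ℤ) : tr (m : ℝ) ∈ FZ :=
  ⟨tr_mem (Dy.int m), ⟨m, 0, fun x _ => tr_apply _ x⟩, ⟨m, 0, fun x _ => tr_apply _ x⟩⟩

theorem tr_ends (m : ℤ) : EndsAt (tr (m : ℝ)) m m :=
  ⟨⟨0, fun x _ => tr_apply _ x⟩, ⟨0, fun x _ => tr_apply _ x⟩⟩

/-- elements with trivial germs are commutators -/
theorem comm_FZ' {g : Equiv.Perm ℝ} (hg : g ∈ FZ) (he : EndsAt g 0 0) :
    ∃ X ∈ FZ, ∃ Y ∈ FZ, X * Y * X⁻¹ * Y⁻¹ = g := by
  by_cases hne : g = 1
  · refine ⟨1, FZ.one_mem, 1, FZ.one_mem, ?_⟩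
    rw [hne]; group
  obtain ⟨C1, hC1, C2, hC2, hC⟩ := tri_FZ (tr_FZ 1) (tr_FZ 1) hg
    (fun x => by rw [tr_apply]; push_cast; linarith) (fun x => by rw [tr_apply]; push_cast; linarith)
    hne (tr_ends 1) (tr_ends 1) he (by norm_num) (by norm_num)
  obtain ⟨τ, hτ⟩ : ∃ τ, τ = tr ((1 : ℤ) : ℝ) := ⟨_, rfl⟩
  rw [← hτ] at hC
  have hτF : τ ∈ FZ := by rw [hτ]; exact tr_FZ 1
  refine ⟨C1 * τ⁻¹ * C1⁻¹, FZ.mul_mem (FZ.mul_mem hC1 (FZ.inv_mem hτF)) (FZ.inv_mem hC1),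
    C2 * C1⁻¹, FZ.mul_mem hC2 (FZ.inv_mem hC1), ?_⟩
  rw [hC]; group

/-- elements with even germs are products of two squares -/
theorem sq_FZ' {g : Equiv.Perm ℝ} (hg : g ∈ FZ) {i j : ℤ} (he : EndsAt g (i + i) (j + j)) :
    ∃ X ∈ FZ, ∃ Y ∈ FZ, X * X * (Y * Y) = g := by
  by_cases hne : g = 1
  · refine ⟨1, FZ.one_mem, 1, FZ.one_mem, ?_⟩
    rw [hne]; group
  obtain ⟨K, hK⟩ : ∃ K : ℤ, K = |i| + |j| + 1 := ⟨_, rfl⟩
  have hi := neg_abs_le i
  have hj := neg_abs_le j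
  have hi' := abs_nonneg i
  have hj' := abs_nonneg j
  obtain ⟨s, hs, hse, hsu⟩ := exists_up_ends (i := K + i) (j := K + j) (by omega) (by omega)
  have hK1 : (1 : ℝ) ≤ K := by exact_mod_cast (by omega : 1 ≤ K)
  obtain ⟨τ, hτ⟩ : ∃ τ, τ = tr (K : ℝ) := ⟨_, rfl⟩
  have hτF : τ ∈ FZ := by rw [hτ]; exact tr_FZ K
  have hτE : EndsAt τ K K := by rw [hτ]; exact tr_ends K
  have hτu : ∀ x, x < τ x := fun x => by rw [hτ, tr_apply]; linarith
  obtain ⟨C1, hC1, C2, hC2, hC⟩ := tri_FZ (f := τ * τ) (h := s * s) (FZ.mul_mem hτF hτF)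
    (FZ.mul_mem hs hs) hg (fun x => (hτu x).trans (hτu _)) (fun x => (hsu x).trans (hsu _)) hne
    (hτE.mul hτE) (hse.mul hse) he (by ring) (by ring)
  refine ⟨C1 * τ⁻¹ * C1⁻¹, FZ.mul_mem (FZ.mul_mem hC1 (FZ.inv_mem hτF)) (FZ.inv_mem hC1),
    C2 * s * C2⁻¹, FZ.mul_mem (FZ.mul_mem hC2 hs) (FZ.inv_mem hC2), ?_⟩
  rw [hC]; group

theorem comm_F {g : Equiv.Perm ℝ} (hg : g ∈ Sup 0 1) (he : GermsAt g 0 0) :
    ∃ X ∈ Sup 0 1, ∃ Y ∈ Sup 0 1, X * Y * X⁻¹ * Y⁻¹ = g := by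
  obtain ⟨g', hg', rfl⟩ := T_surj hg
  have h := EndsAt_of_germs hg' he
  rw [neg_zero] at h
  obtain ⟨X, hX, Y, hY, h1⟩ := comm_FZ' hg' h
  refine ⟨_, T_mem10622 hX, _, T_mem10622 hY, ?_⟩
  rw [← h1]
  simp only [T_mul10622, T_inv10622]

theorem sq_F {g : Equiv.Perm ℝ} (hg : g ∈ Sup 0 1) {k l : ℤ} (he : GermsAt g (k + k) (l + l)) :
    ∃ X ∈ Sup 0 1, ∃ Y ∈ Sup 0 1, X * X * (Y * Y) = g := by
  obtain ⟨g', hg', rfl⟩ := T_surj hg
  have h := EndsAt_of_germs hg' he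
  rw [neg_add] at h
  obtain ⟨X, hX, Y, hY, h1⟩ := sq_FZ' hg' h
  refine ⟨_, T_mem10622 hX, _, T_mem10622 hY, ?_⟩
  rw [← h1]
  simp only [T_mul10622]

theorem surj_F (k l : ℤ) : ∃ g ∈ Sup 0 1, GermsAt g k l := by
  obtain ⟨s, hs, h⟩ := exists_ends k (-l)
  refine ⟨_, T_mem10622 hs, ?_⟩
  have := T_germs h
  rwa [neg_neg] at this

/-- the line model has trivial centre -/
theorem centre_FZ {g : Equiv.Perm ℝ} (hg : g ∈ FZ) (h : ∀ y ∈ FZ, y * g = g * y) : g = 1 := by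
  obtain ⟨i, j, hij⟩ := FZ_endsAt hg
  obtain ⟨⟨M, hM⟩, -⟩ := hij
  have h1 : ∀ x, g (x + 1) = g x + 1 := by
    intro x
    have e := h _ (tr_FZ 1)
    have e2 := DFunLike.congr_fun e x
    rw [Equiv.Perm.mul_apply, Equiv.Perm.mul_apply, tr_apply, tr_apply] at e2
    push_cast at e2
    exact e2.symm
  have h2 : ∀ (n : ℕ) x, g x = g (x - n) + n := by
    intro n
    induction n with
    | zero => intro x; simp
    | succ n ih =>
      intro x
      rw [ih x]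
      have := h1 (x - (n + 1))
      rw [show x - (n + 1 : ℝ) + 1 = x - n by ring] at this
      rw [this]; push_cast; ring
  have h3 : ∀ x, g x = x + i := by
    intro x
    obtain ⟨n, hn⟩ := exists_nat_ge (x - M)
    rw [h2 n x, hM _ (by linarith)]; ring
  obtain ⟨σ, hσ, -, -, hb, ha1, ha2⟩ := exists_sg
  have h4 : ∀ x, σ (x + i) = σ x + i := by
    intro x
    have e2 := DFunLike.congr_fun (h _ hσ) x
    rw [Equiv.Perm.mul_apply, Equiv.Perm.mul_apply, h3, h3] at e2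
    exact e2
  have hi : (i : ℝ) = 0 := by
    rcases lt_trichotomy i 0 with hn | hn | hn
    · exfalso
      have e1 := h4 2
      rw [ha2] at e1
      have e2 : (i : ℝ) ≤ -1 := by exact_mod_cast (by omega : i ≤ -1)
      have e3 := hb (2 + i) (by linarith)
      linarith
    · rw [hn]; simp
    · exfalso
      have e2 : (1 : ℝ) ≤ (i : ℝ) := by exact_mod_cast (by omega : 1 ≤ i)
      have e1 := h4 (2 - i)
      rw [show (2 : ℝ) - i + i = 2 by ring, ha2] at e1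
      have e3 := hb (2 - i) (by linarith)
      linarith
  ext x
  rw [h3, hi, add_zero]; rfl

theorem centre_F {g : Equiv.Perm ℝ} (hg : g ∈ Sup 0 1) (hne : g ≠ 1) :
    ∃ y ∈ Sup 0 1, y * g ≠ g * y := by
  by_contra hc
  push Not at hc
  obtain ⟨g', hg', rfl⟩ := T_surj hg
  apply hne
  rw [centre_FZ hg' fun y hy => ?_]
  · exact T_one
  · apply T_inj
    rw [T_mul10622, T_mul10622]
    exact hc _ (T_mem10622 hy)

/-- a nontrivial upward element with trivial germs -/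
theorem exists_k_FZ : ∃ k ∈ FZ, EndsAt k 0 0 ∧ (∀ x, x ≤ k x) ∧ k ≠ 1 := by
  have h32 : Dy (3 / 2) := by
    have := (Dy.nat 3).half
    norm_num at this
    exact this
  have h3 : Dy 3 := by simpa using Dy.nat 3
  obtain ⟨e1, he1, e1a, e1b⟩ := PLH_glue (f := 1) (g := aff_10050 1 0) PLH.one_mem
    (aff_mem_10050 1 Dy.zero) Dy.zero (by
      show (0 : ℝ) = (2 : ℝ) ^ (1 : ℤ) * 0 + 0
      ring)
  obtain ⟨e2, he2, e2a, e2b⟩ := PLH_glue (f := e1) (g := aff_10050 (-1) (3 / 2)) he1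
    (aff_mem_10050 (-1) h32) Dy.one (by
      rw [e1b 1 (by norm_num)]
      show (2 : ℝ) ^ (1 : ℤ) * 1 + 0 = (2 : ℝ) ^ (-1 : ℤ) * 1 + 3 / 2
      norm_num)
  obtain ⟨e, he, ea, eb⟩ := PLH_glue (f := e2) (g := 1) he2 PLH.one_mem h3 (by
    rw [e2b 3 (by norm_num)]
    show (2 : ℝ) ^ (-1 : ℤ) * 3 + 3 / 2 = 3
    norm_num)
  have r1 : ∀ x, x ≤ 0 → e x = x := fun x hx => by
    rw [ea x (by linarith), e2a x (by linarith), e1a x hx]; rfl
  have r2 : ∀ x, 0 ≤ x → x ≤ 1 → e x = 2 * x := fun x hx hx' => by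
    rw [ea x (by linarith), e2a x hx', e1b x hx]
    show (2 : ℝ) ^ (1 : ℤ) * x + 0 = 2 * x
    rw [zpow_one]; ring
  have r3 : ∀ x, 1 ≤ x → x ≤ 3 → e x = x / 2 + 3 / 2 := fun x hx hx' => by
    rw [ea x hx', e2b x hx]
    show (2 : ℝ) ^ (-1 : ℤ) * x + 3 / 2 = x / 2 + 3 / 2
    rw [zpow_neg_one]; ring
  have r4 : ∀ x, 3 ≤ x → e x = x := fun x hx => by rw [eb x hx]; rfl
  refine ⟨e, ⟨he, ⟨0, 0, fun x hx => by rw [r1 x hx]; norm_num⟩,
    ⟨0, 3, fun x hx => by rw [r4 x hx]; norm_num⟩⟩,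
    ⟨⟨0, fun x hx => by rw [r1 x hx]; norm_num⟩, ⟨3, fun x hx => by rw [r4 x hx]; norm_num⟩⟩,
    fun x => ?_, fun h => ?_⟩
  · rcases le_total x 0 with h | h
    · rw [r1 x h]
    rcases le_total x 1 with h' | h'
    · rw [r2 x h h']; linarith
    rcases le_total x 3 with h'' | h''
    · rw [r3 x h' h'']; linarith
    · rw [r4 x h'']
  · have := r2 1 (by norm_num) le_rfl
    rw [h] at this
    norm_num at this

/-- a value of `s * s` can be avoided inside a coset of the elements with trivial germs -/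
theorem avoid_F {r : Equiv.Perm ℝ} {k l : ℤ} :
    ∃ s ∈ Sup 0 1, GermsAt s k l ∧ s * s ≠ r := by
  obtain ⟨s, hs, he⟩ := exists_ends k (-l)
  obtain ⟨c, hc, hce, hge, hne⟩ := exists_k_FZ
  by_cases h : T10622 s * T10622 s = r
  · refine ⟨T10622 (s * c), T_mem10622 (FZ.mul_mem hs hc), ?_, fun h2 => ?_⟩
    · have h3 := T_germs (he.mul hce)
      rwa [add_zero, add_zero, neg_neg] at h3
    · rw [← h, ← T_mul10622, ← T_mul10622] at h2
      have h3 := T_inj h2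
      have h4 : c * s * c = s := by
        have : s * (c * s * c) = s * s := by rw [← h3]; group
        exact mul_left_cancel this
      apply hne
      ext x
      have h5 : c (s (c x)) = s x := DFunLike.congr_fun h4 x
      have h6 : s (c x) ≤ s x := by
        rw [← h5]; exact hge _
      have h7 := hs.1.1.le_iff_le.1 h6
      exact le_antisymm h7 (hge x)
  · refine ⟨T10622 s, T_mem10622 hs, ?_, h⟩
    have := T_germs he
    rwa [neg_neg] at this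

end Pool.Agent.K9h94.ThF
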