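import Mathlib
import Pool.Agent.K9h94.ThF.Trans
import Pool.Agent.K9h94.ThF.Words

set_option autoImplicit false
set_option linter.unusedVariables false
set_option linter.deprecated false

namespace Pool.Agent.K9h94.ThF

open Pool.Agent.Helper283.PL Pool.Agent.Helper283

/-- the explicit description of `F` -/
theorem mem_F_iff (g : Equiv.Perm ℝ) : g ∈ Sup 0 1 ↔
    (StrictMono g ∧ (∀ x, x ≤ 0 ∨ 1 ≤ x → g x = x) ∧
      ∃ (n : ℕ) (t : ℕ → ℝ) (k : ℕ → ℤ) (c : ℕ → ℝ), t 0 = 0 ∧ t n = 1 ∧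
        (∀ i < n, t i < t (i + 1)) ∧ (∀ i ≤ n, ∃ (m : ℤ) (e : ℕ), t i = m / 2 ^ e) ∧
        ∀ i < n, ∀ x, t i ≤ x → x ≤ t (i + 1) → g x = (2 : ℝ) ^ k i * x + c i) := by
  constructor
  · intro hg
    obtain ⟨n, a, k, c, h0, h1, hlt, hdy, hdc, hx⟩ := part_all_10609 g hg.1.2
    have hcont : Continuous g := PLf.cont hg.1.2
    refine ⟨hg.1.1, hg.2, n, a, k, c, h0, h1, hlt, hdy, fun i hi x hx1 hx2 => ?_⟩
    have hE : Set.EqOn g (fun x => (2:ℝ) ^ (k i) * x + c i) (Set.Ico (a i) (a (i + 1))) :=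
      fun x hx' => hx i hi x hx'
    have hE2 := hE.closure hcont (by fun_prop)
    rw [closure_Ico (hlt i hi).ne] at hE2
    exact hE2 ⟨hx1, hx2⟩
  · rintro ⟨hm, hfix, n, t, k, c, h0, h1, hlt, hdy, hx⟩
    have hgt : ∀ i ≤ n, Dy (g (t i)) := by
      intro i
      induction i with
      | zero =>
        intro _
        rw [h0, hfix 0 (Or.inl le_rfl)]; exact Dy.zero
      | succ i ih =>
        intro hi
        have e1 := hx i (by omega) (t i) le_rfl (hlt i (by omega)).le
        have e2 := hx i (by omega) (t (i + 1)) (hlt i (by omega)).le le_rfl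
        have hc : Dy (c i) := by
          have : c i = g (t i) - (2 : ℝ) ^ k i * t i := by rw [e1]; ring
          rw [this]
          exact (ih (by omega)).sub ((Dy.zpow _).mul (hdy i (by omega)))
        rw [e2]
        exact ((Dy.zpow _).mul (hdy _ hi)).add hc
    refine V_sub_Sup_10609 g ⟨fun x hx => hfix x ?_, n, t, k, c, h0, h1, hlt, hdy, fun i hi => ?_,
      fun i hi x hx' => hx i hi x hx'.1 hx'.2.le⟩ (fun x _ y _ h => hm h)
    · rw [Set.mem_Ico, not_and_or, not_le, not_lt] at hx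
      rcases hx with h | h
      · exact Or.inl h.le
      · exact Or.inr h
    · have e1 := hx i hi (t i) le_rfl (hlt i hi).le
      have : c i = g (t i) - (2 : ℝ) ^ k i * t i := by rw [e1]; ring
      rw [this]
      exact (hgt i hi.le).sub ((Dy.zpow _).mul (hdy i hi.le))

/-- exponents of the germs at the two ends -/
noncomputable def gE (g : Sup 0 1) : ℤ × ℤ :=
  ((F_germs g.2).choose, (F_germs g.2).choose_spec.choose)

theorem gE_spec (g : Sup 0 1) : GermsAt (g : Equiv.Perm ℝ) (gE g).1 (gE g).2 :=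
  (F_germs g.2).choose_spec.choose_spec

theorem gE_eq {g : Sup 0 1} {k l : ℤ} (h : GermsAt (g : Equiv.Perm ℝ) k l) : gE g = (k, l) := by
  obtain ⟨h1, h2⟩ := (gE_spec g).unique h
  exact Prod.ext h1 h2

/-- the abelianisation of `F` -/
noncomputable def abF : Sup 0 1 →* Multiplicative (ℤ × ℤ) where
  toFun g := Multiplicative.ofAdd (gE g)
  map_one' := by
    rw [gE_eq (g := 1) (k := 0) (l := 0) GermsAt_one]; rfl
  map_mul' a b := by
    rw [gE_eq (GermsAt_mul a.2 b.2 (gE_spec a) (gE_spec b))]; rfl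

theorem abF_eq {g : Sup 0 1} {k l : ℤ} (h : GermsAt (g : Equiv.Perm ℝ) k l) :
    abF g = Multiplicative.ofAdd (k, l) := by
  show Multiplicative.ofAdd (gE g) = _
  rw [gE_eq h]

theorem good_F : Good abF where
  surj := by
    intro a
    obtain ⟨g, hg, h⟩ := surj_F (Multiplicative.toAdd a).1 (Multiplicative.toAdd a).2
    exact ⟨⟨g, hg⟩, abF_eq (g := ⟨g, hg⟩) h⟩
  comm := by
    intro g hg
    have h1 : gE g = (0, 0) := Multiplicative.ofAdd.injective hg
    have h2 := gE_spec g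
    rw [h1] at h2
    obtain ⟨X, hX, Y, hY, h⟩ := comm_F g.2 h2
    exact ⟨⟨X, hX⟩, ⟨Y, hY⟩, Subtype.ext h⟩
  sq := by
    intro g a hg
    have h1 : gE g = Multiplicative.toAdd a + Multiplicative.toAdd a :=
      Multiplicative.ofAdd.injective hg
    have h2 := gE_spec g
    rw [h1] at h2
    obtain ⟨X, hX, Y, hY, h⟩ := sq_F g.2 h2
    exact ⟨⟨X, hX⟩, ⟨Y, hY⟩, Subtype.ext h⟩

end Pool.Agent.K9h94.ThF
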