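import Mathlib
import Pool.Agent.K9h94.ThF.Trans
import Pool.Agent.H245R3.TF.Gen

set_option autoImplicit false
set_option linter.unusedVariables false
set_option linter.deprecated false

/-! The presented group is `F`. -/

namespace Pool.Agent.K9h94.ThF

open Pool.Agent.Helper283.PL Pool.Agent.Helper283

/-- the second generator -/
noncomputable def Y : Sup 0 1 := em [true] X

/-- the subgroup generated by the two elements -/
noncomputable def K : Subgroup (Sup 0 1) := Subgroup.closure {X, Y}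

theorem X_mem_K : X ∈ K := Subgroup.subset_closure (by simp)
theorem Y_mem_K : Y ∈ K := Subgroup.subset_closure (by simp)

theorem conj_X_ff (u : List Bool) (e : Sup 0 1) :
    X * em (false :: false :: u) e = em (false :: u) e * X := by
  apply conj_10184
  intro x h0 h1
  have h := aff_mem10170 u h0 h1
  rw [show false :: false :: u = [false, false] ++ u from rfl, show false :: u = [false] ++ u from rfl,
    aff_append10170, aff_append10170]
  exact X1 h.1 h.2

theorem conj_X_ft (u : List Bool) (e : Sup 0 1) :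
    X * em (false :: true :: u) e = em (true :: false :: u) e * X := by
  apply conj_10184
  intro x h0 h1
  have h := aff_mem10170 u h0 h1
  rw [show false :: true :: u = [false, true] ++ u from rfl,
    show true :: false :: u = [true, false] ++ u from rfl,
    aff_append10170, aff_append10170]
  exact X2 h.1 h.2

theorem conj_X_t (u : List Bool) (e : Sup 0 1) :
    X * em (true :: u) e = em (true :: true :: u) e * X := by
  apply conj_10184
  intro x h0 h1
  have h := aff_mem10170 u h0 h1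
  rw [show true :: true :: u = [true, true] ++ u from rfl,
    show true :: u = [true] ++ u from rfl,
    aff_append10170, aff_append10170]
  exact X3 h.1 h.2

theorem conj_Y_tff (u : List Bool) (e : Sup 0 1) :
    Y * em (true :: false :: false :: u) e = em (true :: false :: u) e * Y := by
  have h := congrArg (em [true]) (conj_X_ff u e)
  rw [map_mul, map_mul, em_em, em_em] at h
  exact h

theorem conj_Y_tft (u : List Bool) (e : Sup 0 1) :
    Y * em (true :: false :: true :: u) e = em (true :: true :: false :: u) e * Y := by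
  have h := congrArg (em [true]) (conj_X_ft u e)
  rw [map_mul, map_mul, em_em, em_em] at h
  exact h

theorem mem_of_conj {G : Type*} [Group G] {K : Subgroup G} {f a b : G} (hf : f ∈ K)
    (h : f * a = b * f) : a ∈ K ↔ b ∈ K := by
  have h1 : a = f⁻¹ * b * f := by rw [mul_assoc, ← h]; group
  have h2 : b = f * a * f⁻¹ := by rw [h]; group
  constructor
  · intro ha
    rw [h2]; exact K.mul_mem (K.mul_mem hf ha) (K.inv_mem hf)
  · intro hb
    rw [h1]; exact K.mul_mem (K.mul_mem (K.inv_mem hf) hb) hf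

theorem em_tt_mem : em [true, true] X ∈ K :=
  (mem_of_conj X_mem_K (conj_X_t [] X)).1 Y_mem_K

theorem em_f_mem : em [false] X ∈ K := by
  have h : em [false] X = X⁻¹ * Y⁻¹ * X * X := by
    have := pentagon
    rw [mul_assoc (X⁻¹ * Y⁻¹), this]
    unfold Y
    group
  rw [h]
  exact K.mul_mem (K.mul_mem (K.mul_mem (K.inv_mem X_mem_K) (K.inv_mem Y_mem_K)) X_mem_K) X_mem_K

theorem em_tf_mem : em [true, false] X ∈ K := by
  have h0 := congrArg (em [true]) pentagon
  rw [map_mul, map_mul, map_mul, em_em, em_em] at h0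
  have h0' : Y * Y = em [true, true] X * Y * em [true, false] X := h0
  have h : em [true, false] X = Y⁻¹ * (em [true, true] X)⁻¹ * Y * Y := by
    rw [mul_assoc (Y⁻¹ * _), h0']
    group
  rw [h]
  exact K.mul_mem (K.mul_mem (K.mul_mem (K.inv_mem Y_mem_K) (K.inv_mem em_tt_mem)) Y_mem_K) Y_mem_K

theorem em_mem (n : ℕ) : ∀ w : List Bool, w.length ≤ n → em w X ∈ K := by
  induction n with
  | zero =>
    intro w hw
    have : w = [] := List.eq_nil_of_length_eq_zero (by omega)
    subst this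
    rw [em_nil10185]; exact X_mem_K
  | succ n ih =>
    intro w hw
    match w, hw with
    | [], _ => rw [em_nil10185]; exact X_mem_K
    | [false], _ => exact em_f_mem
    | [true], _ => exact Y_mem_K
    | false :: false :: u, hw =>
      exact (mem_of_conj X_mem_K (conj_X_ff u X)).2 (ih _ (by simpa using hw))
    | true :: true :: u, hw =>
      exact (mem_of_conj X_mem_K (conj_X_t u X)).1 (ih _ (by simpa using hw))
    | [false, true], _ => exact (mem_of_conj X_mem_K (conj_X_ft [] X)).2 em_tf_mem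
    | [true, false], _ => exact em_tf_mem
    | true :: false :: false :: u, hw =>
      exact (mem_of_conj Y_mem_K (conj_Y_tff u X)).2 (ih _ (by simpa using hw))
    | true :: false :: true :: u, hw =>
      exact (mem_of_conj Y_mem_K (conj_Y_tft u X)).2
        ((mem_of_conj X_mem_K (conj_X_t (false :: u) X)).1 (ih _ (by simpa using hw)))
    | false :: true :: false :: u, hw =>
      exact (mem_of_conj X_mem_K (conj_X_ft (false :: u) X)).2
        ((mem_of_conj Y_mem_K (conj_Y_tff u X)).2 (ih _ (by simpa using hw)))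
    | false :: true :: true :: u, hw =>
      exact (mem_of_conj X_mem_K (conj_X_ft (true :: u) X)).2
        ((mem_of_conj Y_mem_K (conj_Y_tft u X)).2
          ((mem_of_conj X_mem_K (conj_X_t (false :: u) X)).1 (ih _ (by simpa using hw))))

theorem K_top (h : Sup 0 1) : h ∈ K := by
  have h1 := gen_X h
  have h2 : Subgroup.closure (Set.range (fun w => em w X)) ≤ K := by
    rw [Subgroup.closure_le]
    rintro _ ⟨w, rfl⟩
    exact em_mem w.length w le_rfl
  exact h2 h1

/-! ### the homomorphism -/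

open Pool.Agent.H245R3.TF in
/-- transport of order automorphisms of the line -/
noncomputable def Tj : Pool.Agent.H245R3.TF.H →* Equiv.Perm ℝ where
  toFun g := T10622 g.toEquiv
  map_one' := T_one
  map_mul' a b := T_mul10622 a.toEquiv b.toEquiv

theorem Tj_apply (g : Pool.Agent.H245R3.TF.H) (y : ℝ) : Tj g y = Tf10622 g y := rfl

theorem Tj_inj : Function.Injective Tj := by
  intro a b h
  have h1 : a.toEquiv = b.toEquiv := T_inj h
  exact RelIso.toEquiv_injective h1

theorem Tj_ext {g : Pool.Agent.H245R3.TF.H} {e : Sup 0 1}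
    (h : ∀ x, (e : Equiv.Perm ℝ) (Lam10622 x) = Lam10622 (g x)) : Tj g = e := by
  ext y
  rw [Tj_apply]
  by_cases hy : 0 < y ∧ y < 1
  · rw [Tf_in10622 _ hy.1 hy.2, ← h, Lam_hh10622 hy.1 hy.2]
  · have h' : y ≤ 0 ∨ 1 ≤ y := by
      by_contra hc
      push Not at hc
      exact hy hc
    rw [Tf_out10622 _ h', sup_out_10184 e h']

theorem Lam_mid {x : ℝ} (h0 : -1 ≤ x) (h1 : x ≤ 1) : Lam10622 x = 1 / 2 + x / 4 := by
  rcases le_total x 0 with h | h
  · rw [Lam_eq10622 (-1) x (by push_cast; linarith) (by push_cast; linarith)]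
    unfold kk10622 VV10622
    norm_num
    ring
  · rw [Lam_eq10622 0 x (by push_cast; linarith) (by push_cast; linarith)]
    unfold kk10622 VV10622
    norm_num
    ring

theorem Lam_12 {x : ℝ} (h0 : 1 ≤ x) (h1 : x ≤ 2) : Lam10622 x = 5 / 8 + x / 8 := by
  rw [Lam_eq10622 1 x (by push_cast; linarith) (by push_cast; linarith)]
  unfold kk10622 VV10622
  norm_num
  ring

theorem X_mid {y : ℝ} (h0 : 1 / 4 ≤ y) (h1 : y ≤ 1 / 2) : (X : Equiv.Perm ℝ) y = y + 1 / 4 := by
  have h := X2 (x := 4 * y - 1) (by linarith) (by linarith)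
  simp only [aff] at h
  norm_num at h
  rw [show (4 * y / 2 / 2 : ℝ) = y by ring] at h
  rw [h]
  ring

theorem Y_out {y : ℝ} (h : y ≤ 1 / 2 ∨ 1 ≤ y) : (Y : Equiv.Perm ℝ) y = y := by
  apply em_out
  simp only [aff]
  norm_num
  rcases h with h | h
  · left; linarith
  · right; linarith

theorem Y_in {z : ℝ} (h0 : 0 ≤ z) (h1 : z ≤ 1) :
    (Y : Equiv.Perm ℝ) ((z + 1) / 2) = ((X : Equiv.Perm ℝ) z + 1) / 2 := by
  have h := em_apply [true] X h0 h1
  show (em [true] X : Equiv.Perm ℝ) _ = _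
  simpa [aff] using h

theorem Tj_tau : Tj Pool.Agent.H245R3.TF.tau = X := by
  apply Tj_ext
  intro x
  rw [Pool.Agent.H245R3.TF.tau_apply]
  rcases lt_or_ge x (-1) with h | h
  · have h2 := Lam_shiftL10622 x 1 (by linarith) (by push_cast; linarith)
    have h3 : Lam10622 x ≤ 1 / 4 := by
      have := Lam_strict10622.monotone h.le
      rwa [Lam_mid le_rfl (by norm_num), show (1 / 2 + (-1 : ℝ) / 4) = 1 / 4 by norm_num] at this
    push_cast at h2
    rw [h2, X_zero10185 (Lam_pos10622 x).le h3, zpow_one]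
  · rcases lt_or_ge x 0 with h' | h'
    · rw [Lam_mid h (by linarith), Lam_mid (by linarith) (by linarith), X_mid (by linarith) (by linarith)]
      ring
    · have h2 := Lam_shiftR10622 x 1 h' (by push_cast; linarith)
      have h3 : 1 / 2 ≤ Lam10622 x := by
        have := Lam_strict10622.monotone h'
        rwa [Lam_mid (by norm_num) (by norm_num), zero_div, add_zero] at this
      push_cast at h2
      rw [h2, X_one10185 h3 (Lam_lt10622 x).le, zpow_neg, zpow_one]
      ring

theorem Tj_bet : Tj Pool.Agent.H245R3.TF.bet = Y := by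
  apply Tj_ext
  intro x
  rcases le_total x 0 with h | h
  · rw [Pool.Agent.H245R3.TF.bet_nonpos h]
    apply Y_out
    left
    have := Lam_strict10622.monotone h
    rwa [Lam_mid (x := 0) (by norm_num) (by norm_num), zero_div, add_zero] at this
  · rcases le_total x 1 with h1 | h1
    · rw [Pool.Agent.H245R3.TF.bet_mid h h1, Lam_mid (by linarith) h1,
        show 1 / 2 + x / 4 = (x / 2 + 1) / 2 by ring, Y_in (by linarith) (by linarith)]
      rcases le_total x (1 / 2) with h2 | h2
      · rw [X_zero10185 (by linarith) (by linarith), Lam_mid (by linarith) (by linarith)]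
        ring
      · rw [X_mid (by linarith) (by linarith), Lam_12 (by linarith) (by linarith)]
        ring
    · rw [Pool.Agent.H245R3.TF.bet_ge h1]
      have h2 := Lam_shiftR10622 x 1 h (by push_cast; linarith)
      have h3 : 3 / 4 ≤ Lam10622 x := by
        have := Lam_strict10622.monotone h1
        rw [Lam_mid (by norm_num) (by norm_num)] at this
        linarith
      have h4 := Lam_lt10622 x
      push_cast at h2
      rw [h2, show Lam10622 x = ((2 * Lam10622 x - 1) + 1) / 2 by ring, Y_in (by linarith) (by linarith),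
        X_one10185 (by linarith) (by linarith), zpow_neg, zpow_one]
      ring

/-- the composite -/
noncomputable def Th0 : Pool.Agent.H245R3.TF.G →* Equiv.Perm ℝ := Tj.comp Pool.Agent.H245R3.TF.rho

theorem Th0_a : Th0 Pool.Agent.H245R3.TF.ga = ((X⁻¹ : Sup 0 1) : Equiv.Perm ℝ) := by
  show Tj (Pool.Agent.H245R3.TF.rho Pool.Agent.H245R3.TF.ga) = _
  rw [Pool.Agent.H245R3.TF.rho_a, map_inv, Tj_tau]; rfl

theorem Th0_b : Th0 Pool.Agent.H245R3.TF.gb = ((Y⁻¹ : Sup 0 1) : Equiv.Perm ℝ) := by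
  show Tj (Pool.Agent.H245R3.TF.rho Pool.Agent.H245R3.TF.gb) = _
  rw [Pool.Agent.H245R3.TF.rho_b, map_inv, Tj_bet]; rfl

theorem Th0_mem (g : Pool.Agent.H245R3.TF.G) : Th0 g ∈ Sup 0 1 := by
  have h : (⊤ : Subgroup Pool.Agent.H245R3.TF.G) ≤ (Sup 0 1).comap Th0 := by
    rw [← PresentedGroup.closure_range_of, Subgroup.closure_le]
    rintro _ ⟨b, rfl⟩
    cases b
    · show Th0 Pool.Agent.H245R3.TF.ga ∈ Sup 0 1
      rw [Th0_a]; exact (X⁻¹ : Sup 0 1).2
    · show Th0 Pool.Agent.H245R3.TF.gb ∈ Sup 0 1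
      rw [Th0_b]; exact (Y⁻¹ : Sup 0 1).2
  exact h (Subgroup.mem_top g)

/-- the homomorphism onto `F` -/
noncomputable def Th1 : Pool.Agent.H245R3.TF.G →* Sup 0 1 := Th0.codRestrict (Sup 0 1) Th0_mem

theorem Th1_a : Th1 Pool.Agent.H245R3.TF.ga = X⁻¹ := Subtype.ext Th0_a
theorem Th1_b : Th1 Pool.Agent.H245R3.TF.gb = Y⁻¹ := Subtype.ext Th0_b

theorem Th1_inj : Function.Injective Th1 := by
  intro a b h
  have h1 : Th0 a = Th0 b := congrArg Subtype.val h
  exact Pool.Agent.H245R3.TF.rho_inj (Tj_inj h1)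

theorem Th1_surj : Function.Surjective Th1 := by
  intro g
  have h : K ≤ Th1.range := by
    unfold K
    rw [Subgroup.closure_le]
    intro x hx
    rcases hx with rfl | hx
    · exact ⟨Pool.Agent.H245R3.TF.ga⁻¹, by rw [map_inv, Th1_a, inv_inv]⟩
    · rw [Set.mem_singleton_iff] at hx
      subst hx
      exact ⟨Pool.Agent.H245R3.TF.gb⁻¹, by rw [map_inv, Th1_b, inv_inv]⟩
  exact h (K_top g)

/-- **the presented group is `F`** -/
noncomputable def Th : Pool.Agent.H245R3.TF.G ≃* Sup 0 1 := MulEquiv.ofBijective Th1 ⟨Th1_inj, Th1_surj⟩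

theorem Th_a : Th (PresentedGroup.of false) = X⁻¹ := Th1_a
theorem Th_b : Th (PresentedGroup.of true) = Y⁻¹ := Th1_b

/-! ### the two generators as maps -/

theorem Xinv_zero {y : ℝ} (h0 : 0 ≤ y) (h1 : y ≤ 1 / 2) :
    ((X⁻¹ : Sup 0 1) : Equiv.Perm ℝ) y = y / 2 := by
  have h := X_zero10185 (y := y / 2) (by linarith) (by linarith)
  have h2 : (X : Equiv.Perm ℝ) (y / 2) = y := by rw [h]; ring
  show (X : Equiv.Perm ℝ)⁻¹ y = _
  rw [Equiv.Perm.inv_eq_iff_eq, h2]

theorem Xinv_mid {y : ℝ} (h0 : 1 / 2 ≤ y) (h1 : y ≤ 3 / 4) :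
    ((X⁻¹ : Sup 0 1) : Equiv.Perm ℝ) y = y - 1 / 4 := by
  have h := X_mid (y := y - 1 / 4) (by linarith) (by linarith)
  have h2 : (X : Equiv.Perm ℝ) (y - 1 / 4) = y := by rw [h]; ring
  show (X : Equiv.Perm ℝ)⁻¹ y = _
  rw [Equiv.Perm.inv_eq_iff_eq, h2]

theorem Xinv_one {y : ℝ} (h0 : 3 / 4 ≤ y) (h1 : y ≤ 1) :
    ((X⁻¹ : Sup 0 1) : Equiv.Perm ℝ) y = 2 * y - 1 := by
  have h := X_one10185 (z := 2 * y - 1) (by linarith) (by linarith)
  have h2 : (X : Equiv.Perm ℝ) (2 * y - 1) = y := by rw [h]; ring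
  show (X : Equiv.Perm ℝ)⁻¹ y = _
  rw [Equiv.Perm.inv_eq_iff_eq, h2]

theorem Yinv_out {y : ℝ} (h : y ≤ 1 / 2 ∨ 1 ≤ y) : ((Y⁻¹ : Sup 0 1) : Equiv.Perm ℝ) y = y := by
  show (Y : Equiv.Perm ℝ)⁻¹ y = _
  rw [Equiv.Perm.inv_eq_iff_eq, Y_out h]

theorem Yinv_in {y : ℝ} (h0 : 1 / 2 ≤ y) (h1 : y ≤ 1) :
    ((Y⁻¹ : Sup 0 1) : Equiv.Perm ℝ) y = (((X⁻¹ : Sup 0 1) : Equiv.Perm ℝ) (2 * y - 1) + 1) / 2 := by
  show (Y : Equiv.Perm ℝ)⁻¹ y = _
  rw [Equiv.Perm.inv_eq_iff_eq]
  have h := sup_unit_10184 X⁻¹ (x := 2 * y - 1) (by linarith) (by linarith)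
  rw [Y_in h.1 h.2]
  have h3 : (X : Equiv.Perm ℝ) (((X⁻¹ : Sup 0 1) : Equiv.Perm ℝ) (2 * y - 1)) = 2 * y - 1 :=
    Equiv.apply_symm_apply (X : Equiv.Perm ℝ) _
  rw [h3]
  ring

theorem Xinv_germs : GermsAt ((X⁻¹ : Sup 0 1) : Equiv.Perm ℝ) (-1) 1 := by
  refine ⟨⟨1 / 4, by norm_num, fun x h0 h1 => ?_⟩, ⟨1 / 4, by norm_num, fun x h0 h1 => ?_⟩⟩
  · rw [Xinv_zero (by linarith) (by linarith), zpow_neg, zpow_one]; ring
  · rw [Xinv_one (by linarith) (by linarith), zpow_one]; ring

theorem Yinv_germs : GermsAt ((Y⁻¹ : Sup 0 1) : Equiv.Perm ℝ) 0 1 := by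
  refine ⟨⟨1 / 8, by norm_num, fun x h0 h1 => ?_⟩, ⟨1 / 8, by norm_num, fun x h0 h1 => ?_⟩⟩
  · rw [Yinv_out (Or.inl (by linarith)), zpow_zero]; ring
  · rw [Yinv_in (by linarith) (by linarith), Xinv_one (by linarith) (by linarith), zpow_one]; ring

end Pool.Agent.K9h94.ThF
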