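import Mathlib
import Pool.Agent.K9h94.ThF.Words

set_option autoImplicit false
set_option linter.unusedVariables false
set_option linter.unusedSimpArgs false

/-!
Spherical and projective equations over a group, and the reduction of the remaining quadratic
words to them.
-/

namespace Pool.Agent.K9h94.ThF

section CP

variable {G A : Type} [Group G] [CommGroup A]

/-- products of conjugates of the members of a list -/
def CP : List G → Set G
  | [] => {1}
  | c :: cs => {g | ∃ y h, h ∈ CP cs ∧ g = y * c * y⁻¹ * h}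

theorem CP_prod (cs : List G) : cs.prod ∈ CP cs := by
  induction cs with
  | nil => exact rfl
  | cons c cs ih => exact ⟨1, cs.prod, ih, by simp⟩

theorem CP_ab (ab : G →* A) (cs : List G) : ∀ g ∈ CP cs, ab g = ab cs.prod := by
  induction cs with
  | nil => rintro g rfl; simp
  | cons c cs ih =>
    rintro g ⟨y, h, hh, rfl⟩
    rw [List.prod_cons]
    simp only [map_mul, map_inv, ih h hh]
    rw [mul_comm (ab y) (ab c), mul_inv_cancel_right]

theorem CP_perm {l l' : List G} (h : l.Perm l') : CP l = CP l' := by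
  induction h with
  | nil => rfl
  | cons x _ ih =>
    show {g | ∃ y h, h ∈ CP _ ∧ g = y * x * y⁻¹ * h} = {g | ∃ y h, h ∈ CP _ ∧ g = y * x * y⁻¹ * h}
    rw [ih]
  | swap a b l =>
    have key : ∀ (a b : G) (l : List G), CP (a :: b :: l) ⊆ CP (b :: a :: l) := by
      rintro a b l g ⟨y, h, ⟨z, k, hk, rfl⟩, rfl⟩
      refine ⟨y * a * y⁻¹ * z, y * a * y⁻¹ * k, ⟨y, k, hk, rfl⟩, ?_⟩
      group
    exact Set.Subset.antisymm (key _ _ _) (key _ _ _)
  | trans _ _ h1 h2 => rw [h1, h2]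

theorem CP_conj (cs : List G) : ∀ g ∈ CP cs, ∀ y : G, y * g * y⁻¹ ∈ CP cs := by
  induction cs with
  | nil => rintro g rfl y; show y * 1 * y⁻¹ = 1; group
  | cons c cs ih =>
    rintro g ⟨z, h, hh, rfl⟩ y
    exact ⟨y * z, y * h * y⁻¹, ih h hh y, by group⟩

theorem CP_append (a b : List G) : CP (a ++ b) = {g | ∃ x ∈ CP a, ∃ y ∈ CP b, g = x * y} := by
  induction a with
  | nil =>
    ext g
    constructor
    · intro h; exact ⟨1, rfl, g, h, by simp⟩
    · rintro ⟨x, rfl, y, hy, rfl⟩; simpa using hy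
  | cons c a ih =>
    rw [List.cons_append]
    ext g
    constructor
    · rintro ⟨z, h, hh, rfl⟩
      rw [ih] at hh
      obtain ⟨x, hx, y, hy, rfl⟩ := hh
      exact ⟨z * c * z⁻¹ * x, ⟨z, x, hx, rfl⟩, y, hy, by group⟩
    · rintro ⟨x, ⟨z, h, hh, rfl⟩, y, hy, rfl⟩
      refine ⟨z, h * y, ?_, by group⟩
      rw [ih]; exact ⟨h, hh, y, hy, rfl⟩

theorem CP_single (c : G) : CP [c] = {g | ∃ y, g = y * c * y⁻¹} := by
  ext g
  constructor
  · rintro ⟨y, h, rfl, rfl⟩; exact ⟨y, by simp⟩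
  · rintro ⟨y, rfl⟩; exact ⟨y, 1, rfl, by simp⟩

/-- what we need about the upward elements -/
structure Tri (ab : G →* A) (U : Set G) : Prop where
  tri : ∀ f ∈ U, ∀ h ∈ U, ∀ g, g ≠ 1 → ab h = ab f * ab g →
    ∃ C1 C2, g = (C1 * f * C1⁻¹)⁻¹ * (C2 * h * C2⁻¹)
  centre : ∀ g : G, g ≠ 1 → ∃ y : G, y * g ≠ g * y
  avoid : ∀ a r, ∃ s, ab s = a ∧ s * s ≠ r

variable {ab : G →* A} {U : Set G}

theorem CP_ne_one (h : Tri ab U) {r : G} (hr : r ≠ 1) (rest : List G) :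
    ∃ x ∈ CP (r :: rest), x ≠ 1 := by
  by_cases h1 : (r :: rest).prod = 1
  · obtain ⟨y, hy⟩ := h.centre r hr
    refine ⟨y * r * y⁻¹ * rest.prod, ⟨y, _, CP_prod rest, rfl⟩, fun h2 => hy ?_⟩
    rw [List.prod_cons] at h1
    have h3 : y * r * y⁻¹ = r := by
      rw [eq_inv_of_mul_eq_one_left h2, ← eq_inv_of_mul_eq_one_left h1]
    calc y * r = y * r * y⁻¹ * y := by group
      _ = r * y := by rw [h3]
  · exact ⟨_, CP_prod _, h1⟩

/-- the product of an upward class, a downward class and any nontrivial element -/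
theorem tri_solve (h : Tri ab U) {u d x : G} (hu : u ∈ U) (hd : d⁻¹ ∈ U) (hx : x ≠ 1)
    (hab : ab u * ab d * ab x = 1) : ∃ y z, y * u * y⁻¹ * (z * d * z⁻¹ * x) = 1 := by
  obtain ⟨C1, C2, hC⟩ := h.tri d⁻¹ hd u hu x⁻¹ (by simpa using hx) (by
    rw [map_inv, map_inv, ← mul_inv, eq_inv_iff_mul_eq_one, ← mul_assoc]; exact hab)
  have h1 : x⁻¹ = C1 * d * C1⁻¹ * (C2 * u * C2⁻¹) := by rw [hC]; group
  refine ⟨(C1 * d * C1⁻¹) * C2, C1, ?_⟩
  have h2 : x = (C1 * d * C1⁻¹ * (C2 * u * C2⁻¹))⁻¹ := by rw [← h1, inv_inv]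
  rw [h2]; group

theorem sphere_iff (h : Tri ab U) {u d r : G} {cs rest : List G}
    (hp : cs.Perm (u :: d :: r :: rest)) (hu : u ∈ U) (hd : d⁻¹ ∈ U) (hr : r ≠ 1) :
    1 ∈ CP cs ↔ ab cs.prod = 1 := by
  have hprod : ab cs.prod = ab u * ab d * ab (r :: rest).prod := by
    rw [← CP_ab ab cs cs.prod (CP_prod cs), ]
    have h1 : (u :: d :: r :: rest).prod ∈ CP cs := by rw [CP_perm hp]; exact CP_prod _
    rw [← CP_ab ab cs _ h1, List.prod_cons, List.prod_cons, map_mul, map_mul, mul_assoc]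
  constructor
  · intro h1
    rw [← CP_ab ab cs 1 h1, map_one]
  · intro h1
    rw [CP_perm hp]
    obtain ⟨x, hx, hx1⟩ := CP_ne_one h hr rest
    obtain ⟨y, z, hyz⟩ := tri_solve h hu hd hx1 (by rw [CP_ab ab _ x hx, ← hprod, h1])
    exact ⟨y, z * d * z⁻¹ * x, ⟨z, x, hx, rfl⟩, hyz.symm⟩

theorem proj_iff (h : Tri ab U) {u d : G} {cs rest : List G}
    (hp : cs.Perm (u :: d :: rest)) (hu : u ∈ U) (hd : d⁻¹ ∈ U) :
    (∃ s, ∃ g ∈ CP cs, s * s * g = 1) ↔ ∃ r, ab cs.prod = r * r := by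
  have hprod : ab cs.prod = ab u * ab d * ab rest.prod := by
    have h1 : (u :: d :: rest).prod ∈ CP cs := by rw [CP_perm hp]; exact CP_prod _
    rw [← CP_ab ab cs _ h1, List.prod_cons, List.prod_cons, map_mul, map_mul, mul_assoc]
  constructor
  · rintro ⟨s, g, hg, h1⟩
    refine ⟨ab s⁻¹, ?_⟩
    rw [← CP_ab ab cs g hg, ← map_mul]
    congr 1
    rw [← mul_inv_rev, eq_inv_iff_mul_eq_one]
    have : g = (s * s)⁻¹ := (eq_inv_of_mul_eq_one_right h1)
    rw [this]; group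
  · rintro ⟨r, hr⟩
    rw [CP_perm hp]
    obtain ⟨s, hs, hs2⟩ := h.avoid r⁻¹ (rest.prod)⁻¹
    have hx1 : rest.prod * (s * s) ≠ 1 := fun h1 => hs2 (eq_inv_of_mul_eq_one_right h1)
    obtain ⟨y, z, hyz⟩ := tri_solve h hu hd hx1 (by
      rw [map_mul, map_mul, hs, ← mul_assoc, ← hprod, hr]
      rw [mul_assoc, ← mul_assoc r r⁻¹, mul_inv_cancel, one_mul, mul_inv_cancel])
    refine ⟨s, y * u * y⁻¹ * (z * d * z⁻¹ * rest.prod),
      ⟨y, _, ⟨z, _, CP_prod rest, rfl⟩, rfl⟩, ?_⟩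
    have : s * s * (y * u * y⁻¹ * (z * d * z⁻¹ * rest.prod)) =
      (s * s) * (y * u * y⁻¹ * (z * d * z⁻¹ * (rest.prod * (s * s)))) * (s * s)⁻¹ := by group
    rw [this, hyz]; group

end CP

end Pool.Agent.K9h94.ThF
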