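import Mathlib
import Pool.Agent.K9h94.ThF.Sphere

set_option autoImplicit false
set_option linter.unusedVariables false
set_option linter.unusedSimpArgs false

/-!
Quadratic words without a handle reduce to spherical and projective equations.
-/

namespace Pool.Agent.K9h94.ThF

section comb

/-- no same-sign variable and no two interleaved variables -/
def Planar (v : List (Bool × ℕ)) : Prop :=
  Quad v ∧ ¬ SameSign v ∧
    ∀ X Y, X ≠ Y → ∀ a b c d : Bool, restr v X Y ≠ [(a, X), (b, Y), (c, X), (d, Y)]

/-- number of occurrences of a variable -/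
def oc (n : ℕ) (v : List (Bool × ℕ)) : ℕ := v.countP (fun q => q.2 = n)

theorem oc_append (n : ℕ) (a b : List (Bool × ℕ)) : oc n (a ++ b) = oc n a + oc n b := by
  simp [oc, List.countP_append]

theorem oc_cons_self (n : ℕ) (s : Bool) (a : List (Bool × ℕ)) :
    oc n ((s, n) :: a) = oc n a + 1 := by
  simp [oc, List.countP_cons]

theorem oc_cons_ne {n k : ℕ} (h : n ≠ k) (s : Bool) (a : List (Bool × ℕ)) :
    oc k ((s, n) :: a) = oc k a := by
  simp [oc, List.countP_cons, h]

theorem oc_nil (n : ℕ) : oc n [] = 0 := by simp [oc]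

theorem count_le_oc (s : Bool) (n : ℕ) (v : List (Bool × ℕ)) : v.count (s, n) ≤ oc n v := by
  unfold oc List.count
  apply List.countP_mono_left
  rintro ⟨t, m⟩ _ h
  have := eq_of_beq h
  simp only [Prod.mk.injEq] at this
  simp [this.2]

theorem mem_of_oc {n : ℕ} {v : List (Bool × ℕ)} (h : oc n v = 0) {q : Bool × ℕ} (hq : q ∈ v) :
    q.2 ≠ n := by
  unfold oc at h
  rw [List.countP_eq_zero] at h
  simpa using h q hq

theorem oc_pos {n : ℕ} {v : List (Bool × ℕ)} {q : Bool × ℕ} (hq : q ∈ v) (h : q.2 = n) :
    0 < oc n v := by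
  rcases Nat.eq_zero_or_pos (oc n v) with h1 | h1
  · exact absurd h (mem_of_oc h1 hq)
  · exact h1

theorem restr_append (a b : List (Bool × ℕ)) (X Y : ℕ) :
    restr (a ++ b) X Y = restr a X Y ++ restr b X Y := by
  simp [restr]

theorem restr_cons_ne {X Y n : ℕ} (h1 : n ≠ X) (h2 : n ≠ Y) (s : Bool) (a : List (Bool × ℕ)) :
    restr ((s, n) :: a) X Y = restr a X Y := by
  simp [restr, h1, h2]

theorem restr_cons_l (X Y : ℕ) (s : Bool) (a : List (Bool × ℕ)) :
    restr ((s, X) :: a) X Y = (s, X) :: restr a X Y := by
  simp [restr]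

theorem restr_cons_r (X Y : ℕ) (s : Bool) (a : List (Bool × ℕ)) :
    restr ((s, Y) :: a) X Y = (s, Y) :: restr a X Y := by
  simp [restr]

theorem restr_eq_nil {v : List (Bool × ℕ)} {X Y : ℕ} (hX : oc X v = 0) (hY : oc Y v = 0) :
    restr v X Y = [] := by
  unfold restr
  rw [List.filter_eq_nil_iff]
  intro q hq
  have h1 := mem_of_oc hX hq
  have h2 := mem_of_oc hY hq
  simp [h1, h2]

theorem mem_restr {v : List (Bool × ℕ)} {X Y : ℕ} {q : Bool × ℕ} (h : q ∈ restr v X Y) : q ∈ v :=
  List.mem_of_mem_filter h

/-- only the letters of `Y` -/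
def only (Y : ℕ) (v : List (Bool × ℕ)) : List (Bool × ℕ) := v.filter (fun q => q.2 = Y)

theorem only_append (Y : ℕ) (a b : List (Bool × ℕ)) : only Y (a ++ b) = only Y a ++ only Y b := by
  simp [only]

theorem only_length (Y : ℕ) (v : List (Bool × ℕ)) : (only Y v).length = oc Y v := by
  unfold only oc
  rw [List.countP_eq_length_filter]

theorem restr_only {v : List (Bool × ℕ)} {n Y : ℕ} (h : oc n v = 0) :
    restr v n Y = only Y v := by
  unfold restr only
  apply List.filter_congr
  intro q hq
  have := mem_of_oc h hq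
  simp [this]

theorem only_mem {Y : ℕ} {v : List (Bool × ℕ)} {q : Bool × ℕ} (h : q ∈ only Y v) :
    q ∈ v ∧ q.2 = Y := by
  simpa [only] using h

theorem planar_remove {v1 v2 : List (Bool × ℕ)} {s t : Bool} {n : ℕ}
    (h : Planar (v1 ++ (s, n) :: (t, n) :: v2)) : Planar (v1 ++ v2) := by
  obtain ⟨hq, hs, hp⟩ := h
  have hn : oc n (v1 ++ v2) = 0 := by
    have h1 := hq n
    change oc n _ = 0 ∨ oc n _ = 2 at h1
    rw [oc_append, oc_cons_self, oc_cons_self] at h1
    rw [oc_append]; omega
  have hk : ∀ k, k ≠ n → oc k (v1 ++ (s, n) :: (t, n) :: v2) = oc k (v1 ++ v2) := by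
    intro k hk
    rw [oc_append, oc_cons_ne (Ne.symm hk), oc_cons_ne (Ne.symm hk), oc_append]
  refine ⟨fun k => ?_, ?_, ?_⟩
  · by_cases h1 : k = n
    · left; rw [h1]; exact hn
    · have h2 := hq k
      change oc k _ = 0 ∨ oc k _ = 2 at h2
      rw [hk k h1] at h2
      exact h2
  · rintro ⟨a, k, h1⟩
    have h2 : k ≠ n := by
      rintro rfl
      have := count_le_oc a k (v1 ++ v2)
      omega
    apply hs
    refine ⟨a, k, ?_⟩
    rw [List.count_append] at h1 ⊢
    rw [List.count_cons_of_ne (by simp [h2.symm]), List.count_cons_of_ne (by simp [h2.symm])]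
    exact h1
  · intro X Y hXY a b c d h1
    have hX : X ≠ n := by
      rintro rfl
      have : (a, X) ∈ v1 ++ v2 := mem_restr (by rw [h1]; simp)
      exact mem_of_oc hn this rfl
    have hY : Y ≠ n := by
      rintro rfl
      have : (b, Y) ∈ v1 ++ v2 := mem_restr (by rw [h1]; simp)
      exact mem_of_oc hn this rfl
    apply hp X Y hXY a b c d
    rw [restr_append, restr_cons_ne hX.symm hY.symm, restr_cons_ne hX.symm hY.symm,
      ← restr_append, h1]

theorem oc_restr_pat {v : List (Bool × ℕ)} {X Y : ℕ} (hXY : X ≠ Y) {a b c d : Bool}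
    (h : restr v X Y = [(a, X), (b, Y), (c, X), (d, Y)]) : 2 ≤ oc X v ∧ 2 ≤ oc Y v := by
  have hX : oc X v = oc X (restr v X Y) := by
    unfold oc restr
    rw [List.countP_filter]
    congr 1
    funext q
    by_cases h : q.2 = X <;> simp [h]
  have hY : oc Y v = oc Y (restr v X Y) := by
    unfold oc restr
    rw [List.countP_filter]
    congr 1
    funext q
    by_cases h : q.2 = Y <;> simp [h]
  rw [hX, hY, h]
  rw [oc_cons_self, oc_cons_ne hXY.symm, oc_cons_self, oc_cons_ne hXY.symm, oc_nil]
  rw [oc_cons_ne hXY, oc_cons_self, oc_cons_ne hXY, oc_cons_self, oc_nil]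
  omega

theorem planar_adj : ∀ (N : ℕ) (v : List (Bool × ℕ)), v.length ≤ N → Planar v → v ≠ [] →
    ∃ v1 s n v2, v = v1 ++ (s, n) :: (!s, n) :: v2 := by
  intro N
  induction N with
  | zero =>
    intro v hv _ hne
    exact absurd (List.length_eq_zero_iff.1 (by omega)) hne
  | succ N ih =>
    intro v hv hp hne
    rcases v with _ | ⟨⟨s, n⟩, v⟩
    · exact absurd rfl hne
    obtain ⟨hq, hs, hpl⟩ := hp
    obtain ⟨s', a, b, rfl, hab, h0⟩ := quad_split hq
    change oc n (a ++ b) = 0 at h0
    have hna : oc n a = 0 := by rw [oc_append] at h0; omega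
    have hnb : oc n b = 0 := by rw [oc_append] at h0; omega
    rcases List.eq_nil_or_concat a with ha | ha
    · subst ha
      refine ⟨[], s, n, b, ?_⟩
      have : s' = !s := by
        rcases Bool.eq_or_eq_not s' s with h | h
        · exfalso
          apply hs
          refine ⟨s, n, ?_⟩
          have h1 := count_le_oc s n b
          rw [h, List.nil_append, List.count_cons_self, List.count_cons_self]
          omega
        · exact h
      rw [this]; rfl
    · have hane : a ≠ [] := by
        rintro rfl
        obtain ⟨L, x, hx⟩ := ha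
        simp at hx
      have hoc : ∀ m, m ≠ n → oc m ((s, n) :: (a ++ (s', n) :: b)) = oc m a + oc m b := by
        intro m hm
        rw [oc_cons_ne hm.symm, oc_append, oc_cons_ne hm.symm]
      have hqa : Quad a := by
        intro m
        change oc m a = 0 ∨ oc m a = 2
        by_cases hm : m = n
        · left; rw [hm]; exact hna
        have h1 := hq m
        change oc m _ = 0 ∨ oc m _ = 2 at h1
        rw [hoc m hm] at h1
        by_contra hcon
        have h2 : oc m a = 1 := by omega
        have h3 : oc m b = 1 := by omega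
        obtain ⟨x, hx⟩ := List.length_eq_one_iff.1 ((only_length m a).trans h2)
        obtain ⟨y, hy⟩ := List.length_eq_one_iff.1 ((only_length m b).trans h3)
        obtain ⟨x1, x2⟩ := x
        obtain ⟨y1, y2⟩ := y
        have hx2 : x2 = m := (only_mem (by rw [hx]; simp : (x1, x2) ∈ only m a)).2
        have hy2 : y2 = m := (only_mem (by rw [hy]; simp : (y1, y2) ∈ only m b)).2
        subst hx2; subst hy2
        apply hpl n y2 (Ne.symm hm) s x1 s' y1
        rw [restr_cons_l, restr_append, restr_cons_l, restr_only hna, restr_only hnb, hx, hy]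
        rfl
      have hpa : Planar a := by
        refine ⟨hqa, ?_, ?_⟩
        · rintro ⟨t, m, htm⟩
          apply hs
          refine ⟨t, m, ?_⟩
          have h1 := count_le_oc t m a
          have h2 := hqa m
          change oc m a = 0 ∨ oc m a = 2 at h2
          have hm : m ≠ n := by
            rintro rfl; omega
          have h3 := hq m
          change oc m _ = 0 ∨ oc m _ = 2 at h3
          rw [hoc m hm] at h3
          have h4 := count_le_oc t m b
          rw [List.count_cons_of_ne (by simp [hm.symm]), List.count_append,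
            List.count_cons_of_ne (by simp [hm.symm])]
          omega
        · intro X Y hXY a1 b1 c1 d1 h1
          obtain ⟨h2, h3⟩ := oc_restr_pat hXY h1
          have hX : X ≠ n := by rintro rfl; omega
          have hY : Y ≠ n := by rintro rfl; omega
          have h4 := hq X
          change oc X _ = 0 ∨ oc X _ = 2 at h4
          rw [hoc X hX] at h4
          have h5 := hq Y
          change oc Y _ = 0 ∨ oc Y _ = 2 at h5
          rw [hoc Y hY] at h5
          apply hpl X Y hXY a1 b1 c1 d1
          rw [restr_cons_ne hX.symm hY.symm, restr_append, restr_cons_ne hX.symm hY.symm,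
            restr_eq_nil (v := b) (by omega) (by omega), List.append_nil, h1]
      obtain ⟨a1, t, m, a2, ha12⟩ := ih a (by
        simp only [List.length_cons, List.length_append] at hv; omega) hpa hane
      refine ⟨(s, n) :: a1, t, m, a2 ++ (s', n) :: b, ?_⟩
      rw [ha12]; simp

/-- formal inverse of a sequence of signed variables -/
def vinv (v : List (Bool × ℕ)) : List (Bool × ℕ) := (v.map (fun q => (!q.1, q.2))).reverse

theorem vinv_vinv (v : List (Bool × ℕ)) : vinv (vinv v) = v := by
  simp [vinv, List.map_reverse, Function.comp_def]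

theorem oc_vinv (n : ℕ) (v : List (Bool × ℕ)) : oc n (vinv v) = oc n v := by
  unfold oc vinv
  rw [List.countP_reverse, List.countP_map]
  rfl

theorem restr_vinv (v : List (Bool × ℕ)) (X Y : ℕ) :
    restr (vinv v) X Y = vinv (restr v X Y) := by
  unfold restr vinv
  rw [List.filter_reverse, List.filter_map]
  rfl

theorem only_vinv (v : List (Bool × ℕ)) (Y : ℕ) : only Y (vinv v) = vinv (only Y v) := by
  unfold only vinv
  rw [List.filter_reverse, List.filter_map]
  rfl

end comb

end Pool.Agent.K9h94.ThF
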