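import Mathlib
import Pool.Agent.K9h94.ThF.Reduce

set_option autoImplicit false
set_option linter.unusedVariables false
set_option linter.unusedSimpArgs false

namespace Pool.Agent.K9h94.ThF

theorem split2 {α : Type} {r1 m r3 : List α} {x y : α} (h : r1 ++ (m ++ r3) = [x, y]) :
    (r1 = [] ∧ m = [] ∧ r3 = [x, y]) ∨ (r1 = [] ∧ m = [x] ∧ r3 = [y]) ∨
    (r1 = [] ∧ m = [x, y] ∧ r3 = []) ∨ (r1 = [x] ∧ m = [] ∧ r3 = [y]) ∨
    (r1 = [x] ∧ m = [y] ∧ r3 = []) ∨ (r1 = [x, y] ∧ m = [] ∧ r3 = []) := by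
  rcases r1 with _ | ⟨a, _ | ⟨b, _ | ⟨c, r1⟩⟩⟩ <;>
  rcases m with _ | ⟨d, _ | ⟨e, _ | ⟨f, m⟩⟩⟩ <;> simp_all

theorem split4 {α : Type} {r1 m r3 : List α} {x y z w : α} (h : r1 ++ (m ++ r3) = [x, y, z, w]) :
    (r1 = [] ∧ m = [] ∧ r3 = [x, y, z, w]) ∨ (r1 = [] ∧ m = [x] ∧ r3 = [y, z, w]) ∨
    (r1 = [] ∧ m = [x, y] ∧ r3 = [z, w]) ∨ (r1 = [] ∧ m = [x, y, z] ∧ r3 = [w]) ∨
    (r1 = [] ∧ m = [x, y, z, w] ∧ r3 = []) ∨
    (r1 = [x] ∧ m = [] ∧ r3 = [y, z, w]) ∨ (r1 = [x] ∧ m = [y] ∧ r3 = [z, w]) ∨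
    (r1 = [x] ∧ m = [y, z] ∧ r3 = [w]) ∨ (r1 = [x] ∧ m = [y, z, w] ∧ r3 = []) ∨
    (r1 = [x, y] ∧ m = [] ∧ r3 = [z, w]) ∨ (r1 = [x, y] ∧ m = [z] ∧ r3 = [w]) ∨
    (r1 = [x, y] ∧ m = [z, w] ∧ r3 = []) ∨
    (r1 = [x, y, z] ∧ m = [] ∧ r3 = [w]) ∨ (r1 = [x, y, z] ∧ m = [w] ∧ r3 = []) ∨
    (r1 = [x, y, z, w] ∧ m = [] ∧ r3 = []) := by
  rcases r1 with _ | ⟨a, _ | ⟨b, _ | ⟨c, _ | ⟨d, _ | ⟨e, r1⟩⟩⟩⟩⟩ <;>
  rcases m with _ | ⟨a', _ | ⟨b', _ | ⟨c', _ | ⟨d', _ | ⟨e', m⟩⟩⟩⟩⟩ <;> simp_all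


theorem handle_A {v : List (Bool × ℕ)} {X Y : ℕ} (h : X ≠ Y) {a b c d : Bool}
    (hv : restr v X Y = [(a, X), (b, Y), (c, X), (d, Y)]) (hne : a ≠ c ∨ b ≠ d) : Handle v :=
  ⟨X, Y, h, a, b, c, d, Or.inl ⟨hv, hne⟩⟩

theorem handle_B {v : List (Bool × ℕ)} {X Y : ℕ} (h : X ≠ Y) {a b : Bool}
    (hv : restr v X Y = [(a, X), (a, X), (b, Y), (b, Y)]) : Handle v :=
  ⟨X, Y, h, a, b, a, b, Or.inr (Or.inl hv)⟩

theorem handle_C {v : List (Bool × ℕ)} {X Y : ℕ} (h : X ≠ Y) {a b : Bool}
    (hv : restr v X Y = [(a, X), (b, Y), (b, Y), (a, X)]) : Handle v :=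
  ⟨X, Y, h, a, b, a, b, Or.inr (Or.inr hv)⟩

theorem restr_swap (v : List (Bool × ℕ)) (X Y : ℕ) : restr v X Y = restr v Y X := by
  unfold restr
  apply List.filter_congr
  intro q _
  simp [or_comm]

theorem planar_of_not_handle {v1 v2 v3 : List (Bool × ℕ)} {s : Bool} {n : ℕ}
    (hq : Quad (v1 ++ (s, n) :: (v2 ++ (s, n) :: v3)))
    (hh : ¬ Handle (v1 ++ (s, n) :: (v2 ++ (s, n) :: v3))) :
    Planar (v1 ++ (vinv v2 ++ v3)) := by
  have h0 : oc n v1 = 0 ∧ oc n v2 = 0 ∧ oc n v3 = 0 := by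
    have h1 := hq n
    change oc n _ = 0 ∨ oc n _ = 2 at h1
    rw [oc_append, oc_cons_self, oc_append, oc_cons_self] at h1
    omega
  obtain ⟨hn1, hn2, hn3⟩ := h0
  have hk : ∀ k, k ≠ n → oc k (v1 ++ (s, n) :: (v2 ++ (s, n) :: v3)) =
      oc k (v1 ++ (vinv v2 ++ v3)) := by
    intro k hk
    rw [oc_append, oc_cons_ne hk.symm, oc_append, oc_cons_ne hk.symm, oc_append, oc_append,
      oc_vinv]
  have hn : oc n (v1 ++ (vinv v2 ++ v3)) = 0 := by
    rw [oc_append, oc_append, oc_vinv]; omega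
  have hq' : Quad (v1 ++ (vinv v2 ++ v3)) := by
    intro k
    change oc k _ = 0 ∨ oc k _ = 2
    by_cases h1 : k = n
    · left; rw [h1]; exact hn
    · rw [← hk k h1]; exact hq k
  have hs' : ¬ SameSign (v1 ++ (vinv v2 ++ v3)) := by
    rintro ⟨t, Y, hc⟩
    have hY : Y ≠ n := by
      rintro rfl
      have := count_le_oc t Y (v1 ++ (vinv v2 ++ v3))
      omega
    have hlen : (only Y (v1 ++ (vinv v2 ++ v3))).length = 2 := by
      rw [only_length]
      have h1 := count_le_oc t Y (v1 ++ (vinv v2 ++ v3))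
      have h2 := hq' Y
      change oc Y _ = 0 ∨ oc Y _ = 2 at h2
      omega
    have hrep : only Y (v1 ++ (vinv v2 ++ v3)) = [(t, Y), (t, Y)] := by
      have : only Y (v1 ++ (vinv v2 ++ v3)) = List.replicate 2 (t, Y) := by
        rw [List.eq_replicate_iff]
        refine ⟨hlen, ?_⟩
        rintro ⟨u, k⟩ hq
        obtain ⟨h1, h2⟩ := only_mem hq
        simp only at h2
        subst h2
        have := sameSign_mem hq' hc _ h1 rfl
        simp only at this
        rw [this]
      rw [this]; rfl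
    rw [only_append, only_append, only_vinv] at hrep
    have hres : restr (v1 ++ (s, n) :: (v2 ++ (s, n) :: v3)) n Y =
        only Y v1 ++ (s, n) :: (only Y v2 ++ (s, n) :: only Y v3) := by
      rw [restr_append, restr_cons_l, restr_append, restr_cons_l, restr_only hn1, restr_only hn2,
        restr_only hn3]
    rw [← vinv_vinv (only Y v2)] at hres
    rcases split2 hrep with ⟨e1, e2, e3⟩ | ⟨e1, e2, e3⟩ | ⟨e1, e2, e3⟩ | ⟨e1, e2, e3⟩ |
      ⟨e1, e2, e3⟩ | ⟨e1, e2, e3⟩ <;> rw [e1, e2, e3] at hres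
    · exact hh (handle_B hY.symm (a := s) (b := t) (by simpa [vinv] using hres))
    · exact hh (handle_A hY.symm (a := s) (b := !t) (c := s) (d := t)
        (by simpa [vinv] using hres) (Or.inr (by simp)))
    · exact hh (handle_C hY.symm (a := s) (b := !t) (by simpa [vinv] using hres))
    · rw [restr_swap] at hres
      exact hh (handle_C hY (a := t) (b := s) (by simpa [vinv] using hres))
    · rw [restr_swap] at hres
      exact hh (handle_A hY (a := t) (b := s) (c := !t) (d := s)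
        (by simpa [vinv] using hres) (Or.inl (by simp)))
    · rw [restr_swap] at hres
      exact hh (handle_B hY (a := t) (b := s) (by simpa [vinv] using hres))
  refine ⟨hq', hs', ?_⟩
  intro Y Z hYZ a b c d hres'
  have hocs := oc_restr_pat hYZ hres'
  have hY : Y ≠ n := by rintro rfl; omega
  have hZ : Z ≠ n := by rintro rfl; omega
  have hres : restr (v1 ++ (s, n) :: (v2 ++ (s, n) :: v3)) Y Z =
      restr v1 Y Z ++ (vinv (vinv (restr v2 Y Z)) ++ restr v3 Y Z) := by
    rw [restr_append, restr_cons_ne hY.symm hZ.symm, restr_append,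
      restr_cons_ne hY.symm hZ.symm, vinv_vinv]
  have hc : c = !a := by
    rcases Bool.eq_or_eq_not c a with h | h
    · exfalso
      apply hs'
      refine ⟨a, Y, ?_⟩
      have h1 := count_le_oc a Y (v1 ++ (vinv v2 ++ v3))
      have h2 := hq' Y
      change oc Y _ = 0 ∨ oc Y _ = 2 at h2
      have h3 : 2 ≤ (v1 ++ (vinv v2 ++ v3)).count (a, Y) := by
        have h4 : (restr (v1 ++ (vinv v2 ++ v3)) Y Z).count (a, Y) ≤
            (v1 ++ (vinv v2 ++ v3)).count (a, Y) := List.Sublist.count_le _ List.filter_sublist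
        rw [hres', h, List.count_cons_self, List.count_cons_of_ne (by simp [hYZ.symm]),
          List.count_cons_self] at h4
        omega
      omega
    · exact h
  have hd : d = !b := by
    rcases Bool.eq_or_eq_not d b with h | h
    · exfalso
      apply hs'
      refine ⟨b, Z, ?_⟩
      have h1 := count_le_oc b Z (v1 ++ (vinv v2 ++ v3))
      have h2 := hq' Z
      change oc Z _ = 0 ∨ oc Z _ = 2 at h2
      have h3 : 2 ≤ (v1 ++ (vinv v2 ++ v3)).count (b, Z) := by
        have h4 : (restr (v1 ++ (vinv v2 ++ v3)) Y Z).count (b, Z) ≤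
            (v1 ++ (vinv v2 ++ v3)).count (b, Z) := List.Sublist.count_le _ List.filter_sublist
        rw [hres', h, List.count_cons_of_ne (by simp [hYZ]), List.count_cons_self,
          List.count_cons_of_ne (by simp [hYZ]), List.count_cons_self] at h4
        omega
      omega
    · exact h
  subst hc; subst hd
  rw [restr_append, restr_append, restr_vinv] at hres'
  rcases split4 hres' with ⟨e1, e2, e3⟩ | ⟨e1, e2, e3⟩ | ⟨e1, e2, e3⟩ | ⟨e1, e2, e3⟩ |
      ⟨e1, e2, e3⟩ | ⟨e1, e2, e3⟩ | ⟨e1, e2, e3⟩ | ⟨e1, e2, e3⟩ | ⟨e1, e2, e3⟩ | ⟨e1, e2, e3⟩ |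
      ⟨e1, e2, e3⟩ | ⟨e1, e2, e3⟩ | ⟨e1, e2, e3⟩ | ⟨e1, e2, e3⟩ | ⟨e1, e2, e3⟩ <;>
    rw [e1, e2, e3] at hres
  -- r1 = []
  · exact hh (handle_A hYZ (a := a) (b := b) (c := !a) (d := !b) (by simpa [vinv] using hres)
      (Or.inl (by simp)))
  · exact hh (handle_A hYZ (a := !a) (b := b) (c := !a) (d := !b) (by simpa [vinv] using hres)
      (Or.inr (by simp)))
  · rw [restr_swap] at hres
    exact hh (handle_C hYZ.symm (a := !b) (b := !a) (by simpa [vinv] using hres))
  · exact hh (handle_A hYZ (a := a) (b := !b) (c := !a) (d := !b) (by simpa [vinv] using hres)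
      (Or.inl (by simp)))
  · rw [restr_swap] at hres
    exact hh (handle_A hYZ.symm (a := b) (b := a) (c := !b) (d := !a)
      (by simpa [vinv] using hres) (Or.inl (by simp)))
  -- r1 = [x]
  · exact hh (handle_A hYZ (a := a) (b := b) (c := !a) (d := !b) (by simpa [vinv] using hres)
      (Or.inl (by simp)))
  · exact hh (handle_A hYZ (a := a) (b := !b) (c := !a) (d := !b) (by simpa [vinv] using hres)
      (Or.inl (by simp)))
  · exact hh (handle_B hYZ (a := a) (b := !b) (by simpa [vinv] using hres))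
  · exact hh (handle_A hYZ (a := a) (b := b) (c := a) (d := !b) (by simpa [vinv] using hres)
      (Or.inr (by simp)))
  -- r1 = [x, y]
  · exact hh (handle_A hYZ (a := a) (b := b) (c := !a) (d := !b) (by simpa [vinv] using hres)
      (Or.inl (by simp)))
  · exact hh (handle_A hYZ (a := a) (b := b) (c := a) (d := !b) (by simpa [vinv] using hres)
      (Or.inr (by simp)))
  · exact hh (handle_C hYZ (a := a) (b := b) (by simpa [vinv] using hres))
  -- r1 = [x, y, z]
  · exact hh (handle_A hYZ (a := a) (b := b) (c := !a) (d := !b) (by simpa [vinv] using hres)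
      (Or.inl (by simp)))
  · exact hh (handle_A hYZ (a := a) (b := b) (c := !a) (d := b) (by simpa [vinv] using hres)
      (Or.inl (by simp)))
  · exact hh (handle_A hYZ (a := a) (b := b) (c := !a) (d := !b) (by simpa [vinv] using hres)
      (Or.inl (by simp)))

section red

variable {G A K : Type} [Group G] [CommGroup A]

/-- all conjugates of values of a word -/
def Vals (κ : K → G) (w : List (Bool × (K ⊕ ℕ))) : Set G :=
  {g | ∃ (σ : ℕ → G) (y : G), g = y * value κ σ w * y⁻¹}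

theorem solvable_iff_Vals (κ : K → G) (w : List (Bool × (K ⊕ ℕ))) :
    (∃ σ : ℕ → G, value κ σ w = 1) ↔ (1 : G) ∈ Vals κ w := by
  constructor
  · rintro ⟨σ, h⟩
    exact ⟨σ, 1, by rw [h]; group⟩
  · rintro ⟨σ, y, h⟩
    refine ⟨σ, ?_⟩
    have : value κ σ w = y⁻¹ * (y * value κ σ w * y⁻¹) * y := by group
    rw [this, ← h]; group

/-- formal inverse of a word -/
def winv (w : List (Bool × (K ⊕ ℕ))) : List (Bool × (K ⊕ ℕ)) :=
  (w.map (fun p => (!p.1, p.2))).reverse

theorem value_winv (κ : K → G) (σ : ℕ → G) (w : List (Bool × (K ⊕ ℕ))) :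
    value κ σ (winv w) = (value κ σ w)⁻¹ := by
  induction w with
  | nil => simp [winv, value]
  | cons p w ih =>
    have e : winv (p :: w) = winv w ++ [(!p.1, p.2)] := by simp [winv]
    rw [e, value_append, ih, value_cons κ σ p w, mul_inv_rev]
    congr 1
    obtain ⟨s, x⟩ := p
    cases s <;> simp [value, letter]

theorem vars_append (a b : List (Bool × (K ⊕ ℕ))) : vars (a ++ b) = vars a ++ vars b := by
  simp [vars]

theorem vars_winv (w : List (Bool × (K ⊕ ℕ))) : vars (winv w) = vinv (vars w) := by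
  induction w with
  | nil => rfl
  | cons p w ih =>
    have e : winv (p :: w) = winv w ++ [(!p.1, p.2)] := by simp [winv]
    rw [e, vars_append, ih]
    obtain ⟨s, x | n⟩ := p
    · have e1 : vars ((s, Sum.inl x) :: w) = vars w := List.filterMap_cons_none rfl
      have e2 : vars [(!s, (Sum.inl x : K ⊕ ℕ))] = [] := rfl
      rw [e1, e2, List.append_nil]
    · have e1 : vars ((s, (Sum.inr n : K ⊕ ℕ)) :: w) = (s, n) :: vars w :=
        List.filterMap_cons_some rfl
      have e2 : vars [(!s, (Sum.inr n : K ⊕ ℕ))] = [(!s, n)] := rfl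
      rw [e1, e2]; simp [vinv]

theorem mem_vars {w : List (Bool × (K ⊕ ℕ))} {p : Bool × (K ⊕ ℕ)} (hp : p ∈ w) {n : ℕ}
    (hn : p.2 = Sum.inr n) : (p.1, n) ∈ vars w := by
  unfold vars
  rw [List.mem_filterMap]
  refine ⟨p, hp, ?_⟩
  unfold varOf; rw [hn]; rfl

theorem value_update {κ : K → G} {σ : ℕ → G} {w : List (Bool × (K ⊕ ℕ))} {n : ℕ}
    (h : oc n (vars w) = 0) (P : G) : value κ (Function.update σ n P) w = value κ σ w := by
  apply value_congr
  intro p hp k hk
  rw [Function.update_of_ne]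
  exact mem_of_oc h (mem_vars hp hk)

theorem value_const {κ : K → G} {w : List (Bool × (K ⊕ ℕ))} (h : vars w = []) (σ σ' : ℕ → G) :
    value κ σ w = value κ σ' w := by
  apply value_congr
  intro p hp k hk
  have := mem_vars hp hk
  rw [h] at this
  exact absurd this (by simp)

theorem word_split {w : List (Bool × (K ⊕ ℕ))} {v1 v2 v3 : List (Bool × ℕ)} {s t : Bool} {n m : ℕ}
    (h : vars w = v1 ++ (s, n) :: (v2 ++ (t, m) :: v3)) :
    ∃ l1 l2 l3, w = l1 ++ (s, Sum.inr n) :: (l2 ++ (t, Sum.inr m) :: l3) ∧ vars l1 = v1 ∧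
      vars l2 = v2 ∧ vars l3 = v3 := by
  have key : ∀ (w : List (Bool × (K ⊕ ℕ))) (v1 v2 : List (Bool × ℕ)) (s : Bool) (n : ℕ),
      vars w = v1 ++ (s, n) :: v2 → ∃ l1 l2, w = l1 ++ (s, Sum.inr n) :: l2 ∧ vars l1 = v1 ∧
        vars l2 = v2 := by
    intro w v1 v2 s n h
    unfold vars at h
    rw [List.filterMap_eq_append_iff] at h
    obtain ⟨k1, k2, rfl, h1, h2⟩ := h
    rw [List.filterMap_eq_cons_iff] at h2
    obtain ⟨k3, p, k4, rfl, h3, h4, h5⟩ := h2
    have hp : p = (s, Sum.inr n) := by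
      obtain ⟨u, x | j⟩ := p
      · simp [varOf] at h4
      · simp only [varOf, Sum.elim_inr, Option.some.injEq, Prod.mk.injEq] at h4
        rw [h4.1, h4.2]
    refine ⟨k1 ++ k3, k4, by rw [hp]; simp, ?_, h5⟩
    rw [vars_append]
    have : vars k3 = [] := by
      unfold vars; rw [List.filterMap_eq_nil_iff]; exact h3
    rw [this, List.append_nil]; exact h1
  obtain ⟨l1, l', rfl, h1, h2⟩ := key w v1 _ s n h
  obtain ⟨l2, l3, rfl, h3, h4⟩ := key l' v2 _ t m h2
  exact ⟨l1, l2, l3, rfl, h1, h3, h4⟩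

/-- **planar words**: the conjugates of their values are the products of conjugates of the
members of a list of constants -/
theorem planar_reduce (κ : K → G) : ∀ (N : ℕ) (w : List (Bool × (K ⊕ ℕ))), (vars w).length ≤ N →
    Planar (vars w) → ∃ cs : List G, 2 * cs.length = (vars w).length + 2 ∧ Vals κ w = CP cs := by
  intro N
  induction N with
  | zero =>
    intro w hw _
    have h0 : vars w = [] := List.length_eq_zero_iff.1 (by omega)
    refine ⟨[value κ (fun _ => 1) w], by rw [h0]; rfl, ?_⟩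
    rw [CP_single]
    ext g
    constructor
    · rintro ⟨σ, y, rfl⟩
      exact ⟨y, by rw [value_const h0 σ (fun _ => 1)]⟩
    · rintro ⟨y, rfl⟩
      exact ⟨fun _ => 1, y, rfl⟩
  | succ N ih =>
    intro w hw hp
    by_cases h0 : vars w = []
    · refine ⟨[value κ (fun _ => 1) w], by rw [h0]; rfl, ?_⟩
      rw [CP_single]
      ext g
      constructor
      · rintro ⟨σ, y, rfl⟩
        exact ⟨y, by rw [value_const h0 σ (fun _ => 1)]⟩
      · rintro ⟨y, rfl⟩
        exact ⟨fun _ => 1, y, rfl⟩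
    obtain ⟨v1, s, n, v2, hv⟩ := planar_adj _ _ le_rfl hp h0
    obtain ⟨l1, l2, l3, hw2, e1, e2, e3⟩ := word_split (v2 := []) (t := !s) (m := n)
      (show vars w = v1 ++ (s, n) :: ([] ++ (!s, n) :: v2) from hv)
    have hrem : Planar (vars (l1 ++ l3)) := by
      rw [vars_append, e1, e3]
      rw [hv] at hp
      exact planar_remove hp
    have hlen : (vars (l1 ++ l3)).length + 2 = (vars w).length := by
      rw [vars_append, e1, e3, hv]; simp; omega
    obtain ⟨cs, hcs, hV⟩ := ih (l1 ++ l3) (by omega) hrem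
    have hn : oc n v1 = 0 ∧ oc n v2 = 0 := by
      have h1 := hp.1 n
      change oc n _ = 0 ∨ oc n _ = 2 at h1
      rw [hv, oc_append, oc_cons_self, oc_cons_self] at h1
      omega
    refine ⟨cs ++ [value κ (fun _ => 1) l2], by
      rw [List.length_append, List.length_singleton]; omega, ?_⟩
    rw [CP_append, CP_single, ← hV]
    ext g
    constructor
    · rintro ⟨σ, y, rfl⟩
      rw [hw2]
      simp only [value_append, value_cons, letter_var]
      rw [value_const e2 σ (fun _ => 1), sg_not]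
      refine ⟨y * value κ σ (l1 ++ l3) * y⁻¹, ⟨σ, y, rfl⟩,
        (y * (value κ σ l3)⁻¹ * sg s (σ n)) * value κ (fun _ => 1) l2 *
          (y * (value κ σ l3)⁻¹ * sg s (σ n))⁻¹, ⟨_, rfl⟩, ?_⟩
      rw [value_append]; group
    · rintro ⟨x, ⟨σ, y, rfl⟩, z, ⟨q, rfl⟩, rfl⟩
      refine ⟨Function.update σ n (sg s (value κ σ l3 * y⁻¹ * q)), y, ?_⟩
      rw [hw2]
      simp only [value_append, value_cons, letter_var]
      rw [value_update (w := l1) (by rw [e1]; exact hn.1),
        value_update (w := l3) (by rw [e3]; exact hn.2),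
        value_const e2 (Function.update σ n _) (fun _ => 1), Function.update_self, sg_not,
        sg_sg_self]
      group

/-- **words with a same-sign variable and no handle** -/
theorem proj_reduce (κ : K → G) {w : List (Bool × (K ⊕ ℕ))} (hq : Quad (vars w))
    (hs : SameSign (vars w)) (hh : ¬ Handle (vars w)) :
    ∃ cs : List G, 2 * cs.length = (vars w).length ∧
      Vals κ w = {g | ∃ s, ∃ h ∈ CP cs, g = s * s * h} := by
  obtain ⟨s, n, hsn⟩ := hs
  have hex : ∃ v1 v2 v3, vars w = v1 ++ (s, n) :: (v2 ++ (s, n) :: v3) := by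
    have hm : (s, n) ∈ vars w := by
      rw [← List.count_pos_iff]; omega
    obtain ⟨v1, v', hv⟩ := List.append_of_mem hm
    by_cases h1 : (s, n) ∈ v'
    · obtain ⟨v2, v3, hv'⟩ := List.append_of_mem h1
      exact ⟨v1, v2, v3, by rw [hv, hv']⟩
    · have h2 : (s, n) ∈ v1 := by
        rw [hv, List.count_append, List.count_cons_self, List.count_eq_zero.2 h1] at hsn
        rw [← List.count_pos_iff]; omega
      obtain ⟨v2, v3, hv'⟩ := List.append_of_mem h2
      exact ⟨v2, v3, v', by rw [hv, hv']; simp⟩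
  obtain ⟨v1, v2, v3, hv⟩ := hex
  obtain ⟨l1, l2, l3, hw2, e1, e2, e3⟩ := word_split hv
  have hpl : Planar (vars (l1 ++ (winv l2 ++ l3))) := by
    rw [vars_append, vars_append, vars_winv, e1, e2, e3]
    rw [hv] at hq hh
    exact planar_of_not_handle hq hh
  obtain ⟨cs, hcs, hV⟩ := planar_reduce κ _ _ le_rfl hpl
  have hn : oc n v1 = 0 ∧ oc n v2 = 0 ∧ oc n v3 = 0 := by
    have h1 := hq n
    change oc n _ = 0 ∨ oc n _ = 2 at h1
    rw [hv, oc_append, oc_cons_self, oc_append, oc_cons_self] at h1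
    omega
  refine ⟨cs, ?_, ?_⟩
  · rw [hcs, vars_append, vars_append, vars_winv, e1, e2, e3, hv]
    simp [vinv]; omega
  rw [← hV]
  ext g
  constructor
  · rintro ⟨σ, y, rfl⟩
    rw [hw2]
    simp only [value_append, value_cons, letter_var]
    refine ⟨(y * value κ σ l1) * (sg s (σ n) * value κ σ l2) * (y * value κ σ l1)⁻¹,
      y * value κ σ (l1 ++ (winv l2 ++ l3)) * y⁻¹, ⟨σ, y, rfl⟩, ?_⟩
    rw [value_append, value_append, value_winv]; group
  · rintro ⟨u, h, ⟨σ, y, rfl⟩, rfl⟩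
    refine ⟨Function.update σ n (sg s ((y * value κ σ l1)⁻¹ * u * (y * value κ σ l1) *
      (value κ σ l2)⁻¹)), y, ?_⟩
    rw [hw2]
    simp only [value_append, value_cons, letter_var]
    rw [value_update (w := l1) (by rw [e1]; exact hn.1),
      value_update (w := l2) (by rw [e2]; exact hn.2.1),
      value_update (w := l3) (by rw [e3]; exact hn.2.2), Function.update_self, sg_sg_self, value_winv]
    group

theorem sphere_reduce (κ : K → G) {w : List (Bool × (K ⊕ ℕ))} (hq : Quad (vars w))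
    (hs : ¬ SameSign (vars w)) (hh : ¬ Handle (vars w)) :
    ∃ cs : List G, 2 * cs.length = (vars w).length + 2 ∧ Vals κ w = CP cs := by
  apply planar_reduce κ _ _ le_rfl
  refine ⟨hq, hs, fun X Y hXY a b c d h => hh ?_⟩
  refine handle_A hXY h (Or.inl fun hac => hs ⟨a, X, ?_⟩)
  subst hac
  have h1 := count_le_oc a X (vars w)
  have h2 := hq X
  change oc X _ = 0 ∨ oc X _ = 2 at h2
  have h4 : (restr (vars w) X Y).count (a, X) ≤ (vars w).count (a, X) :=
    List.Sublist.count_le _ List.filter_sublist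
  rw [h, List.count_cons_self, List.count_cons_of_ne (by simp [hXY.symm]),
    List.count_cons_self] at h4
  omega

end red

end Pool.Agent.K9h94.ThF
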