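import Mathlib
import Pool.Agent.K9h94.ThF.GroupF
import Pool.Agent.K9h94.ThF.Sphere
import Pool.Agent.K9h94.ThF.Reduce2
import Pool.Agent.K9h94.ThF.Algo
import Pool.Agent.K9h94.ThF.Iso

set_option autoImplicit false
set_option linter.unusedVariables false
set_option linter.deprecated false

namespace Pool.Agent.K9h94.ThF

open Pool.Agent.Helper283.PL Pool.Agent.Helper283

/-- the upward elements -/
def Up : Set (Sup 0 1) := {g | ∀ x, 0 < x → x < 1 → x < (g : Equiv.Perm ℝ) x}

theorem tri_struct : Tri abF Up where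
  tri := by
    intro f hf h hh g hg hab
    have h1 : Multiplicative.ofAdd (gE h) = Multiplicative.ofAdd (gE f + gE g) := by
      rw [ofAdd_add]; exact hab
    have h2 : gE h = gE f + gE g := Multiplicative.ofAdd.injective h1
    have h3 : (gE h).1 = (gE f).1 + (gE g).1 := congrArg Prod.fst h2
    have h4 : (gE h).2 = (gE f).2 + (gE g).2 := congrArg Prod.snd h2
    obtain ⟨C1, hC1, C2, hC2, hC⟩ := tri_F f.2 h.2 g.2 hf hh (fun h5 => hg (Subtype.ext h5))
      (gE_spec f) (gE_spec h) (gE_spec g) h3 h4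
    exact ⟨⟨C1, hC1⟩, ⟨C2, hC2⟩, Subtype.ext hC⟩
  centre := by
    intro g hg
    obtain ⟨y, hy, h⟩ := centre_F g.2 (fun h5 => hg (Subtype.ext h5))
    exact ⟨⟨y, hy⟩, fun h2 => h (congrArg Subtype.val h2)⟩
  avoid := by
    intro a r
    obtain ⟨s, hs, h1, h2⟩ := avoid_F (r := (r : Equiv.Perm ℝ)) (k := (Multiplicative.toAdd a).1)
      (l := (Multiplicative.toAdd a).2)
    exact ⟨⟨s, hs⟩, abF_eq (g := ⟨s, hs⟩) h1, fun h3 => h2 (congrArg Subtype.val h3)⟩

theorem abF_one_iff {g : Sup 0 1} {k l : ℤ} (h : GermsAt (g : Equiv.Perm ℝ) k l) :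
    abF g = 1 ↔ k = 0 ∧ l = 0 := by
  rw [abF_eq h]
  constructor
  · intro h1
    have h2 : (k, l) = ((0, 0) : ℤ × ℤ) := Multiplicative.ofAdd.injective h1
    exact ⟨congrArg Prod.fst h2, congrArg Prod.snd h2⟩
  · rintro ⟨rfl, rfl⟩; rfl

theorem abF_sq_iff {g : Sup 0 1} {k l : ℤ} (h : GermsAt (g : Equiv.Perm ℝ) k l) :
    (∃ r, abF g = r * r) ↔ Even k ∧ Even l := by
  rw [abF_eq h]
  constructor
  · rintro ⟨r, h1⟩
    have h2 : (k, l) = Multiplicative.toAdd r + Multiplicative.toAdd r :=
      Multiplicative.ofAdd.injective h1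
    exact ⟨⟨(Multiplicative.toAdd r).1, congrArg Prod.fst h2⟩,
      ⟨(Multiplicative.toAdd r).2, congrArg Prod.snd h2⟩⟩
  · rintro ⟨⟨a, rfl⟩, ⟨b, rfl⟩⟩
    exact ⟨Multiplicative.ofAdd (a, b), rfl⟩

/-- criterion for words with a handle, in terms of germs -/
theorem handle_germs {K : Type} (κ : K → Sup 0 1) {w : List (Bool × (K ⊕ ℕ))}
    (hq : Quad (vars w)) (hh : Handle (vars w)) {k l : ℤ}
    (hg : GermsAt ((value κ (fun _ => 1) w : Sup 0 1) : Equiv.Perm ℝ) k l) :
    (∃ σ : ℕ → Sup 0 1, value κ σ w = 1) ↔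
      ((SameSign (vars w) → Even k ∧ Even l) ∧ (¬ SameSign (vars w) → k = 0 ∧ l = 0)) := by
  rw [handle_iff good_F κ hq hh, abF_one_iff hg, abF_sq_iff hg]

theorem sphere_germs {cs rest : List (Sup 0 1)} {u d r : Sup 0 1}
    (hp : cs.Perm (u :: d :: r :: rest)) (hu : ∀ x, 0 < x → x < 1 → x < (u : Equiv.Perm ℝ) x)
    (hd : ∀ x, 0 < x → x < 1 → (d : Equiv.Perm ℝ) x < x) (hr : r ≠ 1) {k l : ℤ}
    (hg : GermsAt (cs.prod : Sup 0 1) k l) : 1 ∈ CP cs ↔ k = 0 ∧ l = 0 := by
  rw [sphere_iff tri_struct hp hu (dinv hd) hr, abF_one_iff hg]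
where
  dinv {d : Sup 0 1} (hd : ∀ x, 0 < x → x < 1 → (d : Equiv.Perm ℝ) x < x) : d⁻¹ ∈ Up := by
    intro x h0 h1
    by_contra hc
    push Not at hc
    set y := ((d⁻¹ : Sup 0 1) : Equiv.Perm ℝ) x with hy
    have e : (d : Equiv.Perm ℝ) y = x := Equiv.apply_symm_apply (d : Equiv.Perm ℝ) x
    have hm := (mem_Sup.1 d.2).1.1
    have f0 := (mem_Sup.1 d.2).2 0 (Or.inl le_rfl)
    have hy0 : 0 < y := by
      rw [← hm.lt_iff_lt, f0, e]; exact h0
    have := hd y hy0 (lt_of_le_of_lt hc h1)
    rw [e] at this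
    linarith

theorem proj_germs {cs rest : List (Sup 0 1)} {u d : Sup 0 1}
    (hp : cs.Perm (u :: d :: rest)) (hu : ∀ x, 0 < x → x < 1 → x < (u : Equiv.Perm ℝ) x)
    (hd : ∀ x, 0 < x → x < 1 → (d : Equiv.Perm ℝ) x < x) {k l : ℤ}
    (hg : GermsAt (cs.prod : Sup 0 1) k l) :
    (∃ s, ∃ g ∈ CP cs, s * s * g = 1) ↔ Even k ∧ Even l := by
  rw [proj_iff tri_struct hp hu (sphere_germs.dinv hd), abF_sq_iff hg]

/-! ### the algorithm -/

/-- transported abelianisation -/
noncomputable def abP : Pool.Agent.H245R3.TF.G →* Multiplicative (ℤ × ℤ) :=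
  abF.comp Th.toMonoidHom

theorem good_P : Good abP where
  surj := by
    intro a
    obtain ⟨g, hg⟩ := good_F.surj a
    exact ⟨Th.symm g, by show abF (Th (Th.symm g)) = a; rw [MulEquiv.apply_symm_apply, hg]⟩
  comm := by
    intro g hg
    obtain ⟨X, Y, h⟩ := good_F.comm (Th g) hg
    refine ⟨Th.symm X, Th.symm Y, Th.injective ?_⟩
    simp only [map_mul, map_inv, MulEquiv.apply_symm_apply, h]
  sq := by
    intro g a hg
    obtain ⟨X, Y, h⟩ := good_F.sq (Th g) a hg
    refine ⟨Th.symm X, Th.symm Y, Th.injective ?_⟩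
    simp only [map_mul, MulEquiv.apply_symm_apply, h]

/-- the constants -/
def kap : Bool → Pool.Agent.H245R3.TF.G := fun c => PresentedGroup.of c

theorem abP_false : abP (kap false) = Multiplicative.ofAdd ((-1, 1) : ℤ × ℤ) := by
  show abF (Th (PresentedGroup.of false)) = _
  rw [Th_a]; exact abF_eq Xinv_germs

theorem abP_true : abP (kap true) = Multiplicative.ofAdd ((0, 1) : ℤ × ℤ) := by
  show abF (Th (PresentedGroup.of true)) = _
  rw [Th_b]; exact abF_eq Yinv_germs

theorem cnt_cons (c p : Bool × (Bool ⊕ ℕ)) (w : List (Bool × (Bool ⊕ ℕ))) :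
    cnt c (p :: w) = cnt c w + if p = c then 1 else 0 := by
  unfold cnt
  rw [List.countP_cons]
  simp

theorem abP_value (w : List (Bool × (Bool ⊕ ℕ))) :
    Multiplicative.toAdd (abP (value kap (fun _ => 1) w)) =
      (-((cnt (true, Sum.inl false) w : ℤ) - cnt (false, Sum.inl false) w),
        ((cnt (true, Sum.inl false) w : ℤ) - cnt (false, Sum.inl false) w) +
        ((cnt (true, Sum.inl true) w : ℤ) - cnt (false, Sum.inl true) w)) := by
  induction w with
  | nil =>
    simp [value, cnt]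
    rfl
  | cons p w ih =>
    rw [value_cons, map_mul, toAdd_mul, ih]
    simp only [cnt_cons]
    obtain ⟨s, c | n⟩ := p
    · cases s <;> cases c
      · have : letter kap (fun _ => 1) (false, Sum.inl false) = (kap false)⁻¹ := by
          simp [letter]
        rw [this, map_inv, abP_false]
        simp
        constructor <;> ring
      · have : letter kap (fun _ => 1) (false, Sum.inl true) = (kap true)⁻¹ := by
          simp [letter]
        rw [this, map_inv, abP_true]
        simp
        ring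
      · have : letter kap (fun _ => 1) (true, Sum.inl false) = (kap false) := by
          simp [letter]
        rw [this, abP_false]
        simp
        constructor <;> ring
      · have : letter kap (fun _ => 1) (true, Sum.inl true) = (kap true) := by
          simp [letter]
        rw [this, abP_true]
        simp
        ring
    · have : letter kap (fun _ => 1) (s, Sum.inr n) = 1 := by
        cases s <;> simp [letter]
      rw [this, map_one]
      simp

theorem solvable_iff_dec {w : List (Bool × (Bool ⊕ ℕ))} (hq : Quad (vars w))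
    (hh : Handle (vars w)) :
    (∃ σ : ℕ → Pool.Agent.H245R3.TF.G, value kap σ w = 1) ↔ Dec w := by
  rw [handle_iff good_P kap hq hh]
  have h := abP_value w
  set z := abP (value kap (fun _ => 1) w) with hz
  set A := cnt (true, Sum.inl false) w
  set A' := cnt (false, Sum.inl false) w
  set B := cnt (true, Sum.inl true) w
  set B' := cnt (false, Sum.inl true) w
  have h1 : z = 1 ↔ (A = A' ∧ B = B') := by
    constructor
    · intro hz1
      rw [hz1, toAdd_one] at h
      have e1 : (0 : ℤ) = -((A : ℤ) - A') := congrArg Prod.fst h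
      have e2 : (0 : ℤ) = ((A : ℤ) - A') + ((B : ℤ) - B') := congrArg Prod.snd h
      constructor <;> omega
    · rintro ⟨h1, h2⟩
      apply Multiplicative.toAdd.injective
      rw [h, h1, h2, toAdd_one]
      simp
  have h2 : (∃ r, z = r * r) ↔ ((A + A') % 2 = 0 ∧ (B + B') % 2 = 0) := by
    constructor
    · rintro ⟨r, hr⟩
      rw [hr, toAdd_mul] at h
      have e1 : (Multiplicative.toAdd r).1 + (Multiplicative.toAdd r).1 = -((A : ℤ) - A') :=
        congrArg Prod.fst h
      have e2 : (Multiplicative.toAdd r).2 + (Multiplicative.toAdd r).2 =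
        ((A : ℤ) - A') + ((B : ℤ) - B') := congrArg Prod.snd h
      constructor <;> omega
    · rintro ⟨h1, h2⟩
      obtain ⟨a, ha⟩ : ∃ a : ℤ, (A : ℤ) - A' = a + a := ⟨((A : ℤ) - A') / 2, by omega⟩
      obtain ⟨b, hb⟩ : ∃ b : ℤ, (B : ℤ) - B' = b + b := ⟨((B : ℤ) - B') / 2, by omega⟩
      refine ⟨Multiplicative.ofAdd (-a, a + b), ?_⟩
      apply Multiplicative.toAdd.injective
      rw [h, toAdd_mul, toAdd_ofAdd, ha, hb]
      ext
      · simp
      · simp
        ring
  rw [h1, h2]
  unfold Dec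
  by_cases hs : SameSign (vars w)
  · simp [hs, A, A', B, B']
  · simp [hs, A, A', B, B']

open Classical in
/-- the algorithm -/
noncomputable def alg (w : List (Bool × (Bool ⊕ ℕ))) : Option Bool :=
  if Handle (vars w) then some (decide (Dec w)) else none

theorem alg_computable : Computable alg := by
  classical
  obtain ⟨_, h1⟩ := prim_dec
  obtain ⟨_, h2⟩ := prim_handle.comp prim_vars
  have h3 : Primrec alg := by
    have h4 : Primrec fun w : List (Bool × (Bool ⊕ ℕ)) => some (decide (Dec w)) := by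
      refine (Primrec.option_some.comp h1).of_eq fun w => ?_
      congr
    refine (Primrec.ite (prim_handle.comp prim_vars) h4 (Primrec.const none)).of_eq fun w => ?_
    unfold alg
    congr
  exact h3.to_comp

theorem alg_none (w : List (Bool × (Bool ⊕ ℕ))) : alg w = none ↔ ¬ Handle (vars w) := by
  unfold alg
  split_ifs with h
  · simp [h]
  · simp [h]

theorem alg_true {w : List (Bool × (Bool ⊕ ℕ))} (hq : Quad (vars w)) (hh : Handle (vars w)) :
    alg w = some true ↔ ∃ σ : ℕ → Pool.Agent.H245R3.TF.G, value kap σ w = 1 := by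
  rw [solvable_iff_dec hq hh]
  unfold alg
  rw [if_pos hh]
  simp

theorem alg_false {w : List (Bool × (Bool ⊕ ℕ))} (hq : Quad (vars w)) (hh : Handle (vars w)) :
    alg w = some false ↔ ¬ ∃ σ : ℕ → Pool.Agent.H245R3.TF.G, value kap σ w = 1 := by
  rw [solvable_iff_dec hq hh]
  unfold alg
  rw [if_pos hh]
  simp

/-- quadratic words, in the form of the frozen statement -/
theorem quad_iff {K : Type} [DecidableEq K] (w : List (Bool × (K ⊕ ℕ))) :
    Quad (vars w) ↔ ∀ n : ℕ, w.countP (fun p : Bool × (K ⊕ ℕ) => decide (p.2 = Sum.inr n)) = 0 ∨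
      w.countP (fun p : Bool × (K ⊕ ℕ) => decide (p.2 = Sum.inr n)) = 2 := by
  have h : ∀ n, (vars w).countP (fun q => q.2 = n) =
      w.countP (fun p : Bool × (K ⊕ ℕ) => decide (p.2 = Sum.inr n)) := by
    intro n
    induction w with
    | nil => rfl
    | cons p w ih =>
      obtain ⟨s, c | m⟩ := p
      · have e : vars ((s, (Sum.inl c : K ⊕ ℕ)) :: w) = vars w := rfl
        rw [e, ih, List.countP_cons]
        simp
      · have e : vars ((s, (Sum.inr m : K ⊕ ℕ)) :: w) = (s, m) :: vars w := rfl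
        rw [e, List.countP_cons, ih, List.countP_cons]
        simp
  unfold Quad
  simp only [h]

end Pool.Agent.K9h94.ThF
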